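import Mathlib

set_option autoImplicit false

/-!
# Coincidence counts and their Fourier description

`coinc A Φ` is the number of pairs `(a, b)` of elements of the finite set `A` with `Φ a = Φ b`.
-/

namespace Pool.Agent.H.MP_96e181_an.helper85

open Finset

/-- The number of pairs of elements of `A` with the same image under `Φ`. -/
noncomputable def coinc {α G : Type*} (A : Finset α) (Φ : α → G) : ℕ := by
  classical exact #{ab ∈ A ×ˢ A | Φ ab.1 = Φ ab.2}

theorem coinc_def {α G : Type*} [DecidableEq G] (A : Finset α) (Φ : α → G) :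
    coinc A Φ = #{ab ∈ A ×ˢ A | Φ ab.1 = Φ ab.2} := by
  unfold coinc
  congr

section finiteG

variable {α G : Type*} [AddCommGroup G] [Fintype G]

/-- Parseval: the number of coincidences as a mean value over the characters. -/
theorem sum_norm_sq_eq (A : Finset α) (Φ : α → G) :
    ∑ ψ : AddChar G ℂ, ‖∑ a ∈ A, ψ (Φ a)‖ ^ 2 = (Fintype.card G : ℝ) * coinc A Φ := by
  classical
  have key : ∑ ψ : AddChar G ℂ, ((‖∑ a ∈ A, ψ (Φ a)‖ ^ 2 : ℝ) : ℂ)
      = (Fintype.card G : ℂ) * coinc A Φ := by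
    have h1 : ∀ ψ : AddChar G ℂ, ((‖∑ a ∈ A, ψ (Φ a)‖ ^ 2 : ℝ) : ℂ)
        = ∑ ab ∈ A ×ˢ A, ψ (Φ ab.1 - Φ ab.2) := by
      intro ψ
      rw [← Complex.normSq_eq_norm_sq, ← Complex.mul_conj, map_sum, Finset.sum_mul_sum,
        Finset.sum_product]
      refine Finset.sum_congr rfl fun a _ => Finset.sum_congr rfl fun b _ => ?_
      rw [← AddChar.map_neg_eq_conj, ← AddChar.map_add_eq_mul, sub_eq_add_neg]
    simp_rw [h1]
    rw [Finset.sum_comm]
    simp_rw [AddChar.sum_apply_eq_ite, sub_eq_zero]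
    rw [← Finset.sum_filter, Finset.sum_const, nsmul_eq_mul, mul_comm]
    congr 2
  exact_mod_cast key

end finiteG

/-- Shifting does not increase the number of coincidences. -/
theorem card_shift_le {α G : Type*} [AddCommGroup G] [DecidableEq G] (A : Finset α) (Φ : α → G)
    (v : G) : #{ab ∈ A ×ˢ A | Φ ab.1 = Φ ab.2 + v} ≤ coinc A Φ := by
  classical
  -- number of elements of `A` above a point
  set N : G → ℕ := fun g => #{a ∈ A | Φ a = g} with hN
  set I : Finset G := A.image Φ ∪ (A.image Φ).image (fun g => g + v) with hI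
  have h1 : coinc A Φ = ∑ g ∈ I, N g * N g := by
    unfold coinc
    rw [Finset.card_eq_sum_card_fiberwise (f := fun ab : α × α => Φ ab.1) (t := I)]
    · refine Finset.sum_congr rfl fun g _ => ?_
      rw [hN, ← Finset.card_product]
      congr 1
      ext ⟨a, b⟩
      simp only [mem_filter, mem_product]
      constructor
      · rintro ⟨⟨⟨ha, hb⟩, hab⟩, hg⟩
        exact ⟨⟨ha, hg⟩, hb, hab ▸ hg⟩
      · rintro ⟨⟨ha, hg⟩, hb, hg'⟩
        exact ⟨⟨⟨ha, hb⟩, hg.trans hg'.symm⟩, hg⟩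
    · intro ab hab
      simp only [coe_filter, mem_product] at hab
      rw [hI]
      simp only [coe_union, Set.mem_union, mem_coe, mem_image]
      exact Or.inl ⟨ab.1, hab.1.1, rfl⟩
  have h2 : #{ab ∈ A ×ˢ A | Φ ab.1 = Φ ab.2 + v} = ∑ g ∈ I, N g * N (g - v) := by
    rw [Finset.card_eq_sum_card_fiberwise (f := fun ab : α × α => Φ ab.1) (t := I)]
    · refine Finset.sum_congr rfl fun g _ => ?_
      rw [hN, ← Finset.card_product]
      congr 1
      ext ⟨a, b⟩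
      simp only [mem_filter, mem_product]
      constructor
      · rintro ⟨⟨⟨ha, hb⟩, hab⟩, hg⟩
        exact ⟨⟨ha, hg⟩, hb, by rw [← hg, hab]; simp⟩
      · rintro ⟨⟨ha, hg⟩, hb, hg'⟩
        exact ⟨⟨⟨ha, hb⟩, by rw [hg, hg']; simp⟩, hg⟩
    · intro ab hab
      simp only [coe_filter, mem_product] at hab
      rw [hI]
      simp only [coe_union, Set.mem_union, mem_coe, mem_image]
      exact Or.inl ⟨ab.1, hab.1.1, rfl⟩
  have h3 : ∑ g ∈ I, N (g - v) * N (g - v) ≤ ∑ g ∈ I, N g * N g := by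
    have e : ∀ g, N (g - v) ≠ 0 → g - v ∈ I := by
      intro g hg
      rw [hN] at hg
      simp only [ne_eq, card_eq_zero, filter_eq_empty_iff, not_forall, not_not] at hg
      obtain ⟨a, ha, hag⟩ := hg
      rw [hI]
      simp only [mem_union, mem_image]
      exact Or.inl ⟨a, ha, hag⟩
    calc ∑ g ∈ I, N (g - v) * N (g - v)
        = ∑ g ∈ I with N (g - v) ≠ 0, N (g - v) * N (g - v) := by
          rw [Finset.sum_filter]
          refine Finset.sum_congr rfl fun g _ => ?_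
          split_ifs with h
          · rfl
          · push Not at h
            simp [h]
      _ = ∑ g ∈ (I.filter (fun g => N (g - v) ≠ 0)).image (fun g => g - v), N g * N g := by
          rw [Finset.sum_image]
          intro x _ y _ hxy
          simpa using hxy
      _ ≤ ∑ g ∈ I, N g * N g := by
          apply Finset.sum_le_sum_of_subset
          intro g hg
          simp only [mem_image, mem_filter] at hg
          obtain ⟨g', ⟨_, hg'⟩, rfl⟩ := hg
          exact e g' hg'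
  rw [h1, h2]
  have h4 : ∀ g, 2 * (N g * N (g - v)) ≤ N g * N g + N (g - v) * N (g - v) := by
    intro g
    nlinarith [sq_nonneg ((N g : ℤ) - N (g - v)), Nat.zero_le (N g)]
  have h5 : 2 * ∑ g ∈ I, N g * N (g - v) ≤ ∑ g ∈ I, N g * N g + ∑ g ∈ I, N (g - v) * N (g - v) := by
    rw [Finset.mul_sum, ← Finset.sum_add_distrib]
    exact Finset.sum_le_sum fun g _ => h4 g
  omega

/-- The `r`-tuples of elements of `S`. -/
def tup {ι : Type*} (r : ℕ) (S : Finset ι) : Finset (Fin r → ι) := Fintype.piFinset fun _ => S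

theorem mem_tup {ι : Type*} {r : ℕ} {S : Finset ι} {x : Fin r → ι} :
    x ∈ tup r S ↔ ∀ i, x i ∈ S := by
  simp [tup]

theorem card_tup {ι : Type*} (r : ℕ) (S : Finset ι) : #(tup r S) = #S ^ r := by
  simp [tup]

/-- The number of solutions of `φ x₁ + ⋯ + φ x_r = φ y₁ + ⋯ + φ y_r`. -/
noncomputable def en {ι G : Type*} [AddCommGroup G] (r : ℕ) (S : Finset ι) (φ : ι → G) : ℕ :=
  coinc (tup r S) (fun x => ∑ i, φ (x i))

/-- The number of solutions with an additional pair of variables in `A`. -/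
noncomputable def mix {α ι G : Type*} [AddCommGroup G] (A : Finset α) (Φ : α → G) (r : ℕ)
    (S : Finset ι) (φ : ι → G) : ℕ :=
  coinc (A ×ˢ tup r S) (fun ax => Φ ax.1 + ∑ i, φ (ax.2 i))

section finiteG

variable {α ι G : Type*} [AddCommGroup G]

theorem addChar_sum {κ : Type*} (s : Finset κ) (f : κ → G) (ψ : AddChar G ℂ) :
    ψ (∑ i ∈ s, f i) = ∏ i ∈ s, ψ (f i) := by
  classical
  induction s using Finset.induction_on with
  | empty => simp
  | insert a s ha ih => rw [Finset.sum_insert ha, Finset.prod_insert ha, AddChar.map_add_eq_mul, ih]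

theorem pow_charsum (r : ℕ) (S : Finset ι) (φ : ι → G) (ψ : AddChar G ℂ) :
    (∑ x ∈ S, ψ (φ x)) ^ r = ∑ x ∈ tup r S, ψ (∑ i, φ (x i)) := by
  have h := Finset.prod_univ_sum (fun _ : Fin r => S) (fun _ x => ψ (φ x))
  rw [Finset.prod_const, Finset.card_univ, Fintype.card_fin] at h
  rw [h, tup]
  refine Finset.sum_congr rfl fun x _ => ?_
  rw [addChar_sum]

variable [Fintype G]

theorem sum_pow_eq (r : ℕ) (S : Finset ι) (φ : ι → G) :
    ∑ ψ : AddChar G ℂ, ‖∑ x ∈ S, ψ (φ x)‖ ^ (2 * r) = (Fintype.card G : ℝ) * en r S φ := by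
  rw [en, ← sum_norm_sq_eq]
  refine Finset.sum_congr rfl fun ψ _ => ?_
  rw [← pow_charsum, norm_pow, ← pow_mul, mul_comm]

theorem sum_mix_eq (A : Finset α) (Φ : α → G) (r : ℕ) (S : Finset ι) (φ : ι → G) :
    ∑ ψ : AddChar G ℂ, ‖∑ a ∈ A, ψ (Φ a)‖ ^ 2 * ‖∑ x ∈ S, ψ (φ x)‖ ^ (2 * r)
      = (Fintype.card G : ℝ) * mix A Φ r S φ := by
  rw [mix, ← sum_norm_sq_eq]
  refine Finset.sum_congr rfl fun ψ _ => ?_
  have h : ∑ ax ∈ A ×ˢ tup r S, ψ (Φ ax.1 + ∑ i, φ (ax.2 i))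
      = (∑ a ∈ A, ψ (Φ a)) * (∑ x ∈ S, ψ (φ x)) ^ r := by
    rw [pow_charsum, Finset.sum_mul_sum, Finset.sum_product]
    refine Finset.sum_congr rfl fun a _ => Finset.sum_congr rfl fun x _ => ?_
    rw [AddChar.map_add_eq_mul]
  rw [h, norm_mul, mul_pow, norm_pow, ← pow_mul, mul_comm r 2]

/-- Hölder's inequality over a partition into `#K` classes. -/
theorem mix_le_of_classes_fin {κ : Type*} [DecidableEq κ] (A : Finset α) (Φ : α → G) (r : ℕ)
    (S : Finset ι) (φ : ι → G) (cls : ι → κ) (K : Finset κ) (hK : K.Nonempty)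
    (hcls : ∀ x ∈ S, cls x ∈ K) (Q : ℝ)
    (hQ : ∀ b ∈ K, (mix A Φ r (S.filter fun x => cls x = b) φ : ℝ) ≤ Q) :
    (mix A Φ r S φ : ℝ) ≤ (#K : ℝ) ^ (2 * r) * Q := by
  classical
  have hcard : (0 : ℝ) < Fintype.card G := by
    exact_mod_cast Fintype.card_pos
  have hKc : (0 : ℝ) < #K := by exact_mod_cast hK.card_pos
  rcases Nat.eq_zero_or_pos r with rfl | hr
  · obtain ⟨b, hb⟩ := hK
    have h1 := hQ b hb
    have h2 : (mix A Φ 0 (S.filter fun x => cls x = b) φ : ℝ) = mix A Φ 0 S φ := by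
      have e1 := sum_mix_eq A Φ 0 (S.filter fun x => cls x = b) φ
      have e2 := sum_mix_eq A Φ 0 S φ
      simp only [mul_zero, pow_zero, mul_one] at e1 e2
      have := e1.symm.trans e2
      exact mul_left_cancel₀ hcard.ne' this
    simpa [h2] using h1
  · have key : (Fintype.card G : ℝ) * mix A Φ r S φ
        ≤ (Fintype.card G : ℝ) * ((#K : ℝ) ^ (2 * r) * Q) := by
      rw [← sum_mix_eq]
      calc ∑ ψ : AddChar G ℂ, ‖∑ a ∈ A, ψ (Φ a)‖ ^ 2 * ‖∑ x ∈ S, ψ (φ x)‖ ^ (2 * r)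
          ≤ ∑ ψ : AddChar G ℂ, ‖∑ a ∈ A, ψ (Φ a)‖ ^ 2 * ((#K : ℝ) ^ (2 * r - 1)
              * ∑ b ∈ K, ‖∑ x ∈ S.filter (fun x => cls x = b), ψ (φ x)‖ ^ (2 * r)) := by
            refine Finset.sum_le_sum fun ψ _ => mul_le_mul_of_nonneg_left ?_ (by positivity)
            have h1 : ∑ x ∈ S, ψ (φ x)
                = ∑ b ∈ K, ∑ x ∈ S.filter (fun x => cls x = b), ψ (φ x) :=
              (Finset.sum_fiberwise_of_maps_to hcls _).symm
            have h2 : ‖∑ x ∈ S, ψ (φ x)‖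
                ≤ ∑ b ∈ K, ‖∑ x ∈ S.filter (fun x => cls x = b), ψ (φ x)‖ := by
              rw [h1]; exact norm_sum_le _ _
            have h3 := pow_sum_le_card_mul_sum_pow (s := K)
              (f := fun b => ‖∑ x ∈ S.filter (fun x => cls x = b), ψ (φ x)‖)
              (fun _ _ => norm_nonneg _) (2 * r - 1)
            rw [Nat.sub_add_cancel (by omega)] at h3
            exact (pow_le_pow_left₀ (norm_nonneg _) h2 _).trans h3
        _ = (#K : ℝ) ^ (2 * r - 1) * ∑ b ∈ K, ((Fintype.card G : ℝ)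
              * mix A Φ r (S.filter fun x => cls x = b) φ) := by
            simp_rw [← sum_mix_eq]
            rw [Finset.sum_comm, Finset.mul_sum]
            refine Finset.sum_congr rfl fun ψ _ => ?_
            rw [Finset.mul_sum, Finset.mul_sum, Finset.mul_sum]
            refine Finset.sum_congr rfl fun b _ => ?_
            ring
        _ ≤ (#K : ℝ) ^ (2 * r - 1) * ∑ b ∈ K, ((Fintype.card G : ℝ) * Q) := by
            refine mul_le_mul_of_nonneg_left (Finset.sum_le_sum fun b hb => ?_) (by positivity)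
            exact mul_le_mul_of_nonneg_left (hQ b hb) hcard.le
        _ = (Fintype.card G : ℝ) * ((#K : ℝ) ^ (2 * r) * Q) := by
            rw [Finset.sum_const, nsmul_eq_mul]
            have : (#K : ℝ) ^ (2 * r) = (#K : ℝ) ^ (2 * r - 1) * #K := by
              rw [← pow_succ, Nat.sub_add_cancel (by omega)]
            rw [this]
            ring
    exact le_of_mul_le_mul_left key hcard

omit [Fintype G] in
/-- The pairs of coordinates in the same class. -/
theorem pair_charsum {κ : Type*} [DecidableEq κ] (n : ℕ) (S : Finset ι) (φ : ι → G) (cls : ι → κ)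
    (K : Finset κ) (hcls : ∀ x ∈ S, cls x ∈ K) (a b : Fin n) (hab : a ≠ b) (ψ : AddChar G ℂ) :
    ∑ X ∈ (tup n S).filter (fun X => cls (X a) = cls (X b)), ψ (∑ i, φ (X i))
      = (∑ c ∈ K, (∑ x ∈ S.filter (fun x => cls x = c), ψ (φ x)) ^ 2)
        * (∑ x ∈ S, ψ (φ x)) ^ (n - 2) := by
  classical
  have hn : 2 ≤ n := by
    by_contra hcon
    have : a = b := by
      apply Fin.ext
      have := a.2
      have := b.2
      omega
    exact hab this
  rw [Finset.sum_filter, Finset.sum_mul]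
  have h1 : ∀ X ∈ tup n S, (if cls (X a) = cls (X b) then ψ (∑ i, φ (X i)) else 0)
      = ∑ c ∈ K, ∏ i, (if i = a ∨ i = b then (if cls (X i) = c then ψ (φ (X i)) else 0)
          else ψ (φ (X i))) := by
    intro X hX
    have hprod : ∀ c, ∏ i, (if i = a ∨ i = b then (if cls (X i) = c then ψ (φ (X i)) else 0)
          else ψ (φ (X i))) = if cls (X a) = c ∧ cls (X b) = c then ψ (∑ i, φ (X i)) else 0 := by
      intro c
      by_cases hc : cls (X a) = c ∧ cls (X b) = c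
      · rw [if_pos hc, addChar_sum]
        refine Finset.prod_congr rfl fun i _ => ?_
        split_ifs with h1 h2
        · rfl
        · rcases h1 with rfl | rfl
          · exact absurd hc.1 h2
          · exact absurd hc.2 h2
        · rfl
      · rw [if_neg hc]
        rw [not_and_or] at hc
        rcases hc with hc | hc
        · apply Finset.prod_eq_zero (Finset.mem_univ a)
          rw [if_pos (Or.inl rfl), if_neg hc]
        · apply Finset.prod_eq_zero (Finset.mem_univ b)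
          rw [if_pos (Or.inr rfl), if_neg hc]
    simp_rw [hprod]
    by_cases hc : cls (X a) = cls (X b)
    · rw [if_pos hc]
      rw [Finset.sum_eq_single (cls (X a))]
      · rw [if_pos ⟨rfl, hc.symm⟩]
      · intro c _ hca
        rw [if_neg]
        rintro ⟨h, _⟩
        exact hca h.symm
      · intro h
        exact absurd (hcls _ (mem_tup.1 hX a)) h
    · rw [if_neg hc]
      symm
      apply Finset.sum_eq_zero
      intro c _
      rw [if_neg]
      rintro ⟨h, h'⟩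
      exact hc (h.trans h'.symm)
  rw [Finset.sum_congr rfl h1, Finset.sum_comm]
  refine Finset.sum_congr rfl fun c _ => ?_
  have h2 := Finset.prod_univ_sum (fun _ : Fin n => S)
    (fun i x => if i = a ∨ i = b then (if cls x = c then ψ (φ x) else 0) else ψ (φ x))
  rw [tup, ← h2]
  have h3 : ∀ i : Fin n, (∑ x ∈ S, if i = a ∨ i = b then (if cls x = c then ψ (φ x) else 0)
      else ψ (φ x)) = if i = a ∨ i = b then ∑ x ∈ S.filter (fun x => cls x = c), ψ (φ x)
        else ∑ x ∈ S, ψ (φ x) := by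
    intro i
    split_ifs with h
    · rw [Finset.sum_filter]
    · rfl
  simp_rw [h3]
  rw [Finset.prod_ite, Finset.prod_const, Finset.prod_const]
  have h4 : #(Finset.univ.filter fun i : Fin n => i = a ∨ i = b) = 2 := by
    have : (Finset.univ.filter fun i : Fin n => i = a ∨ i = b) = {a, b} := by
      ext i; simp
    rw [this, Finset.card_pair hab]
  have h5 : #(Finset.univ.filter fun i : Fin n => ¬ (i = a ∨ i = b)) = n - 2 := by
    have := Finset.card_filter_add_card_filter_not (s := (Finset.univ : Finset (Fin n)))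
      (fun i : Fin n => i = a ∨ i = b)
    rw [h4, Finset.card_univ, Fintype.card_fin] at this
    omega
  rw [h4, h5]

end finiteG

theorem coinc_eq_sum {α G : Type*} [DecidableEq G] (A : Finset α) (Φ : α → G) (I : Finset G)
    (hI : ∀ a ∈ A, Φ a ∈ I) : coinc A Φ = ∑ g ∈ I, #{a ∈ A | Φ a = g} ^ 2 := by
  classical
  unfold coinc
  rw [Finset.card_eq_sum_card_fiberwise (f := fun ab : α × α => Φ ab.1) (t := I)]
  · refine Finset.sum_congr rfl fun g _ => ?_
    rw [sq, ← Finset.card_product]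
    congr 1
    ext ⟨a, b⟩
    simp only [mem_filter, mem_product]
    constructor
    · rintro ⟨⟨⟨ha, hb⟩, hab⟩, hg⟩
      exact ⟨⟨ha, hg⟩, hb, hab ▸ hg⟩
    · rintro ⟨⟨ha, hg⟩, hb, hg'⟩
      exact ⟨⟨⟨ha, hb⟩, hg.trans hg'.symm⟩, hg⟩
  · intro ab hab
    simp only [coe_filter, mem_product] at hab
    exact hI _ hab.1.1

theorem coinc_mono {α G : Type*} {A B : Finset α} (h : A ⊆ B) (Φ : α → G) :
    coinc A Φ ≤ coinc B Φ := by
  classical
  unfold coinc
  exact Finset.card_le_card (Finset.filter_subset_filter _ (Finset.product_subset_product h h))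

/-- Coincidences in a union. -/
theorem coinc_biUnion_le {α G π : Type*} [DecidableEq α] (P : Finset π) (A : π → Finset α)
    (Φ : α → G) : coinc (P.biUnion A) Φ ≤ #P * ∑ p ∈ P, coinc (A p) Φ := by
  classical
  set I : Finset G := (P.biUnion A).image Φ with hI
  have h0 : ∀ a ∈ P.biUnion A, Φ a ∈ I := fun a ha => Finset.mem_image_of_mem _ ha
  rw [coinc_eq_sum _ Φ I h0]
  have h1 : ∀ p ∈ P, coinc (A p) Φ = ∑ g ∈ I, #{a ∈ A p | Φ a = g} ^ 2 := by
    intro p hp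
    refine coinc_eq_sum _ Φ I fun a ha => h0 a ?_
    exact Finset.mem_biUnion.2 ⟨p, hp, ha⟩
  rw [Finset.sum_congr rfl h1, Finset.sum_comm, Finset.mul_sum]
  refine Finset.sum_le_sum fun g _ => ?_
  have h2 : #{a ∈ P.biUnion A | Φ a = g} ≤ ∑ p ∈ P, #{a ∈ A p | Φ a = g} := by
    have : ({a ∈ P.biUnion A | Φ a = g} : Finset α) = P.biUnion fun p => {a ∈ A p | Φ a = g} := by
      ext a
      simp only [mem_filter, mem_biUnion]
      constructor
      · rintro ⟨⟨p, hp, ha⟩, hg⟩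
        exact ⟨p, hp, ha, hg⟩
      · rintro ⟨p, hp, ha, hg⟩
        exact ⟨⟨p, hp, ha⟩, hg⟩
    rw [this]
    exact Finset.card_biUnion_le
  calc #{a ∈ P.biUnion A | Φ a = g} ^ 2 ≤ (∑ p ∈ P, #{a ∈ A p | Φ a = g}) ^ 2 :=
        Nat.pow_le_pow_left h2 2
    _ ≤ #P * ∑ p ∈ P, #{a ∈ A p | Φ a = g} ^ 2 := by
        have := sq_sum_le_card_mul_sum_sq (s := P) (f := fun p => (#{a ∈ A p | Φ a = g} : ℝ))
        exact_mod_cast this

theorem young (A B lam : ℝ) (hA0 : 0 ≤ A) (hB0 : 0 ≤ B) (hl : 0 < lam) (k : ℕ) (hk : 2 ≤ k) :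
    A ^ 2 * B ^ (k - 2) ≤ lam ^ (k - 2) * A ^ k + (lam ^ 2)⁻¹ * B ^ k := by
  rcases le_total B (lam * A) with hBA | hBA
  · have h1 : A ^ 2 * B ^ (k - 2) ≤ A ^ 2 * (lam * A) ^ (k - 2) :=
      mul_le_mul_of_nonneg_left (pow_le_pow_left₀ hB0 hBA _) (by positivity)
    have h2 : A ^ 2 * (lam * A) ^ (k - 2) = lam ^ (k - 2) * A ^ k := by
      rw [mul_pow]
      have : A ^ k = A ^ 2 * A ^ (k - 2) := by
        rw [← pow_add]; congr 1; omega
      rw [this]; ring
    have h3 : 0 ≤ (lam ^ 2)⁻¹ * B ^ k := by positivity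
    linarith
  · have h1 : A ^ 2 ≤ (lam ^ 2)⁻¹ * B ^ 2 := by
      have : (lam * A) ^ 2 ≤ B ^ 2 := pow_le_pow_left₀ (by positivity) hBA 2
      rw [mul_pow] at this
      rw [inv_mul_eq_div, le_div_iff₀ (by positivity)]
      linarith
    have h2 : A ^ 2 * B ^ (k - 2) ≤ (lam ^ 2)⁻¹ * B ^ 2 * B ^ (k - 2) :=
      mul_le_mul_of_nonneg_right h1 (by positivity)
    have h3 : (lam ^ 2)⁻¹ * B ^ 2 * B ^ (k - 2) = (lam ^ 2)⁻¹ * B ^ k := by
      rw [mul_assoc, ← pow_add]; congr 2; omega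
    have h4 : 0 ≤ lam ^ (k - 2) * A ^ k := by positivity
    linarith

section finiteG

variable {ι G : Type*} [AddCommGroup G] [Fintype G]

theorem sum_class_pow_le {κ : Type*} [DecidableEq κ] (S : Finset ι) (φ : ι → G) (cls : ι → κ)
    (K : Finset κ) (k : ℕ) (hk : 1 ≤ k) (Q : ℝ)
    (hQ : ∀ b ∈ K, (en k (S.filter fun x => cls x = b) φ : ℝ) ≤ Q) :
    ∑ ψ : AddChar G ℂ, (∑ c ∈ K, ‖∑ x ∈ S.filter (fun x => cls x = c), ψ (φ x)‖ ^ 2) ^ k
      ≤ (#K : ℝ) ^ k * ((Fintype.card G : ℝ) * Q) := by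
  have hk1 : k = (k - 1) + 1 := by omega
  have hnn : (0 : ℝ) ≤ (#K : ℝ) ^ (k - 1) := pow_nonneg (Nat.cast_nonneg _) _
  calc ∑ ψ : AddChar G ℂ, (∑ c ∈ K, ‖∑ x ∈ S.filter (fun x => cls x = c), ψ (φ x)‖ ^ 2) ^ k
      ≤ ∑ ψ : AddChar G ℂ, (#K : ℝ) ^ (k - 1)
          * ∑ c ∈ K, ‖∑ x ∈ S.filter (fun x => cls x = c), ψ (φ x)‖ ^ (2 * k) := by
        refine Finset.sum_le_sum fun ψ _ => ?_
        have h := pow_sum_le_card_mul_sum_pow (s := K)
          (f := fun c => ‖∑ x ∈ S.filter (fun x => cls x = c), ψ (φ x)‖ ^ 2)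
          (fun _ _ => by positivity) (k - 1)
        rw [← hk1] at h
        refine h.trans (le_of_eq ?_)
        congr 1
        refine Finset.sum_congr rfl fun c _ => ?_
        rw [← pow_mul]
    _ = (#K : ℝ) ^ (k - 1) * ∑ c ∈ K, ((Fintype.card G : ℝ)
          * en k (S.filter fun x => cls x = c) φ) := by
        rw [← Finset.mul_sum, Finset.sum_comm]
        congr 1
        refine Finset.sum_congr rfl fun c _ => ?_
        rw [← sum_pow_eq]
    _ ≤ (#K : ℝ) ^ (k - 1) * ∑ c ∈ K, ((Fintype.card G : ℝ) * Q) := by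
        refine mul_le_mul_of_nonneg_left (Finset.sum_le_sum fun c hc => ?_) hnn
        exact mul_le_mul_of_nonneg_left (hQ c hc) (Nat.cast_nonneg _)
    _ = (#K : ℝ) ^ k * ((Fintype.card G : ℝ) * Q) := by
        rw [Finset.sum_const, nsmul_eq_mul]
        have : (#K : ℝ) ^ k = (#K : ℝ) ^ (k - 1) * #K := by
          rw [← pow_succ, ← hk1]
        rw [this]; ring

/-- Splitting off the well conditioned solutions. -/
theorem cond_split_fin {κ : Type*} [DecidableEq κ] (n r : ℕ) (hn : 2 ≤ n) (S : Finset ι)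
    (φ : ι → G) (cls : ι → κ) (K : Finset κ) (hcls : ∀ x ∈ S, cls x ∈ K) (Q : ℝ)
    (hQ : ∀ b ∈ K, (en (n + r) (S.filter fun x => cls x = b) φ : ℝ) ≤ Q) :
    (en (n + r) S φ : ℝ) ≤ 4 * mix ((tup n S).filter fun X => ∀ a b, a ≠ b → cls (X a) ≠ cls (X b))
        (fun X => ∑ i, φ (X i)) r S φ + (2 * (n : ℝ) ^ 2) ^ (n + r) * (#K : ℝ) ^ (n + r) * Q := by
  classical
  set k := n + r with hk
  set g : ℝ := ((Fintype.card G : ℕ) : ℝ) with hg
  have hgpos : 0 < g := by rw [hg]; exact_mod_cast Fintype.card_pos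
  set W : Finset (Fin n → ι) := (tup n S).filter fun X => ∀ a b, a ≠ b → cls (X a) ≠ cls (X b)
    with hW
  set W' : Finset (Fin n → ι) := (tup n S).filter fun X => ¬ ∀ a b, a ≠ b → cls (X a) ≠ cls (X b)
    with hW'
  set Φ : (Fin n → ι) → G := fun X => ∑ i, φ (X i) with hΦ
  set f : AddChar G ℂ → ℂ := fun ψ => ∑ x ∈ S, ψ (φ x) with hf
  set fc : κ → AddChar G ℂ → ℂ := fun c ψ => ∑ x ∈ S.filter (fun x => cls x = c), ψ (φ x) with hfc
  -- step 1
  have s1 : g * en k S φ ≤ 2 * (g * mix W Φ r S φ) + 2 * (g * mix W' Φ r S φ) := by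
    rw [hg, ← sum_pow_eq, ← sum_mix_eq, ← sum_mix_eq, Finset.mul_sum, Finset.mul_sum,
      ← Finset.sum_add_distrib]
    refine Finset.sum_le_sum fun ψ _ => ?_
    have e1 : (∑ x ∈ S, ψ (φ x)) ^ n = ∑ X ∈ W, ψ (Φ X) + ∑ X ∈ W', ψ (Φ X) := by
      rw [pow_charsum, hW, hW', Finset.sum_filter_add_sum_filter_not]
    have e2 : ‖∑ x ∈ S, ψ (φ x)‖ ^ (2 * k)
        = ‖∑ X ∈ W, ψ (Φ X) + ∑ X ∈ W', ψ (Φ X)‖ ^ 2 * ‖∑ x ∈ S, ψ (φ x)‖ ^ (2 * r) := by
      rw [← e1, norm_pow, ← pow_mul, ← pow_add]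
      congr 1
      rw [hk]; ring
    rw [e2]
    have e3 : ‖∑ X ∈ W, ψ (Φ X) + ∑ X ∈ W', ψ (Φ X)‖ ^ 2
        ≤ 2 * ‖∑ X ∈ W, ψ (Φ X)‖ ^ 2 + 2 * ‖∑ X ∈ W', ψ (Φ X)‖ ^ 2 := by
      have h1 := norm_add_le (∑ X ∈ W, ψ (Φ X)) (∑ X ∈ W', ψ (Φ X))
      have h2 := pow_le_pow_left₀ (norm_nonneg _) h1 2
      nlinarith [sq_nonneg (‖∑ X ∈ W, ψ (Φ X)‖ - ‖∑ X ∈ W', ψ (Φ X)‖)]
    calc _ ≤ (2 * ‖∑ X ∈ W, ψ (Φ X)‖ ^ 2 + 2 * ‖∑ X ∈ W', ψ (Φ X)‖ ^ 2)
          * ‖∑ x ∈ S, ψ (φ x)‖ ^ (2 * r) := mul_le_mul_of_nonneg_right e3 (by positivity)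
      _ = _ := by ring
  -- step 2
  set P : Finset (Fin n × Fin n) := (Finset.univ : Finset (Fin n)).offDiag with hP
  set Wp : Fin n × Fin n → Finset (Fin n → ι) :=
    fun ab => (tup n S).filter fun X => cls (X ab.1) = cls (X ab.2) with hWp
  have hPcard : (#P : ℝ) ≤ (n : ℝ) ^ 2 := by
    rw [hP, Finset.offDiag_card, Finset.card_univ, Fintype.card_fin]
    have : n * n - n ≤ n ^ 2 := by rw [sq]; omega
    exact_mod_cast this
  set lam : ℝ := 2 * (n : ℝ) ^ 2 with hlam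
  have hlpos : 1 ≤ lam := by
    rw [hlam]
    have : (2 : ℝ) ≤ n := by exact_mod_cast hn
    nlinarith
  have s3 : ∀ ab ∈ P, (g * mix (Wp ab) Φ r S φ : ℝ)
      ≤ lam ^ (k - 2) * ((#K : ℝ) ^ k * (g * Q)) + (lam ^ 2)⁻¹ * (g * en k S φ) := by
    rintro ⟨a, b⟩ hab
    rw [hP, Finset.mem_offDiag] at hab
    have hab' : a ≠ b := hab.2.2
    rw [hg, ← sum_mix_eq]
    have t1 : ∀ ψ : AddChar G ℂ, ‖∑ X ∈ Wp (a, b), ψ (Φ X)‖ ^ 2 * ‖∑ x ∈ S, ψ (φ x)‖ ^ (2 * r)
        ≤ lam ^ (k - 2) * (∑ c ∈ K, ‖fc c ψ‖ ^ 2) ^ k + (lam ^ 2)⁻¹ * ‖f ψ‖ ^ (2 * k) := by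
      intro ψ
      have e1 : ∑ X ∈ Wp (a, b), ψ (Φ X) = (∑ c ∈ K, (fc c ψ) ^ 2) * (f ψ) ^ (n - 2) := by
        rw [hWp, hf, hfc]
        exact pair_charsum n S φ cls K hcls a b hab' ψ
      rw [e1, norm_mul, mul_pow, norm_pow]
      have e2 : ‖∑ c ∈ K, (fc c ψ) ^ 2‖ ≤ ∑ c ∈ K, ‖fc c ψ‖ ^ 2 := by
        refine (norm_sum_le _ _).trans (le_of_eq ?_)
        refine Finset.sum_congr rfl fun c _ => ?_
        rw [norm_pow]
      set A := ∑ c ∈ K, ‖fc c ψ‖ ^ 2 with hA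
      have hA0 : 0 ≤ A := Finset.sum_nonneg fun c _ => by positivity
      have e3 : ‖∑ c ∈ K, (fc c ψ) ^ 2‖ ^ 2 * (‖f ψ‖ ^ (n - 2)) ^ 2 * ‖∑ x ∈ S, ψ (φ x)‖ ^ (2 * r)
          ≤ A ^ 2 * (‖f ψ‖ ^ 2) ^ (k - 2) := by
        have e4 : (‖f ψ‖ ^ (n - 2)) ^ 2 * ‖∑ x ∈ S, ψ (φ x)‖ ^ (2 * r) = (‖f ψ‖ ^ 2) ^ (k - 2) := by
          rw [hf, ← pow_mul, ← pow_mul, ← pow_add]
          congr 1
          rw [hk]; omega
        rw [mul_assoc, e4]
        exact mul_le_mul_of_nonneg_right (pow_le_pow_left₀ (norm_nonneg _) e2 2) (by positivity)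
      refine e3.trans ?_
      set B := ‖f ψ‖ ^ 2 with hB
      have hB0 : 0 ≤ B := by positivity
      have e5 : ‖f ψ‖ ^ (2 * k) = B ^ k := by rw [hB, ← pow_mul]
      rw [e5]
      exact young A B lam hA0 hB0 (by linarith) k (by omega)
    have t2 : ∑ ψ : AddChar G ℂ, (∑ c ∈ K, ‖fc c ψ‖ ^ 2) ^ k ≤ (#K : ℝ) ^ k * (g * Q) :=
      sum_class_pow_le S φ cls K k (by omega) Q hQ
    calc ∑ ψ : AddChar G ℂ, ‖∑ X ∈ Wp (a, b), ψ (Φ X)‖ ^ 2 * ‖∑ x ∈ S, ψ (φ x)‖ ^ (2 * r)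
        ≤ ∑ ψ : AddChar G ℂ, (lam ^ (k - 2) * (∑ c ∈ K, ‖fc c ψ‖ ^ 2) ^ k
            + (lam ^ 2)⁻¹ * ‖f ψ‖ ^ (2 * k)) := Finset.sum_le_sum fun ψ _ => t1 ψ
      _ = lam ^ (k - 2) * ∑ ψ : AddChar G ℂ, (∑ c ∈ K, ‖fc c ψ‖ ^ 2) ^ k
            + (lam ^ 2)⁻¹ * (g * en k S φ) := by
          rw [Finset.sum_add_distrib, ← Finset.mul_sum, ← Finset.mul_sum, hg, ← sum_pow_eq]
      _ ≤ _ := by
          gcongr
  have s2 : (mix W' Φ r S φ : ℝ) ≤ #P * ∑ ab ∈ P, (mix (Wp ab) Φ r S φ : ℝ) := by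
    have h1 : W' ×ˢ tup r S ⊆ P.biUnion fun ab => Wp ab ×ˢ tup r S := by
      rintro ⟨X, x⟩ hX
      rw [mem_product, hW', mem_filter] at hX
      obtain ⟨⟨hXt, hXn⟩, hx⟩ := hX
      push Not at hXn
      obtain ⟨a, b, hab, hc⟩ := hXn
      rw [mem_biUnion]
      refine ⟨(a, b), ?_, ?_⟩
      · rw [hP, Finset.mem_offDiag]; exact ⟨mem_univ _, mem_univ _, hab⟩
      · rw [mem_product, hWp, mem_filter]
        exact ⟨⟨hXt, hc⟩, hx⟩
    have h2 := coinc_biUnion_le P (fun ab => Wp ab ×ˢ tup r S)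
      (fun ax : (Fin n → ι) × (Fin r → ι) => Φ ax.1 + ∑ i, φ (ax.2 i))
    have h3 := (coinc_mono h1 (fun ax : (Fin n → ι) × (Fin r → ι) =>
      Φ ax.1 + ∑ i, φ (ax.2 i))).trans h2
    simp only [mix]
    exact_mod_cast h3
  have s4 : g * mix W' Φ r S φ ≤ (n : ℝ) ^ 4
      * (lam ^ (k - 2) * ((#K : ℝ) ^ k * (g * Q)) + (lam ^ 2)⁻¹ * (g * en k S φ)) := by
    set R := lam ^ (k - 2) * ((#K : ℝ) ^ k * (g * Q)) + (lam ^ 2)⁻¹ * (g * en k S φ) with hR
    have hn0 : (0 : Fin n → ℕ) = 0 := rfl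
    have hR0 : 0 ≤ R := by
      have h0 : (⟨0, by omega⟩, ⟨1, by omega⟩) ∈ P := by
        rw [hP, Finset.mem_offDiag]
        refine ⟨mem_univ _, mem_univ _, ?_⟩
        intro h
        have := Fin.mk.inj_iff.1 h
        omega
      refine le_trans ?_ (s3 _ h0)
      positivity
    calc g * mix W' Φ r S φ ≤ g * (#P * ∑ ab ∈ P, (mix (Wp ab) Φ r S φ : ℝ)) :=
          mul_le_mul_of_nonneg_left s2 hgpos.le
      _ = #P * ∑ ab ∈ P, (g * mix (Wp ab) Φ r S φ : ℝ) := by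
          rw [← Finset.mul_sum]; ring
      _ ≤ #P * ∑ ab ∈ P, R := by
          refine mul_le_mul_of_nonneg_left (Finset.sum_le_sum fun ab hab => s3 ab hab)
            (Nat.cast_nonneg _)
      _ = (#P : ℝ) ^ 2 * R := by rw [Finset.sum_const, nsmul_eq_mul]; ring
      _ ≤ ((n : ℝ) ^ 2) ^ 2 * R := by
          refine mul_le_mul_of_nonneg_right (pow_le_pow_left₀ (Nat.cast_nonneg _) hPcard 2) hR0
      _ = _ := by ring
  have s5 : (n : ℝ) ^ 4 * (lam ^ (k - 2) * ((#K : ℝ) ^ k * (g * Q)) + (lam ^ 2)⁻¹ * (g * en k S φ))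
      = (1 / 4) * (lam ^ k * ((#K : ℝ) ^ k * (g * Q))) + (1 / 4) * (g * en k S φ) := by
    have hn0 : (n : ℝ) ≠ 0 := by
      have : (2 : ℝ) ≤ n := by exact_mod_cast hn
      linarith
    have h1 : lam ^ k = lam ^ (k - 2) * lam ^ 2 := by
      rw [← pow_add]; congr 1; omega
    have h2 : (n : ℝ) ^ 4 = (1 / 4) * lam ^ 2 := by rw [hlam]; ring
    rw [h1, h2, mul_add]
    congr 1
    · ring
    · field_simp
  rw [s5] at s4
  have s6 : g * en k S φ ≤ g * (4 * mix W Φ r S φ + lam ^ k * (#K : ℝ) ^ k * Q) := by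
    nlinarith
  exact le_of_mul_le_mul_left s6 hgpos

end finiteG

/-- Residual finiteness, in the form we use. -/
def RF (G : Type*) [AddCommGroup G] : Prop :=
  ∀ V : Finset G, ∃ (H : Type) (_ : AddCommGroup H) (_ : Fintype H) (π : G →+ H),
    Set.InjOn π (V : Set G)

theorem rf_pi_int (n : ℕ) : RF (Fin n → ℤ) := by
  classical
  intro V
  set R : ℕ := 1 + ∑ v ∈ V, ∑ w ∈ V, ∑ i, (v i - w i).natAbs with hR
  have : NeZero R := ⟨by omega⟩
  refine ⟨Fin n → ZMod R, inferInstance, inferInstance,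
    { toFun := fun v i => (v i : ZMod R)
      map_zero' := by funext i; simp
      map_add' := by intro v w; funext i; simp }, ?_⟩
  intro v hv w hw hvw
  simp only [AddMonoidHom.coe_mk, ZeroHom.coe_mk] at hvw
  funext i
  have h1 : ((v i : ℤ) : ZMod R) = ((w i : ℤ) : ZMod R) := congrFun hvw i
  rw [← sub_eq_zero, ← Int.cast_sub, ZMod.intCast_zmod_eq_zero_iff_dvd] at h1
  have h2 : (v i - w i).natAbs < R := by
    have e1 : (v i - w i).natAbs ≤ ∑ i, (v i - w i).natAbs :=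
      Finset.single_le_sum (f := fun i => (v i - w i).natAbs) (fun _ _ => Nat.zero_le _)
        (Finset.mem_univ i)
    have e2 : ∑ i, (v i - w i).natAbs ≤ ∑ w ∈ V, ∑ i, (v i - w i).natAbs :=
      Finset.single_le_sum (f := fun w : Fin n → ℤ => ∑ i, (v i - w i).natAbs)
        (fun _ _ => Nat.zero_le _) hw
    have e3 : ∑ w ∈ V, ∑ i, (v i - w i).natAbs ≤ ∑ v ∈ V, ∑ w ∈ V, ∑ i, (v i - w i).natAbs :=
      Finset.single_le_sum (f := fun v : Fin n → ℤ => ∑ w ∈ V, ∑ i, (v i - w i).natAbs)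
        (fun _ _ => Nat.zero_le _) hv
    omega
  by_contra hne
  have h3 : v i - w i ≠ 0 := sub_ne_zero.2 hne
  have h4 := Int.le_natAbs (a := (R : ℤ))
  have h5 : R ≤ (v i - w i).natAbs := by
    have := Int.natAbs_dvd_natAbs.2 h1
    simp only [Int.natAbs_natCast] at this
    exact Nat.le_of_dvd (Int.natAbs_pos.2 h3) this
  omega

theorem coinc_comp {α G H : Type*} (A : Finset α) (Φ : α → G) (π : G → H)
    (h : ∀ a ∈ A, ∀ b ∈ A, π (Φ a) = π (Φ b) → Φ a = Φ b) :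
    coinc A (fun a => π (Φ a)) = coinc A Φ := by
  classical
  unfold coinc
  congr 1
  apply Finset.filter_congr
  rintro ⟨a, b⟩ hab
  rw [mem_product] at hab
  exact ⟨fun h' => h a hab.1 b hab.2 h', fun h' => congrArg π h'⟩

theorem coinc_congr {α G : Type*} (A : Finset α) (Φ Φ' : α → G) (h : ∀ a ∈ A, Φ a = Φ' a) :
    coinc A Φ = coinc A Φ' := by
  classical
  unfold coinc
  congr 1
  apply Finset.filter_congr
  rintro ⟨a, b⟩ hab
  rw [mem_product] at hab
  rw [h a hab.1, h b hab.2]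

section RF

variable {α ι G : Type*} [AddCommGroup G]

/-- Hölder's inequality over a partition into `#K` classes. -/
theorem mix_le_of_classes (hG : RF G) {κ : Type*} [DecidableEq κ] (A : Finset α) (Φ : α → G)
    (r : ℕ) (S : Finset ι) (φ : ι → G) (cls : ι → κ) (K : Finset κ) (hK : K.Nonempty)
    (hcls : ∀ x ∈ S, cls x ∈ K) (Q : ℝ)
    (hQ : ∀ b ∈ K, (mix A Φ r (S.filter fun x => cls x = b) φ : ℝ) ≤ Q) :
    (mix A Φ r S φ : ℝ) ≤ (#K : ℝ) ^ (2 * r) * Q := by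
  classical
  set Ψ : α × (Fin r → ι) → G := fun ax => Φ ax.1 + ∑ i, φ (ax.2 i) with hΨ
  obtain ⟨H, _, _, π, hπ⟩ := hG ((A ×ˢ tup r S).image Ψ)
  have hsub : ∀ T : Finset ι, T ⊆ S → mix A (fun a => π (Φ a)) r T (fun x => π (φ x))
      = mix A Φ r T φ := by
    intro T hT
    have h1 : A ×ˢ tup r T ⊆ A ×ˢ tup r S := by
      intro ax hax
      rw [mem_product] at hax ⊢
      exact ⟨hax.1, mem_tup.2 fun i => hT (mem_tup.1 hax.2 i)⟩
    unfold mix
    rw [← coinc_comp (A ×ˢ tup r T) Ψ π]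
    · apply coinc_congr
      intro ax _
      simp only [hΨ, map_add, map_sum]
    · intro a ha b hb hab
      exact hπ (by simpa using ⟨a.1, a.2, by simpa using h1 ha, rfl⟩)
        (by simpa using ⟨b.1, b.2, by simpa using h1 hb, rfl⟩) hab
  rw [← hsub S (Finset.Subset.refl _)]
  refine mix_le_of_classes_fin A _ r S _ cls K hK hcls Q fun b hb => ?_
  rw [hsub _ (Finset.filter_subset _ _)]
  exact hQ b hb

/-- Splitting off the well conditioned solutions. -/
theorem cond_split (hG : RF G) {κ : Type*} [DecidableEq κ] (n r : ℕ) (hn : 2 ≤ n) (S : Finset ι)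
    (φ : ι → G) (cls : ι → κ) (K : Finset κ) (hcls : ∀ x ∈ S, cls x ∈ K) (Q : ℝ)
    (hQ : ∀ b ∈ K, (en (n + r) (S.filter fun x => cls x = b) φ : ℝ) ≤ Q) :
    (en (n + r) S φ : ℝ) ≤ 4 * mix ((tup n S).filter fun X => ∀ a b, a ≠ b → cls (X a) ≠ cls (X b))
        (fun X => ∑ i, φ (X i)) r S φ + (2 * (n : ℝ) ^ 2) ^ (n + r) * (#K : ℝ) ^ (n + r) * Q := by
  classical
  set W := (tup n S).filter fun X => ∀ a b, a ≠ b → cls (X a) ≠ cls (X b) with hW
  set Ψ : (Fin n → ι) × (Fin r → ι) → G := fun ax => ∑ i, φ (ax.1 i) + ∑ i, φ (ax.2 i) with hΨ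
  set Ψ' : (Fin (n + r) → ι) → G := fun x => ∑ i, φ (x i) with hΨ'
  obtain ⟨H, _, _, π, hπ⟩ := hG ((W ×ˢ tup r S).image Ψ ∪ (tup (n + r) S).image Ψ')
  have hsub : ∀ T : Finset ι, T ⊆ S → en (n + r) T (fun x => π (φ x)) = en (n + r) T φ := by
    intro T hT
    have h1 : tup (n + r) T ⊆ tup (n + r) S := by
      intro x hx
      exact mem_tup.2 fun i => hT (mem_tup.1 hx i)
    unfold en
    rw [← coinc_comp (tup (n + r) T) Ψ' π]
    · apply coinc_congr
      intro x _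
      simp only [hΨ', map_sum]
    · intro a ha b hb hab
      refine hπ ?_ ?_ hab
      · rw [mem_coe, mem_union]
        exact Or.inr (Finset.mem_image_of_mem _ (h1 ha))
      · rw [mem_coe, mem_union]
        exact Or.inr (Finset.mem_image_of_mem _ (h1 hb))
  have hmix : mix W (fun X => ∑ i, π (φ (X i))) r S (fun x => π (φ x))
      = mix W (fun X => ∑ i, φ (X i)) r S φ := by
    unfold mix
    rw [← coinc_comp (W ×ˢ tup r S) Ψ π]
    · apply coinc_congr
      intro x _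
      simp only [hΨ, map_sum, map_add]
    · intro a ha b hb hab
      refine hπ ?_ ?_ hab
      · rw [mem_coe, mem_union]
        exact Or.inl (Finset.mem_image_of_mem _ ha)
      · rw [mem_coe, mem_union]
        exact Or.inl (Finset.mem_image_of_mem _ hb)
  have := cond_split_fin n r hn S (fun x => π (φ x)) cls K hcls Q (fun b hb => by
    rw [hsub _ (Finset.filter_subset _ _)]
    exact hQ b hb)
  rw [hsub S (Finset.Subset.refl _)] at this
  rw [← hW, hmix] at this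
  exact this

end RF

end Pool.Agent.H.MP_96e181_an.helper85
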