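import Mathlib

set_option autoImplicit false

/-!
# Linnik's lemma: integers with congruent power sums
-/

namespace Pool.Agent.H.MP_96e181_an.helper85

open Finset

/-- Elementary symmetric functions of a tuple of integers. -/
noncomputable def es (n : ℕ) (j : ℕ) (x : Fin n → ℤ) : ℤ :=
  MvPolynomial.aeval x (MvPolynomial.esymm (Fin n) ℤ j)

theorem prod_add_eq (n : ℕ) (x : Fin n → ℤ) (T : ℤ) :
    ∏ i, (T + x i) = ∑ j ∈ range (n + 1), es n j x * T ^ (n - j) := by
  have h := Multiset.prod_X_add_C_eq_sum_esymm ((Finset.univ : Finset (Fin n)).val.map x)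
  have h2 := congrArg (Polynomial.eval T) h
  simp only [Multiset.map_map, Function.comp_def, Multiset.card_map, Finset.card_val,
    Finset.card_univ, Fintype.card_fin] at h2
  rw [Polynomial.eval_finsetSum] at h2
  simp only [Polynomial.eval_mul, Polynomial.eval_C, Polynomial.eval_pow, Polynomial.eval_X] at h2
  have h3 : Polynomial.eval T (Multiset.map (fun i => Polynomial.X + Polynomial.C (x i))
      (Finset.univ : Finset (Fin n)).val).prod = ∏ i, (T + x i) := by
    change Polynomial.eval T (∏ i, (Polynomial.X + Polynomial.C (x i))) = _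
    rw [Polynomial.eval_prod]
    simp
  rw [h3] at h2
  rw [h2]
  refine Finset.sum_congr rfl fun j _ => ?_
  rw [es, MvPolynomial.aeval_esymm_eq_multiset_esymm]

theorem newton (n : ℕ) (x : Fin n → ℤ) (k : ℕ) :
    (k : ℤ) * es n k x = (-1) ^ (k + 1) * ∑ a ∈ (antidiagonal k).filter (fun a => a.1 < k),
      (-1) ^ a.1 * es n a.1 x * ∑ i, x i ^ a.2 := by
  have h := congrArg (MvPolynomial.aeval x) (MvPolynomial.mul_esymm_eq_sum (Fin n) ℤ k)
  simpa [es, MvPolynomial.psum] using h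

theorem newton_cong (n : ℕ) (x y : Fin n → ℤ) (N : ℤ)
    (h : ∀ i, 1 ≤ i → i ≤ n → N ∣ ∑ a, x a ^ i - ∑ a, y a ^ i) (k : ℕ) (hk : k ≤ n) :
    N ∣ (k.factorial : ℤ) * (es n k x - es n k y) := by
  induction k using Nat.strong_induction_on with
  | _ k ih =>
    rcases Nat.eq_zero_or_pos k with rfl | hkpos
    · simp [es]
    · obtain ⟨m, rfl⟩ : ∃ m, k = m + 1 := ⟨k - 1, by omega⟩
      have e1 := newton n x (m + 1)
      have e2 := newton n y (m + 1)
      have e3 : ((m + 1).factorial : ℤ) * (es n (m + 1) x - es n (m + 1) y)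
          = (-1) ^ (m + 1 + 1) * ∑ a ∈ (antidiagonal (m + 1)).filter (fun a => a.1 < m + 1),
            (-1) ^ a.1 * ((m.factorial : ℤ) * (es n a.1 x * ∑ i, x i ^ a.2
              - es n a.1 y * ∑ i, y i ^ a.2)) := by
        have : ((m + 1).factorial : ℤ) * (es n (m + 1) x - es n (m + 1) y)
            = (m.factorial : ℤ) * (((m + 1 : ℕ) : ℤ) * es n (m + 1) x
              - ((m + 1 : ℕ) : ℤ) * es n (m + 1) y) := by
          rw [Nat.factorial_succ]; push_cast; ring
        rw [this, e1, e2, ← mul_sub, ← Finset.sum_sub_distrib, mul_left_comm, Finset.mul_sum]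
        congr 1
        refine Finset.sum_congr rfl fun a _ => ?_
        ring
      rw [e3]
      apply Dvd.dvd.mul_left
      apply Finset.dvd_sum
      intro a ha
      rw [mem_filter, HasAntidiagonal.mem_antidiagonal] at ha
      apply Dvd.dvd.mul_left
      have e4 : (m.factorial : ℤ) * (es n a.1 x * ∑ i, x i ^ a.2 - es n a.1 y * ∑ i, y i ^ a.2)
          = ((m.factorial : ℤ) * (es n a.1 x - es n a.1 y)) * ∑ i, x i ^ a.2
            + (m.factorial : ℤ) * es n a.1 y * (∑ i, x i ^ a.2 - ∑ i, y i ^ a.2) := by ring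
      rw [e4]
      apply dvd_add
      · apply Dvd.dvd.mul_right
        have h1 := ih a.1 ha.2 (by omega)
        obtain ⟨c, hc⟩ := Nat.factorial_dvd_factorial (show a.1 ≤ m by omega)
        rw [hc]; push_cast
        rw [mul_comm (a.1.factorial : ℤ) (c : ℤ), mul_assoc]
        exact Dvd.dvd.mul_left h1 _
      · apply Dvd.dvd.mul_left
        exact h a.2 (by omega) (by omega)

/-- If the power sums of `x` and `y` are congruent modulo `N`, then `N` divides
`n! ∏ (x_b - y_a)`. -/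
theorem dvd_prod_sub (n : ℕ) (x y : Fin n → ℤ) (N : ℤ)
    (h : ∀ i, 1 ≤ i → i ≤ n → N ∣ ∑ a, x a ^ i - ∑ a, y a ^ i) (a : Fin n) :
    N ∣ (n.factorial : ℤ) * ∏ b, (x b - y a) := by
  have h1 := prod_add_eq n x (-(y a))
  have h2 := prod_add_eq n y (-(y a))
  have h3 : ∏ b, (-(y a) + y b) = 0 := by
    apply Finset.prod_eq_zero (Finset.mem_univ a); ring
  have h4 : ∏ b, (x b - y a) = ∑ j ∈ range (n + 1), (es n j x - es n j y) * (-(y a)) ^ (n - j) := by
    have : ∏ b, (x b - y a) = ∏ b, (-(y a) + x b) := by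
      refine Finset.prod_congr rfl fun b _ => ?_
      ring
    rw [this, h1]
    have h5 : ∑ j ∈ range (n + 1), (es n j x - es n j y) * (-(y a)) ^ (n - j)
        = ∑ j ∈ range (n + 1), es n j x * (-(y a)) ^ (n - j)
          - ∑ j ∈ range (n + 1), es n j y * (-(y a)) ^ (n - j) := by
      rw [← Finset.sum_sub_distrib]
      refine Finset.sum_congr rfl fun j _ => ?_
      ring
    rw [h5, ← h2, h3, sub_zero]
  rw [h4, Finset.mul_sum]
  apply Finset.dvd_sum
  intro j hj
  rw [mem_range] at hj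
  rw [← mul_assoc]
  apply Dvd.dvd.mul_right
  obtain ⟨c, hc⟩ := Nat.factorial_dvd_factorial (show j ≤ n by omega)
  rw [hc]; push_cast
  rw [mul_comm (j.factorial : ℤ) (c : ℤ), mul_assoc]
  exact Dvd.dvd.mul_left (newton_cong n x y N h j (by omega)) _

/-- If `x` is `ℓ^d`-separated and the power sums of `x` and `y` are congruent modulo a high power
of `ℓ`, then every `y_a` is one of the `x_b`. -/
theorem mem_of_cong (n : ℕ) {ℓ : ℕ} (hℓ : ℓ.Prime) (d s A : ℕ)
    (hA : s + (n * d + n) ≤ A) (x y : Fin n → ℤ)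
    (hsep : ∀ b b', b ≠ b' → ¬ ((ℓ : ℤ) ^ d ∣ x b - x b'))
    (hsmall : ∀ a b, (x b - y a).natAbs < ℓ ^ s)
    (h : ∀ i, 1 ≤ i → i ≤ n → (ℓ : ℤ) ^ A ∣ ∑ a, x a ^ i - ∑ a, y a ^ i) (a : Fin n) :
    ∃ b, y a = x b := by
  classical
  by_contra hcon
  push Not at hcon
  have hne : ∀ b, (x b - y a).natAbs ≠ 0 := by
    intro b hb
    rw [Int.natAbs_eq_zero, sub_eq_zero] at hb
    exact hcon b hb.symm
  have h1 := dvd_prod_sub n x y ((ℓ : ℤ) ^ A) h a
  have h2 : ℓ ^ A ∣ n.factorial * ∏ b, (x b - y a).natAbs := by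
    have := Int.natAbs_dvd_natAbs.2 h1
    rw [Int.natAbs_mul, Int.natAbs_pow, Int.natAbs_natCast, Int.natAbs_natCast] at this
    have e : (∏ b, (x b - y a)).natAbs = ∏ b, (x b - y a).natAbs :=
      map_prod Int.natAbsHom _ _
    rwa [e] at this
  have hprod : ∏ b, (x b - y a).natAbs ≠ 0 := Finset.prod_ne_zero_iff.2 fun b _ => hne b
  have h3 := (hℓ.pow_dvd_iff_le_factorization (mul_ne_zero n.factorial_ne_zero hprod)).1 h2
  rw [Nat.factorization_mul n.factorial_ne_zero hprod, Nat.factorization_prod (fun b _ => hne b)] at h3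
  simp only [Finsupp.coe_add, Pi.add_apply, Finsupp.coe_finsetSum, Finset.sum_apply] at h3
  have h4 : n.factorial.factorization ℓ ≤ n := by
    have := Nat.factorization_factorial_le_div_pred hℓ n
    refine this.trans (Nat.div_le_self _ _)
  have h5 : ∀ b, (x b - y a).natAbs.factorization ℓ < s := by
    intro b
    have e1 : ℓ ^ ((x b - y a).natAbs.factorization ℓ) ≤ (x b - y a).natAbs :=
      Nat.ordProj_le ℓ (hne b)
    have e2 := lt_of_le_of_lt e1 (hsmall a b)
    exact (Nat.pow_lt_pow_iff_right hℓ.one_lt).1 e2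
  -- all but one factor have small valuation
  have h6 : ∑ b, (x b - y a).natAbs.factorization ℓ < s + n * d := by
    by_cases hex : ∃ b0, (ℓ : ℤ) ^ d ∣ x b0 - y a
    · obtain ⟨b0, hb0⟩ := hex
      rw [← Finset.add_sum_erase _ _ (Finset.mem_univ b0)]
      have e1 : ∑ b ∈ Finset.univ.erase b0, (x b - y a).natAbs.factorization ℓ
          ≤ ∑ b ∈ Finset.univ.erase b0, d := by
        refine Finset.sum_le_sum fun b hb => ?_
        rw [Finset.mem_erase] at hb
        by_contra hlt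
        push Not at hlt
        have e2 : ℓ ^ d ∣ (x b - y a).natAbs :=
          (hℓ.pow_dvd_iff_le_factorization (hne b)).2 hlt.le
        have e3 : (ℓ : ℤ) ^ d ∣ x b - y a := by
          have := Int.natCast_dvd_natCast.2 e2
          rw [Int.natCast_natAbs, dvd_abs] at this
          exact_mod_cast this
        have e4 : (ℓ : ℤ) ^ d ∣ x b - x b0 := by
          have := dvd_sub e3 hb0
          simpa using this
        exact hsep b b0 hb.1 e4
      rw [Finset.sum_const, smul_eq_mul, Finset.card_erase_of_mem (Finset.mem_univ b0),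
        Finset.card_univ, Fintype.card_fin] at e1
      have e5 : (n - 1) * d ≤ n * d := Nat.mul_le_mul_right _ (by omega)
      have e6 := h5 b0
      omega
    · push Not at hex
      have e1 : ∑ b, (x b - y a).natAbs.factorization ℓ ≤ ∑ _b : Fin n, d := by
        refine Finset.sum_le_sum fun b _ => ?_
        by_contra hlt
        push Not at hlt
        have e2 : ℓ ^ d ∣ (x b - y a).natAbs :=
          (hℓ.pow_dvd_iff_le_factorization (hne b)).2 hlt.le
        have e3 : (ℓ : ℤ) ^ d ∣ x b - y a := by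
          have := Int.natCast_dvd_natCast.2 e2
          rw [Int.natCast_natAbs, dvd_abs] at this
          exact_mod_cast this
        exact hex b e3
      rw [Finset.sum_const, smul_eq_mul, Finset.card_univ, Fintype.card_fin] at e1
      have e6 := h5 a
      omega
  omega

/-- The power sums map. -/
def pw (n : ℕ) (z : ℤ) : Fin n → ℤ := fun i => z ^ ((i : ℕ) + 1)

/-- Tuples of natural numbers below `ℓ^s` with pairwise different residues modulo `ℓ^d`. -/
def wc (n ℓ d s : ℕ) : Finset (Fin n → ℕ) :=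
  (Fintype.piFinset fun _ : Fin n => range (ℓ ^ s)).filter
    fun X => ∀ a b, a ≠ b → X a % ℓ ^ d ≠ X b % ℓ ^ d

theorem sum_range_rev (n : ℕ) : ∑ i : Fin n, (n - 1 - (i : ℕ)) = n * (n - 1) / 2 := by
  rw [Fin.sum_univ_eq_sum_range (fun i => n - 1 - i) n, Finset.sum_range_reflect (fun i => i) n,
    Finset.sum_range_id]

/-- **Linnik's lemma**: the number of well conditioned tuples with prescribed power sums
modulo `ℓ^u, ℓ^{2u}, …`. -/
theorem linnik (n : ℕ) {ℓ : ℕ} (hℓ : ℓ.Prime) (d s u : ℕ)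
    (hu : s + (n * d + n) ≤ u * n) (b0 : ℤ) (y : Fin n → ℤ) :
    #((wc n ℓ d s).filter fun x => ∀ i : Fin n, (ℓ : ℤ) ^ (u * ((i : ℕ) + 1)) ∣
        ∑ a, ((x a : ℤ) - b0) ^ ((i : ℕ) + 1) - ∑ a, (y a - b0) ^ ((i : ℕ) + 1))
      ≤ n ^ n * ℓ ^ (u * (n * (n - 1) / 2)) := by
  classical
  set T := (wc n ℓ d s).filter fun x => ∀ i : Fin n, (ℓ : ℤ) ^ (u * ((i : ℕ) + 1)) ∣
        ∑ a, ((x a : ℤ) - b0) ^ ((i : ℕ) + 1) - ∑ a, (y a - b0) ^ ((i : ℕ) + 1) with hT
  set H : (Fin n → ℕ) → Fin n → ℤ := fun x i => ∑ a, ((x a : ℤ) - b0) ^ ((i : ℕ) + 1) with hH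
  set h0 : Fin n → ℤ := fun i => ∑ a, (y a - b0) ^ ((i : ℕ) + 1) with hh0
  have hℓpos : (0 : ℤ) < ℓ := by exact_mod_cast hℓ.pos
  set c : (Fin n → ℕ) → Fin n → ℕ := fun x i =>
    (((H x i - h0 i) / (ℓ : ℤ) ^ (u * ((i : ℕ) + 1))) % (ℓ : ℤ) ^ (u * (n - 1 - i))).toNat with hc
  have himg : T.image c ⊆ Fintype.piFinset fun i : Fin n => range (ℓ ^ (u * (n - 1 - i))) := by
    intro v hv
    rw [mem_image] at hv
    obtain ⟨x, _, rfl⟩ := hv
    rw [Fintype.mem_piFinset]
    intro i
    rw [mem_range, hc]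
    have hpos : (0 : ℤ) < (ℓ : ℤ) ^ (u * (n - 1 - i)) := by positivity
    have := Int.emod_lt_of_pos ((H x i - h0 i) / (ℓ : ℤ) ^ (u * ((i : ℕ) + 1))) hpos
    have h2 := Int.emod_nonneg ((H x i - h0 i) / (ℓ : ℤ) ^ (u * ((i : ℕ) + 1))) hpos.ne'
    zify
    rw [Int.toNat_of_nonneg h2]
    exact this
  have hcard : #(T.image c) ≤ ℓ ^ (u * (n * (n - 1) / 2)) := by
    refine (Finset.card_le_card himg).trans (le_of_eq ?_)
    rw [Fintype.card_piFinset]
    simp only [card_range]
    rw [Finset.prod_pow_eq_pow_sum, ← Finset.mul_sum, sum_range_rev]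
  have hfib : ∀ v ∈ T.image c, #(T.filter fun x => c x = v) ≤ n ^ n := by
    intro v hv
    rw [mem_image] at hv
    obtain ⟨x0, hx0, rfl⟩ := hv
    have hsub : (T.filter fun x => c x = c x0) ⊆ Fintype.piFinset fun _ : Fin n =>
        (Finset.univ : Finset (Fin n)).image x0 := by
      intro x hx
      rw [mem_filter] at hx
      obtain ⟨hxT, hxc⟩ := hx
      rw [Fintype.mem_piFinset]
      intro a
      rw [hT, mem_filter, wc, mem_filter, Fintype.mem_piFinset] at hxT hx0
      have hcong : ∀ i, 1 ≤ i → i ≤ n → (ℓ : ℤ) ^ (u * n) ∣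
          ∑ a, ((x0 a : ℤ) - b0) ^ i - ∑ a, ((x a : ℤ) - b0) ^ i := by
        intro i hi1 hin
        obtain ⟨j, rfl⟩ : ∃ j, i = j + 1 := ⟨i - 1, by omega⟩
        have hj : j < n := by omega
        have e1 := congrFun hxc ⟨j, hj⟩
        rw [hc] at e1
        simp only at e1
        have e2 := hxT.2 ⟨j, hj⟩
        have e3 := hx0.2 ⟨j, hj⟩
        simp only at e2 e3
        obtain ⟨t, ht⟩ := e2
        obtain ⟨t0, ht0⟩ := e3
        have hp1 : (0 : ℤ) < (ℓ : ℤ) ^ (u * (j + 1)) := by positivity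
        have hp2 : (0 : ℤ) < (ℓ : ℤ) ^ (u * (n - 1 - j)) := by positivity
        have f1 : H x ⟨j, hj⟩ - h0 ⟨j, hj⟩ = (ℓ : ℤ) ^ (u * (j + 1)) * t := ht
        have f2 : H x0 ⟨j, hj⟩ - h0 ⟨j, hj⟩ = (ℓ : ℤ) ^ (u * (j + 1)) * t0 := ht0
        rw [f1, f2, Int.mul_ediv_cancel_left _ hp1.ne', Int.mul_ediv_cancel_left _ hp1.ne'] at e1
        have e4 : t % (ℓ : ℤ) ^ (u * (n - 1 - j)) = t0 % (ℓ : ℤ) ^ (u * (n - 1 - j)) := by
          have g1 := Int.emod_nonneg t hp2.ne'
          have g2 := Int.emod_nonneg t0 hp2.ne'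
          have := congrArg (fun m : ℕ => (m : ℤ)) e1
          simp only [Int.toNat_of_nonneg g1, Int.toNat_of_nonneg g2] at this
          exact this
        have e5 : (ℓ : ℤ) ^ (u * (n - 1 - j)) ∣ t0 - t := by
          exact Int.ModEq.dvd (show t ≡ t0 [ZMOD (ℓ : ℤ) ^ (u * (n - 1 - j))] from e4)
        obtain ⟨w, hw⟩ := e5
        refine ⟨w, ?_⟩
        have f3 : ∑ a, ((x0 a : ℤ) - b0) ^ (j + 1) - ∑ a, ((x a : ℤ) - b0) ^ (j + 1)
            = (H x0 ⟨j, hj⟩ - h0 ⟨j, hj⟩) - (H x ⟨j, hj⟩ - h0 ⟨j, hj⟩) := by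
          rw [hH]; ring
        rw [f3, f1, f2, ← mul_sub, hw, ← mul_assoc, ← pow_add]
        congr 2
        rw [← mul_add]
        congr 1
        omega
      obtain ⟨b, hb⟩ := mem_of_cong n hℓ d s (u * n) hu (fun a => (x0 a : ℤ) - b0)
        (fun a => (x a : ℤ) - b0) (by
          intro b b' hbb' hdvd
          have g1 : (ℓ : ℤ) ^ d ∣ (x0 b : ℤ) - x0 b' := by
            have : ((x0 b : ℤ) - b0) - ((x0 b' : ℤ) - b0) = (x0 b : ℤ) - x0 b' := by ring
            rwa [this] at hdvd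
          have g2 : (x0 b' : ℤ) ≡ x0 b [ZMOD ((ℓ ^ d : ℕ) : ℤ)] := by
            rw [Int.modEq_iff_dvd]
            push_cast
            exact g1
          have g3 := (Int.natCast_modEq_iff.1 g2)
          exact hx0.1.2 b b' hbb' g3.symm) (by
          intro a b
          have g1 := mem_range.1 (hx0.1.1 b)
          have g2 := mem_range.1 (hxT.1.1 a)
          have : ((x0 b : ℤ) - b0) - ((x a : ℤ) - b0) = (x0 b : ℤ) - x a := by ring
          rw [this]
          omega) hcong a
      rw [mem_image]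
      refine ⟨b, mem_univ _, ?_⟩
      have : (x a : ℤ) = x0 b := by linarith
      exact_mod_cast this.symm
    refine (Finset.card_le_card hsub).trans ?_
    rw [Fintype.card_piFinset]
    simp only [Finset.prod_const, Finset.card_univ, Fintype.card_fin]
    exact Nat.pow_le_pow_left (Finset.card_image_le.trans (by simp)) n
  calc #T ≤ n ^ n * #(T.image c) := Finset.card_le_mul_card_image T (n ^ n) hfib
    _ ≤ n ^ n * ℓ ^ (u * (n * (n - 1) / 2)) := Nat.mul_le_mul_left _ hcard

end Pool.Agent.H.MP_96e181_an.helper85
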