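import Mathlib
import Pool.Agent.H.MP_96e181_an.helper85.Energy
import Pool.Agent.H.MP_96e181_an.helper85.Linnik

set_option autoImplicit false

/-!
# The recursion for Vinogradov's mean value
-/

namespace Pool.Agent.H.MP_96e181_an.helper85

open Finset

/-- Vinogradov's mean value: the number of solutions of
`x₁^i + ⋯ + x_k^i = y₁^i + ⋯ + y_k^i` (`1 ≤ i ≤ n`) in integers of `[0, X)`. -/
noncomputable def J (n k X : ℕ) : ℕ := en k (range X) (fun z : ℕ => pw n (z : ℤ))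

theorem coinc_le_of_map {α β G H : Type*} {A : Finset α} {B : Finset β} {Φ : α → G} {Ψ : β → H}
    (f : α → β) (hf : Set.InjOn f A) (hAB : ∀ a ∈ A, f a ∈ B)
    (h : ∀ a ∈ A, ∀ b ∈ A, Φ a = Φ b → Ψ (f a) = Ψ (f b)) : coinc A Φ ≤ coinc B Ψ := by
  classical
  unfold coinc
  apply Finset.card_le_card_of_injOn (fun ab => (f ab.1, f ab.2))
  · rintro ⟨a, b⟩ hab
    simp only [coe_filter, mem_product, Set.mem_ofPred_eq] at hab ⊢
    exact ⟨⟨hAB _ hab.1.1, hAB _ hab.1.2⟩, h _ hab.1.1 _ hab.1.2 hab.2⟩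
  · rintro ⟨a, b⟩ hab ⟨a', b'⟩ hab' heq
    simp only [coe_filter, mem_product, Set.mem_ofPred_eq] at hab hab'
    simp only [Prod.mk.injEq] at heq
    rw [Prod.mk.injEq]
    exact ⟨hf hab.1.1 hab'.1.1 heq.1, hf hab.1.2 hab'.1.2 heq.2⟩

/-- Moments determine the shifted moments. -/
theorem shift_moments {I I' : Type*} [Fintype I] [Fintype I'] (x : I → ℤ) (y : I' → ℤ) (b : ℤ)
    (n : ℕ) (h : ∀ j ≤ n, ∑ i, x i ^ j = ∑ i, y i ^ j) (j : ℕ) (hj : j ≤ n) :
    ∑ i, (x i - b) ^ j = ∑ i, (y i - b) ^ j := by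
  have k1 : ∑ i, (x i - b) ^ j
      = ∑ m ∈ range (j + 1), (∑ i, x i ^ m) * ((-b) ^ (j - m) * (j.choose m : ℤ)) := by
    simp_rw [sub_eq_add_neg, add_pow, Finset.sum_mul]
    rw [Finset.sum_comm]
    refine Finset.sum_congr rfl fun m _ => Finset.sum_congr rfl fun i _ => ?_
    ring
  have k2 : ∑ i, (y i - b) ^ j
      = ∑ m ∈ range (j + 1), (∑ i, y i ^ m) * ((-b) ^ (j - m) * (j.choose m : ℤ)) := by
    simp_rw [sub_eq_add_neg, add_pow, Finset.sum_mul]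
    rw [Finset.sum_comm]
    refine Finset.sum_congr rfl fun m _ => Finset.sum_congr rfl fun i _ => ?_
    ring
  rw [k1, k2]
  refine Finset.sum_congr rfl fun m hm => ?_
  rw [mem_range] at hm
  rw [h m (by omega)]

theorem pw_sum_apply {N n : ℕ} (x : Fin N → ℤ) (j : ℕ) (hj : j < n) :
    (∑ i, pw n (x i)) ⟨j, hj⟩ = ∑ i, x i ^ (j + 1) := by
  rw [Finset.sum_apply]
  rfl

theorem moments_of_pw {N N' n : ℕ} (x : Fin N → ℤ) (y : Fin N' → ℤ) (hN : N = N')
    (h : ∑ i, pw n (x i) = ∑ i, pw n (y i)) : ∀ j ≤ n, ∑ i, x i ^ j = ∑ i, y i ^ j := by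
  intro j hj
  rcases Nat.eq_zero_or_pos j with rfl | hpos
  · simp [hN]
  · obtain ⟨m, rfl⟩ : ∃ m, j = m + 1 := ⟨j - 1, by omega⟩
    have := congrFun h ⟨m, by omega⟩
    rwa [pw_sum_apply, pw_sum_apply] at this

/-- A residue class contributes a mean value over a shorter interval. -/
theorem en_class_le (n k m X : ℕ) (hm : 0 < m) (b : ℕ) :
    en k ((range (m * X)).filter fun z => z % m = b) (fun z : ℕ => pw n (z : ℤ)) ≤ J n k X := by
  classical
  unfold en J en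
  apply coinc_le_of_map (fun x i => x i / m)
  · intro x hx y hy hxy
    funext i
    have h1 := (mem_filter.1 (mem_tup.1 (by simpa using hx) i)).2
    have h2 := (mem_filter.1 (mem_tup.1 (by simpa using hy) i)).2
    have h3 := congrFun hxy i
    simp only at h3
    rw [← Nat.div_add_mod (x i) m, ← Nat.div_add_mod (y i) m, h1, h2, h3]
  · intro x hx
    rw [mem_tup]
    intro i
    have h1 := (mem_filter.1 (mem_tup.1 hx i)).1
    rw [mem_range] at h1 ⊢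
    exact Nat.div_lt_of_lt_mul h1
  · intro x hx y hy hxy
    have h1 := moments_of_pw (fun i => (x i : ℤ)) (fun i => (y i : ℤ)) rfl hxy
    have h2 := shift_moments _ _ (b : ℤ) n h1
    have hcast : ∀ z : Fin k → ℕ, z ∈ tup k ((range (m * X)).filter fun z => z % m = b) →
        ∀ i, ((z i : ℤ) - b) = m * ((z i / m : ℕ) : ℤ) := by
      intro z hz i
      have h3 := (mem_filter.1 (mem_tup.1 hz i)).2
      have h4 := Nat.div_add_mod (z i) m
      rw [h3] at h4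
      have : (z i : ℤ) = m * ((z i / m : ℕ) : ℤ) + b := by exact_mod_cast h4.symm
      linarith
    funext j
    obtain ⟨j, hj⟩ := j
    rw [pw_sum_apply (fun i => ((x i / m : ℕ) : ℤ)), pw_sum_apply (fun i => ((y i / m : ℕ) : ℤ))]
    have h3 := h2 (j + 1) (by omega)
    simp only [hcast x hx, hcast y hy, mul_pow] at h3
    rw [← Finset.mul_sum, ← Finset.mul_sum] at h3
    exact mul_left_cancel₀ (by positivity) h3

/-- The mixed count over a residue class modulo `ℓ^u`. -/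
theorem mix_class_le (n r : ℕ) {ℓ : ℕ} (hℓ : ℓ.Prime) (d s u : ℕ) (hus : u ≤ s)
    (hu : s + (n * d + n) ≤ u * n) (b : ℕ) :
    mix (wc n ℓ d s) (fun X => ∑ i, pw n ((X i : ℕ) : ℤ)) r
        ((range (ℓ ^ s)).filter fun z => z % ℓ ^ u = b) (fun z : ℕ => pw n (z : ℤ))
      ≤ ℓ ^ (s * n) * (n ^ n * ℓ ^ (u * (n * (n - 1) / 2))) * J n r (ℓ ^ (s - u)) := by
  classical
  set W := wc n ℓ d s with hW
  set S := (range (ℓ ^ s)).filter fun z => z % ℓ ^ u = b with hS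
  set m := ℓ ^ u with hm
  have hmpos : 0 < m := Nat.pow_pos hℓ.pos
  have hsplit : ℓ ^ s = m * ℓ ^ (s - u) := by
    rw [hm, ← pow_add]; congr 1; omega
  -- the pairs `(X, Y)` which can occur
  set C := (W ×ˢ W).filter fun XY => ∀ i : Fin n, (ℓ : ℤ) ^ (u * ((i : ℕ) + 1)) ∣
        ∑ a, ((XY.1 a : ℤ) - b) ^ ((i : ℕ) + 1) - ∑ a, ((XY.2 a : ℤ) - b) ^ ((i : ℕ) + 1) with hC
  have hCcard : #C ≤ ℓ ^ (s * n) * (n ^ n * ℓ ^ (u * (n * (n - 1) / 2))) := by
    have h1 : #C = ∑ Y ∈ W, #((W.filter fun X => ∀ i : Fin n, (ℓ : ℤ) ^ (u * ((i : ℕ) + 1)) ∣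
        ∑ a, ((X a : ℤ) - b) ^ ((i : ℕ) + 1) - ∑ a, ((Y a : ℤ) - b) ^ ((i : ℕ) + 1))) := by
      rw [Finset.card_eq_sum_card_fiberwise (f := fun XY : (Fin n → ℕ) × (Fin n → ℕ) => XY.2)
        (t := W)]
      · refine Finset.sum_congr rfl fun Y hY => ?_
        apply Finset.card_bij (fun XY _ => XY.1)
        · intro XY hXY
          rw [mem_filter, hC, mem_filter, mem_product] at hXY
          rw [mem_filter]
          obtain ⟨⟨⟨h1, _⟩, h3⟩, h4⟩ := hXY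
          rw [h4] at h3
          exact ⟨h1, h3⟩
        · intro XY hXY XY' hXY' heq
          rw [mem_filter] at hXY hXY'
          exact Prod.ext heq (hXY.2.trans hXY'.2.symm)
        · intro X hX
          rw [mem_filter] at hX
          refine ⟨(X, Y), ?_, rfl⟩
          rw [mem_filter, hC, mem_filter, mem_product]
          exact ⟨⟨⟨hX.1, hY⟩, hX.2⟩, rfl⟩
      · intro XY hXY
        rw [mem_coe, hC, mem_filter, mem_product] at hXY
        exact hXY.1.2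
    rw [h1]
    calc _ ≤ ∑ Y ∈ W, n ^ n * ℓ ^ (u * (n * (n - 1) / 2)) :=
          Finset.sum_le_sum fun Y _ => linnik n hℓ d s u hu (b : ℤ) (fun a => (Y a : ℤ))
      _ = #W * (n ^ n * ℓ ^ (u * (n * (n - 1) / 2))) := by rw [Finset.sum_const, smul_eq_mul]
      _ ≤ _ := by
          apply Nat.mul_le_mul_right
          rw [hW, wc]
          refine (Finset.card_filter_le _ _).trans (le_of_eq ?_)
          simp [Fintype.card_piFinset, ← pow_mul]
  -- fibre over a pair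
  unfold mix
  rw [coinc_def]
  set Pset := {ab ∈ (W ×ˢ tup r S) ×ˢ W ×ˢ tup r S |
    (fun ax : (Fin n → ℕ) × (Fin r → ℕ) => ∑ i, pw n ((ax.1 i : ℕ) : ℤ)
        + ∑ i, pw n ((ax.2 i : ℕ) : ℤ)) ab.1
      = (fun ax : (Fin n → ℕ) × (Fin r → ℕ) => ∑ i, pw n ((ax.1 i : ℕ) : ℤ)
        + ∑ i, pw n ((ax.2 i : ℕ) : ℤ)) ab.2} with hP
  -- the shifted moment identity
  have hshift : ∀ ab ∈ Pset, ∀ j, 1 ≤ j → j ≤ n →
      ∑ a, ((ab.1.1 a : ℤ) - b) ^ j - ∑ a, ((ab.2.1 a : ℤ) - b) ^ j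
        = (m : ℤ) ^ j * (∑ a, (((ab.2.2 a / m : ℕ)) : ℤ) ^ j - ∑ a, (((ab.1.2 a / m : ℕ)) : ℤ) ^ j) := by
    rintro ⟨⟨X, x⟩, ⟨Y, y⟩⟩ hab j hj1 hjn
    rw [hP, mem_filter, mem_product, mem_product, mem_product] at hab
    obtain ⟨⟨⟨hX, hx⟩, hY, hy⟩, heq⟩ := hab
    simp only at heq hX hx hY hy ⊢
    have hmom : ∀ j ≤ n, ∑ i, (Fin.append (fun a => (X a : ℤ)) (fun a => (x a : ℤ)) i) ^ j
        = ∑ i, (Fin.append (fun a => (Y a : ℤ)) (fun a => (y a : ℤ)) i) ^ j := by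
      apply moments_of_pw _ _ rfl
      rw [Fin.sum_univ_add, Fin.sum_univ_add]
      simpa using heq
    have h2 := shift_moments _ _ (b : ℤ) n hmom j hjn
    rw [Fin.sum_univ_add, Fin.sum_univ_add] at h2
    simp only [Fin.append_left, Fin.append_right] at h2
    have hcast : ∀ z : Fin r → ℕ, z ∈ tup r S → ∀ i, ((z i : ℤ) - b) = m * ((z i / m : ℕ) : ℤ) := by
      intro z hz i
      have h3 := (mem_filter.1 (mem_tup.1 hz i)).2
      have h4 := Nat.div_add_mod (z i) m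
      rw [h3] at h4
      have : (z i : ℤ) = m * ((z i / m : ℕ) : ℤ) + b := by exact_mod_cast h4.symm
      linarith
    simp only [hcast x hx, hcast y hy, mul_pow] at h2
    rw [← Finset.mul_sum, ← Finset.mul_sum] at h2
    rw [mul_sub]
    linarith
  have hmap : ∀ ab ∈ Pset, (ab.1.1, ab.2.1) ∈ C := by
    intro ab hab
    rw [hC, mem_filter, mem_product]
    refine ⟨?_, ?_⟩
    · rw [hP, mem_filter, mem_product, mem_product, mem_product] at hab
      exact ⟨hab.1.1.1, hab.1.2.1⟩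
    · intro i
      have := hshift ab hab ((i : ℕ) + 1) (by omega) (by omega)
      simp only at this ⊢
      rw [this]
      apply Dvd.dvd.mul_right
      rw [pow_mul, hm]
      push_cast
      exact dvd_refl _
  change #Pset ≤ _
  rw [Finset.card_eq_sum_card_fiberwise
    (f := fun ab : ((Fin n → ℕ) × (Fin r → ℕ)) × ((Fin n → ℕ) × (Fin r → ℕ)) => (ab.1.1, ab.2.1))
    (t := C) hmap]
  have hfib : ∀ XY ∈ C, #(Pset.filter fun ab => (ab.1.1, ab.2.1) = XY) ≤ J n r (ℓ ^ (s - u)) := by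
    rintro ⟨X, Y⟩ hXY
    -- the prescribed difference
    set v : Fin n → ℤ := fun i => (∑ a, ((Y a : ℤ) - b) ^ ((i : ℕ) + 1)
      - ∑ a, ((X a : ℤ) - b) ^ ((i : ℕ) + 1)) / (m : ℤ) ^ ((i : ℕ) + 1) with hv
    have h1 := card_shift_le (tup r (range (ℓ ^ (s - u))))
      (fun x : Fin r → ℕ => ∑ i, pw n ((x i : ℕ) : ℤ)) v
    refine le_trans ?_ h1
    apply Finset.card_le_card_of_injOn
      (fun ab => ((fun i => ab.1.2 i / m), (fun i => ab.2.2 i / m)))
    · rintro ⟨⟨X', x⟩, ⟨Y', y⟩⟩ hab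
      simp only [coe_filter, Set.mem_ofPred_eq, Prod.mk.injEq] at hab
      obtain ⟨habP, rfl, rfl⟩ := hab
      have hsh := hshift _ habP
      rw [hP, mem_filter, mem_product, mem_product, mem_product] at habP
      obtain ⟨⟨⟨_, hx⟩, _, hy⟩, _⟩ := habP
      simp only [coe_filter, mem_product, Set.mem_ofPred_eq, mem_tup, mem_range] at hx hy hsh ⊢
      have hlt : ∀ z : Fin r → ℕ, (∀ i, z i ∈ S) → ∀ i, z i / m < ℓ ^ (s - u) := by
        intro z hz i
        have := (mem_filter.1 (hz i)).1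
        rw [mem_range, hsplit] at this
        exact Nat.div_lt_of_lt_mul this
      refine ⟨⟨hlt x hx, hlt y hy⟩, ?_⟩
      funext i
      obtain ⟨j, hj⟩ := i
      rw [Pi.add_apply, pw_sum_apply (fun i => ((x i / m : ℕ) : ℤ)),
        pw_sum_apply (fun i => ((y i / m : ℕ) : ℤ)), hv]
      have h3 := hsh (j + 1) (by omega) (by omega)
      have hm0 : ((m : ℤ)) ^ (j + 1) ≠ 0 := by positivity
      have h4 : (∑ a, ((Y' a : ℤ) - b) ^ (j + 1) - ∑ a, ((X' a : ℤ) - b) ^ (j + 1))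
          = (m : ℤ) ^ (j + 1) * (∑ a, ((x a / m : ℕ) : ℤ) ^ (j + 1)
            - ∑ a, ((y a / m : ℕ) : ℤ) ^ (j + 1)) := by
        have : (m : ℤ) ^ (j + 1) * (∑ a, ((x a / m : ℕ) : ℤ) ^ (j + 1)
            - ∑ a, ((y a / m : ℕ) : ℤ) ^ (j + 1)) = -((m : ℤ) ^ (j + 1) *
            (∑ a, ((y a / m : ℕ) : ℤ) ^ (j + 1) - ∑ a, ((x a / m : ℕ) : ℤ) ^ (j + 1))) := by ring
        rw [this, ← h3]; ring
      simp only
      rw [h4, Int.mul_ediv_cancel_left _ hm0]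
      ring
    · rintro ⟨⟨X', x⟩, ⟨Y', y⟩⟩ hab ⟨⟨X'', x'⟩, ⟨Y'', y'⟩⟩ hab' heq
      simp only [coe_filter, Set.mem_ofPred_eq, Prod.mk.injEq] at hab hab' heq
      obtain ⟨habP, rfl, rfl⟩ := hab
      obtain ⟨habP', rfl, rfl⟩ := hab'
      rw [hP, mem_filter, mem_product, mem_product, mem_product] at habP habP'
      have hinj : ∀ z z' : Fin r → ℕ, z ∈ tup r S → z' ∈ tup r S →
          (fun i => z i / m) = (fun i => z' i / m) → z = z' := by
        intro z z' hz hz' h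
        funext i
        have h1 := (mem_filter.1 (mem_tup.1 hz i)).2
        have h2 := (mem_filter.1 (mem_tup.1 hz' i)).2
        have h3 := congrFun h i
        rw [← Nat.div_add_mod (z i) m, ← Nat.div_add_mod (z' i) m, h1, h2, h3]
      have e1 := hinj x x' habP.1.1.2 habP'.1.1.2 heq.1
      have e2 := hinj y y' habP.1.2.2 habP'.1.2.2 heq.2
      rw [e1, e2]
  calc ∑ XY ∈ C, #(Pset.filter fun ab => (ab.1.1, ab.2.1) = XY)
      ≤ ∑ XY ∈ C, J n r (ℓ ^ (s - u)) := Finset.sum_le_sum hfib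
    _ = #C * J n r (ℓ ^ (s - u)) := by rw [Finset.sum_const, smul_eq_mul]
    _ ≤ _ := Nat.mul_le_mul_right _ hCcard

/-- The recursion. -/
theorem J_rec (n r : ℕ) (hn : 2 ≤ n) {ℓ : ℕ} (hℓ : ℓ.Prime) (d s u : ℕ) (hds : d ≤ s) (hus : u ≤ s)
    (hu : s + (n * d + n) ≤ u * n) :
    (J n (n + r) (ℓ ^ s) : ℝ) ≤ 4 * ((ℓ : ℝ) ^ (u * (2 * r)) * ((ℓ : ℝ) ^ (s * n)
        * ((n : ℝ) ^ n * (ℓ : ℝ) ^ (u * (n * (n - 1) / 2))) * J n r (ℓ ^ (s - u))))
      + (2 * (n : ℝ) ^ 2) ^ (n + r) * (ℓ : ℝ) ^ (d * (n + r)) * J n (n + r) (ℓ ^ (s - d)) := by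
  classical
  have hsplit : ℓ ^ s = ℓ ^ d * ℓ ^ (s - d) := by
    rw [← pow_add]; congr 1; omega
  have hdpos : 0 < ℓ ^ d := Nat.pow_pos hℓ.pos
  have hupos : 0 < ℓ ^ u := Nat.pow_pos hℓ.pos
  have h1 := cond_split (rf_pi_int n) n r hn (range (ℓ ^ s)) (fun z : ℕ => pw n (z : ℤ))
    (fun z => z % ℓ ^ d) (range (ℓ ^ d)) (fun x _ => mem_range.2 (Nat.mod_lt _ hdpos))
    (J n (n + r) (ℓ ^ (s - d))) (fun b _ => by
      have := en_class_le n (n + r) (ℓ ^ d) (ℓ ^ (s - d)) hdpos b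
      rw [← hsplit] at this
      exact_mod_cast this)
  have h2 := mix_le_of_classes (rf_pi_int n) (wc n ℓ d s) (fun X => ∑ i, pw n ((X i : ℕ) : ℤ)) r
    (range (ℓ ^ s)) (fun z : ℕ => pw n (z : ℤ)) (fun z => z % ℓ ^ u) (range (ℓ ^ u))
    ⟨0, mem_range.2 hupos⟩ (fun x _ => mem_range.2 (Nat.mod_lt _ hupos))
    (((ℓ ^ (s * n) * (n ^ n * ℓ ^ (u * (n * (n - 1) / 2))) * J n r (ℓ ^ (s - u)) : ℕ) : ℝ))
    (fun b hb => by
      have := mix_class_le n r hℓ d s u hus hu b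
      exact_mod_cast this)
  rw [card_range] at h1 h2
  have h3 : (mix ((tup n (range (ℓ ^ s))).filter fun X => ∀ a b, a ≠ b →
      (fun z => z % ℓ ^ d) (X a) ≠ (fun z => z % ℓ ^ d) (X b))
      (fun X => ∑ i, (fun z : ℕ => pw n (z : ℤ)) (X i)) r (range (ℓ ^ s))
      (fun z : ℕ => pw n (z : ℤ)) : ℝ)
      ≤ (ℓ : ℝ) ^ (u * (2 * r)) * ((ℓ : ℝ) ^ (s * n)
        * ((n : ℝ) ^ n * (ℓ : ℝ) ^ (u * (n * (n - 1) / 2))) * J n r (ℓ ^ (s - u))) := by
    refine le_trans (le_of_eq ?_) (h2.trans (le_of_eq ?_))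
    · rfl
    · push_cast
      rw [← pow_mul]
  have h4 : (J n (n + r) (ℓ ^ s) : ℝ) = en (n + r) (range (ℓ ^ s)) (fun z : ℕ => pw n (z : ℤ)) := rfl
  rw [h4]
  refine h1.trans ?_
  push_cast
  rw [← pow_mul]
  gcongr

/-- The trivial bound. -/
theorem J_trivial (n k X : ℕ) : J n k X ≤ X ^ (2 * k) := by
  classical
  unfold J en
  rw [coinc_def]
  refine (Finset.card_filter_le _ _).trans (le_of_eq ?_)
  rw [Finset.card_product, card_tup, card_range]
  ring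

theorem J_zero (n X : ℕ) : J n 0 X = 1 := by
  classical
  unfold J en
  rw [coinc_def, Finset.card_eq_one]
  refine ⟨(Fin.elim0, Fin.elim0), ?_⟩
  ext ⟨a, b⟩
  simp only [mem_filter, mem_product, mem_tup, mem_singleton, Finset.univ_eq_empty,
    Finset.sum_empty, and_true, IsEmpty.forall_iff, Prod.mk.injEq]
  simp only [true_iff]
  exact ⟨Subsingleton.elim _ _, Subsingleton.elim _ _⟩

end Pool.Agent.H.MP_96e181_an.helper85
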