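import Mathlib
import Pool.Agent.H.MP_96e181_an.helper85.MeanRec

set_option autoImplicit false

/-!
# Counting solutions of exponential congruences by the mean value
-/

namespace Pool.Agent.H.MP_96e181_an.helper85

open Finset

/-- Integers in an interval `[-B, B]` in one residue class modulo `m`. -/
theorem card_class_le (T : Finset ℤ) (B m : ℕ) (hm : 0 < m) (hT : ∀ x ∈ T, |x| ≤ B)
    (hc : ∀ x ∈ T, ∀ y ∈ T, (m : ℤ) ∣ x - y) : #T ≤ 2 * B / m + 1 := by
  classical
  have h : #T ≤ #(range (2 * B / m + 1)) := by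
    apply Finset.card_le_card_of_injOn (fun x : ℤ => ((x + B) / m).toNat)
    · intro x hx
      have h1 := abs_le.1 (hT x hx)
      rw [mem_coe, mem_range]
      have h2 : (x + B) / (m : ℤ) ≤ ((2 * B / m : ℕ) : ℤ) := by
        push_cast
        apply Int.ediv_le_ediv (by exact_mod_cast hm)
        linarith
      have h3 : 0 ≤ (x + B) / (m : ℤ) := Int.ediv_nonneg (by linarith) (by positivity)
      change ((x + B) / (m : ℤ)).toNat < 2 * B / m + 1
      omega
    · intro x hx y hy hxy
      simp only at hxy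
      have h1 := abs_le.1 (hT x hx)
      have h2 := abs_le.1 (hT y hy)
      have h3 : 0 ≤ (x + B) / (m : ℤ) := Int.ediv_nonneg (by linarith) (by positivity)
      have h4 : 0 ≤ (y + B) / (m : ℤ) := Int.ediv_nonneg (by linarith) (by positivity)
      have h5 : (x + B) / (m : ℤ) = (y + B) / (m : ℤ) := by omega
      have h6 : (x + B) % (m : ℤ) = (y + B) % (m : ℤ) := by
        have : (y + B) ≡ (x + B) [ZMOD (m : ℤ)] := by
          rw [Int.modEq_iff_dvd]
          have := hc x hx y hy
          have e : x + B - (y + B) = x - y := by ring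
          rwa [e]
        exact this.symm
      have h7 := Int.mul_ediv_add_emod (x + B) m
      have h8 := Int.mul_ediv_add_emod (y + B) m
      rw [h5, h6] at h7
      linarith
  rwa [card_range] at h

/-- Vectors in a box with `gcd (D, P^(n+1)) ∣ ∑ P^i N_i`. -/
noncomputable def NV (D P : ℕ) (B : ℕ → ℕ) (n : ℕ) : Finset (Fin n → ℤ) :=
  (Fintype.piFinset fun i : Fin n => Finset.Icc (-(B (i + 1) : ℤ)) (B (i + 1))).filter
    fun N => ((Nat.gcd D (P ^ (n + 1)) : ℕ) : ℤ) ∣ ∑ i : Fin n, (P : ℤ) ^ ((i : ℕ) + 1) * N i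

theorem gcd_succ_dvd (D P k : ℕ) : Nat.gcd D (P ^ k) ∣ Nat.gcd D (P ^ (k + 1)) :=
  Nat.gcd_dvd_gcd_of_dvd_right _ (pow_dvd_pow _ (Nat.le_succ k))

/-- The successive moduli. -/
def md (D P k : ℕ) : ℕ := Nat.gcd D (P ^ (k + 1)) / Nat.gcd D (P ^ k)

theorem md_pos (D P k : ℕ) (hD : 0 < D) : 0 < md D P k := by
  have h1 : 0 < Nat.gcd D (P ^ k) := Nat.gcd_pos_of_pos_left _ hD
  have h2 : 0 < Nat.gcd D (P ^ (k + 1)) := Nat.gcd_pos_of_pos_left _ hD
  exact Nat.div_pos (Nat.le_of_dvd h2 (gcd_succ_dvd D P k)) h1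

theorem md_mul (D P k : ℕ) : Nat.gcd D (P ^ k) * md D P k = Nat.gcd D (P ^ (k + 1)) :=
  Nat.mul_div_cancel' (gcd_succ_dvd D P k)

theorem md_dvd_of (D P k : ℕ) (hD : 0 < D) (x : ℤ)
    (h : ((Nat.gcd D (P ^ (k + 1)) : ℕ) : ℤ) ∣ (P : ℤ) ^ k * x) : ((md D P k : ℕ) : ℤ) ∣ x := by
  have h1 : Nat.gcd D (P ^ (k + 1)) ∣ P ^ k * x.natAbs := by
    have := Int.natAbs_dvd_natAbs.2 h
    rwa [Int.natAbs_natCast, Int.natAbs_mul, Int.natAbs_pow, Int.natAbs_natCast] at this
  set A := Nat.gcd D (P ^ (k + 1)) with hA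
  have hg : Nat.gcd A (P ^ k) = Nat.gcd D (P ^ k) := by
    rw [hA, Nat.gcd_assoc]
    congr 1
    exact Nat.gcd_eq_right (pow_dvd_pow _ (Nat.le_succ k))
  have hApos : 0 < A := Nat.gcd_pos_of_pos_left _ hD
  have hgpos : 0 < Nat.gcd A (P ^ k) := Nat.gcd_pos_of_pos_left _ hApos
  have h2 : A / Nat.gcd A (P ^ k) ∣ (P ^ k / Nat.gcd A (P ^ k)) * x.natAbs := by
    apply Nat.dvd_of_mul_dvd_mul_left hgpos
    rw [Nat.mul_div_cancel' (Nat.gcd_dvd_left _ _), ← mul_assoc,
      Nat.mul_div_cancel' (Nat.gcd_dvd_right _ _)]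
    exact h1
  have h3 : Nat.Coprime (A / Nat.gcd A (P ^ k)) (P ^ k / Nat.gcd A (P ^ k)) :=
    Nat.coprime_div_gcd_div_gcd hgpos
  have h4 := h3.dvd_of_dvd_mul_left h2
  rw [hg] at h4
  have h5 : (md D P k) ∣ x.natAbs := h4
  exact Int.natCast_dvd.2 h5

theorem NV_card (D P : ℕ) (hD : 0 < D) (B : ℕ → ℕ) (n : ℕ) :
    #(NV D P B n) ≤ ∏ i ∈ range n, (2 * B (i + 1) / md D P (i + 1) + 1) := by
  classical
  induction n with
  | zero =>
    rw [Finset.prod_range_zero]
    refine (Finset.card_filter_le _ _).trans ?_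
    simp
  | succ n ih =>
    rw [Finset.prod_range_succ]
    have hmap : ∀ N ∈ NV D P B (n + 1), (Fin.init N : Fin n → ℤ) ∈ NV D P B n := by
      intro N hN
      rw [NV, mem_filter, Fintype.mem_piFinset] at hN ⊢
      refine ⟨fun i => hN.1 i.castSucc, ?_⟩
      have h1 := hN.2
      rw [Fin.sum_univ_castSucc] at h1
      simp only [Fin.val_castSucc, Fin.val_last] at h1
      have h2 : ((Nat.gcd D (P ^ (n + 1)) : ℕ) : ℤ) ∣ ((Nat.gcd D (P ^ (n + 1 + 1)) : ℕ) : ℤ) :=
        Int.natCast_dvd_natCast.2 (gcd_succ_dvd D P (n + 1))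
      have h3 : ((Nat.gcd D (P ^ (n + 1)) : ℕ) : ℤ) ∣ (P : ℤ) ^ (n + 1) * N (Fin.last n) := by
        apply Dvd.dvd.mul_right
        have := Int.natCast_dvd_natCast.2 (Nat.gcd_dvd_right D (P ^ (n + 1)))
        exact_mod_cast this
      have h4 := (Int.dvd_add_left h3).1 (h2.trans h1)
      exact h4
    rw [Finset.card_eq_sum_card_fiberwise (f := fun N : Fin (n + 1) → ℤ => (Fin.init N : Fin n → ℤ))
      (t := NV D P B n) hmap]
    have hfib : ∀ N0 ∈ NV D P B n, #((NV D P B (n + 1)).filter fun N => (Fin.init N : Fin n → ℤ) = N0)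
        ≤ 2 * B (n + 1) / md D P (n + 1) + 1 := by
      intro N0 _
      set F := (NV D P B (n + 1)).filter fun N => (Fin.init N : Fin n → ℤ) = N0 with hF
      have h1 : #F = #(F.image fun N => N (Fin.last n)) := by
        rw [Finset.card_image_of_injOn]
        intro N hN N' hN' heq
        rw [mem_coe, hF, mem_filter] at hN hN'
        rw [← Fin.snoc_init_self N, ← Fin.snoc_init_self N', hN.2, hN'.2]
        simp only at heq
        rw [heq]
      rw [h1]
      apply card_class_le _ _ _ (md_pos D P (n + 1) hD)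
      · intro x hx
        rw [mem_image] at hx
        obtain ⟨N, hN, rfl⟩ := hx
        rw [hF, mem_filter, NV, mem_filter, Fintype.mem_piFinset] at hN
        have := hN.1.1 (Fin.last n)
        rw [mem_Icc, Fin.val_last] at this
        exact abs_le.2 this
      · intro x hx y hy
        rw [mem_image] at hx hy
        obtain ⟨N, hN, rfl⟩ := hx
        obtain ⟨N', hN', rfl⟩ := hy
        rw [hF, mem_filter, NV, mem_filter] at hN hN'
        apply md_dvd_of D P (n + 1) hD
        have h2 := dvd_sub hN.1.2 hN'.1.2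
        rw [Fin.sum_univ_castSucc, Fin.sum_univ_castSucc] at h2
        simp only [Fin.val_castSucc, Fin.val_last] at h2
        have h3 : ∀ i : Fin n, N i.castSucc = N' i.castSucc := by
          intro i
          have e1 := congrFun hN.2 i
          have e2 := congrFun hN'.2 i
          rw [Fin.init] at e1 e2
          rw [e1, e2]
        simp only [h3] at h2
        have h4 : (∑ x : Fin n, (P : ℤ) ^ ((x : ℕ) + 1) * N' x.castSucc
            + (P : ℤ) ^ (n + 1) * N (Fin.last n))
            - (∑ x : Fin n, (P : ℤ) ^ ((x : ℕ) + 1) * N' x.castSucc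
            + (P : ℤ) ^ (n + 1) * N' (Fin.last n))
            = (P : ℤ) ^ (n + 1) * (N (Fin.last n) - N' (Fin.last n)) := by ring
        rw [h4] at h2
        exact h2
    calc _ ≤ ∑ N0 ∈ NV D P B n, (2 * B (n + 1) / md D P (n + 1) + 1) := Finset.sum_le_sum hfib
      _ = #(NV D P B n) * (2 * B (n + 1) / md D P (n + 1) + 1) := by
          rw [Finset.sum_const, smul_eq_mul]
      _ ≤ _ := Nat.mul_le_mul_right _ ih

/-- Binomial moments determine the power moments. -/
theorem moments_of_choose {r n : ℕ} (z w : Fin r → ℕ)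
    (h : ∀ k ≤ n, ∑ i, ((z i).choose k : ℤ) = ∑ i, ((w i).choose k : ℤ)) (j : ℕ) :
    ∀ k, j + k ≤ n → ∑ i, (z i : ℤ) ^ j * ((z i).choose k : ℤ)
      = ∑ i, (w i : ℤ) ^ j * ((w i).choose k : ℤ) := by
  have key : ∀ x k : ℕ, (x : ℤ) * (x.choose k : ℤ)
      = ((k : ℤ) + 1) * (x.choose (k + 1) : ℤ) + k * (x.choose k : ℤ) := by
    intro x k
    rcases le_or_gt k x with hk | hk
    · have h1 := Nat.choose_succ_right_eq x k
      have h2 : (x.choose (k + 1) : ℤ) * ((k : ℤ) + 1) = (x.choose k : ℤ) * ((x : ℤ) - k) := by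
        have := congrArg (fun m : ℕ => (m : ℤ)) h1
        push_cast [Nat.cast_sub hk] at this
        exact this
      linarith
    · rw [Nat.choose_eq_zero_of_lt hk, Nat.choose_eq_zero_of_lt (by omega)]
      simp
  induction j with
  | zero =>
    intro k hk
    simpa using h k (by omega)
  | succ j ih =>
    intro k hk
    have e : ∀ x : Fin r → ℕ, ∑ i, (x i : ℤ) ^ (j + 1) * ((x i).choose k : ℤ)
        = ((k : ℤ) + 1) * ∑ i, (x i : ℤ) ^ j * ((x i).choose (k + 1) : ℤ)
          + k * ∑ i, (x i : ℤ) ^ j * ((x i).choose k : ℤ) := by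
      intro x
      rw [Finset.mul_sum, Finset.mul_sum, ← Finset.sum_add_distrib]
      refine Finset.sum_congr rfl fun i _ => ?_
      rw [pow_succ, mul_assoc, key]
      ring
    rw [e z, e w, ih (k + 1) (by omega), ih k (by omega)]

/-- The vector of binomial coefficients. -/
def bin (n : ℕ) (z : ℕ) : Fin n → ℤ := fun k => (z.choose ((k : ℕ) + 1) : ℤ)

theorem en_bin_le (n r X : ℕ) : en r (range X) (bin n) ≤ J n r X := by
  classical
  unfold J en
  apply coinc_le_of_map id (Set.injOn_id _) (fun a ha => ha)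
  intro z _ w _ hzw
  have h1 : ∀ k ≤ n, ∑ i, ((z i).choose k : ℤ) = ∑ i, ((w i).choose k : ℤ) := by
    intro k hk
    rcases Nat.eq_zero_or_pos k with rfl | hpos
    · simp
    · obtain ⟨m, rfl⟩ : ∃ m, k = m + 1 := ⟨k - 1, by omega⟩
      have := congrFun hzw ⟨m, by omega⟩
      rw [Finset.sum_apply, Finset.sum_apply] at this
      exact this
  funext j
  obtain ⟨j, hj⟩ := j
  simp only [id]
  rw [pw_sum_apply (fun i => (z i : ℤ)), pw_sum_apply (fun i => (w i : ℤ))]
  have := moments_of_choose z w h1 (j + 1) 0 (by omega)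
  simpa using this

theorem one_add_pow_zmod (D P n : ℕ) (hDP : D ∣ P ^ (n + 1)) (z : ℕ) :
    (((1 + P : ℕ) : ZMod D)) ^ z = ∑ k ∈ range (n + 1), (P : ZMod D) ^ k * (z.choose k : ZMod D) := by
  have hP : ∀ k, n + 1 ≤ k → (P : ZMod D) ^ k = 0 := by
    intro k hk
    have h1 : D ∣ P ^ k := hDP.trans (pow_dvd_pow _ hk)
    have := (ZMod.natCast_eq_zero_iff (P ^ k) D).2 h1
    exact_mod_cast this
  have h1 : (((1 + P : ℕ) : ZMod D)) ^ z
      = ∑ k ∈ range (z + 1), (P : ZMod D) ^ k * (z.choose k : ZMod D) := by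
    push_cast
    rw [add_comm, add_pow]
    refine Finset.sum_congr rfl fun k _ => ?_
    rw [one_pow, mul_one]
  rw [h1]
  have h2 : ∑ k ∈ range (z + 1), (P : ZMod D) ^ k * (z.choose k : ZMod D)
      = ∑ k ∈ range (max z n + 1), (P : ZMod D) ^ k * (z.choose k : ZMod D) := by
    apply Finset.sum_subset
    · intro k hk
      rw [mem_range] at hk ⊢
      have := le_max_left z n
      omega
    · intro k _ hk
      rw [mem_range] at hk
      rw [Nat.choose_eq_zero_of_lt (by omega)]
      simp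
  have h3 : ∑ k ∈ range (n + 1), (P : ZMod D) ^ k * (z.choose k : ZMod D)
      = ∑ k ∈ range (max z n + 1), (P : ZMod D) ^ k * (z.choose k : ZMod D) := by
    apply Finset.sum_subset
    · intro k hk
      rw [mem_range] at hk ⊢
      have := le_max_right z n
      omega
    · intro k _ hk
      rw [mem_range] at hk
      rw [hP k (by omega)]
      simp
  rw [h2, h3]

/-- Solutions of an exponential congruence, counted by the mean value. -/
theorem en_exp_le (D P n r X : ℕ) (hD : 0 < D) (hDP : D ∣ P ^ (n + 1)) :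
    en r (range X) (fun z : ℕ => (((1 + P : ℕ) : ZMod D)) ^ z)
      ≤ (∏ i ∈ range n, (2 * (r * X ^ (i + 1)) / md D P (i + 1) + 1)) * J n r X := by
  classical
  unfold en
  rw [coinc_def]
  set Pset := {ab ∈ tup r (range X) ×ˢ tup r (range X) |
    (fun x : Fin r → ℕ => ∑ i, (((1 + P : ℕ) : ZMod D)) ^ (x i)) ab.1
      = (fun x : Fin r → ℕ => ∑ i, (((1 + P : ℕ) : ZMod D)) ^ (x i)) ab.2} with hP
  set B : ℕ → ℕ := fun k => r * X ^ k with hB
  set Nf : (Fin r → ℕ) × (Fin r → ℕ) → Fin n → ℤ :=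
    fun ab => ∑ i, bin n (ab.1 i) - ∑ i, bin n (ab.2 i) with hNf
  have hbin : ∀ x : Fin r → ℕ, x ∈ tup r (range X) → ∀ k : ℕ,
      0 ≤ ∑ i, ((x i).choose (k + 1) : ℤ) ∧ ∑ i, ((x i).choose (k + 1) : ℤ) ≤ (r * X ^ (k + 1) : ℕ) := by
    intro x hx k
    constructor
    · exact Finset.sum_nonneg fun i _ => by positivity
    · calc ∑ i, ((x i).choose (k + 1) : ℤ) ≤ ∑ _i : Fin r, ((X ^ (k + 1) : ℕ) : ℤ) := by
            refine Finset.sum_le_sum fun i _ => ?_
            have h1 := mem_range.1 (mem_tup.1 hx i)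
            have h2 : (x i).choose (k + 1) ≤ X ^ (k + 1) :=
              (Nat.choose_le_pow (x i) (k + 1)).trans (Nat.pow_le_pow_left h1.le _)
            exact_mod_cast h2
        _ = _ := by
            rw [Finset.sum_const, Finset.card_univ, Fintype.card_fin, nsmul_eq_mul]
            push_cast
            ring
  have hmap : ∀ ab ∈ Pset, Nf ab ∈ NV D P B n := by
    rintro ⟨x, y⟩ hab
    rw [hP, mem_filter, mem_product] at hab
    obtain ⟨⟨hx, hy⟩, heq⟩ := hab
    simp only at heq hx hy
    rw [NV, mem_filter, Fintype.mem_piFinset]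
    constructor
    · intro k
      rw [mem_Icc, hNf]
      simp only [Pi.sub_apply, Finset.sum_apply, bin]
      have h1 := hbin x hx k
      have h2 := hbin y hy k
      rw [hB]
      simp only
      constructor <;> linarith [h1.1, h1.2, h2.1, h2.2]
    · have hg : Nat.gcd D (P ^ (n + 1)) = D := Nat.gcd_eq_left hDP
      rw [hg, ← ZMod.intCast_zmod_eq_zero_iff_dvd]
      simp_rw [one_add_pow_zmod D P n hDP] at heq
      have e : ∀ z : Fin r → ℕ, ∑ i, ∑ k ∈ range (n + 1), (P : ZMod D) ^ k * ((z i).choose k : ZMod D)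
          = (r : ZMod D) + ∑ k : Fin n, (P : ZMod D) ^ ((k : ℕ) + 1)
            * ∑ i, ((z i).choose ((k : ℕ) + 1) : ZMod D) := by
        intro z
        rw [Finset.sum_comm, Finset.sum_range_succ']
        simp only [pow_zero, Nat.choose_zero_right, Nat.cast_one, mul_one, Finset.sum_const,
          Finset.card_univ, Fintype.card_fin, nsmul_eq_mul]
        rw [add_comm, Fin.sum_univ_eq_sum_range (fun k => (P : ZMod D) ^ (k + 1)
          * ∑ i, ((z i).choose (k + 1) : ZMod D)) n]
        congr 1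
        refine Finset.sum_congr rfl fun k _ => ?_
        rw [Finset.mul_sum]
      rw [e x, e y] at heq
      have heq' := add_left_cancel heq
      rw [hNf]
      simp only [Pi.sub_apply, Finset.sum_apply, bin]
      push_cast
      simp only [mul_sub]
      rw [Finset.sum_sub_distrib, heq', sub_self]
  rw [Finset.card_eq_sum_card_fiberwise (f := Nf) (t := NV D P B n) hmap]
  have hfib : ∀ N ∈ NV D P B n, #(Pset.filter fun ab => Nf ab = N) ≤ J n r X := by
    intro N _
    refine le_trans ?_ (en_bin_le n r X)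
    refine le_trans ?_ (card_shift_le (tup r (range X)) (fun x : Fin r → ℕ => ∑ i, bin n (x i)) N)
    apply Finset.card_le_card
    intro ab hab
    rw [mem_filter, hP, mem_filter] at hab
    rw [mem_filter]
    refine ⟨hab.1.1, ?_⟩
    have := hab.2
    rw [hNf] at this
    simp only at this ⊢
    rw [← this]
    abel
  calc _ ≤ ∑ N ∈ NV D P B n, J n r X := Finset.sum_le_sum hfib
    _ = #(NV D P B n) * J n r X := by rw [Finset.sum_const, smul_eq_mul]
    _ ≤ _ := Nat.mul_le_mul_right _ (NV_card D P hD B n)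

/-- Energies over classes, finite group version. -/
theorem en_le_of_classes {ι G κ : Type*} [AddCommGroup G] [Fintype G] [DecidableEq κ] (r : ℕ)
    (S : Finset ι) (φ : ι → G) (cls : ι → κ) (K : Finset κ) (hK : K.Nonempty)
    (hcls : ∀ x ∈ S, cls x ∈ K) (Q : ℝ)
    (hQ : ∀ b ∈ K, (en r (S.filter fun x => cls x = b) φ : ℝ) ≤ Q) :
    (en r S φ : ℝ) ≤ (#K : ℝ) ^ (2 * r) * Q := by
  have h : ∀ T : Finset ι, (mix ({()} : Finset Unit) (fun _ => (0 : G)) r T φ : ℝ) = en r T φ := by
    intro T
    have hcard : (0 : ℝ) < Fintype.card G := by exact_mod_cast Fintype.card_pos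
    have h1 := sum_mix_eq ({()} : Finset Unit) (fun _ => (0 : G)) r T φ
    have h2 := sum_pow_eq r T φ
    simp only [Finset.sum_singleton, AddChar.map_zero_eq_one, norm_one, one_pow, one_mul] at h1
    exact mul_left_cancel₀ hcard.ne' (h1.symm.trans h2)
  have := mix_le_of_classes_fin ({()} : Finset Unit) (fun _ => (0 : G)) r S φ cls K hK hcls Q
    (fun b hb => by rw [h]; exact hQ b hb)
  rwa [h] at this

/-- The energy of `v^x`, `x < Rt * X`, where `v^Rt = 1 + P`. -/
theorem en_pow_le (D P Rt n r X v : ℕ) (hD : 0 < D) (hRt : 0 < Rt) (hDP : D ∣ P ^ (n + 1))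
    (hv : Nat.Coprime v D) (hvP : v ^ Rt = 1 + P) :
    (en r (range (Rt * X)) (fun x : ℕ => (v : ZMod D) ^ x) : ℝ) ≤ (Rt : ℝ) ^ (2 * r)
      * (((∏ i ∈ range n, (2 * (r * X ^ (i + 1)) / md D P (i + 1) + 1)) * J n r X : ℕ) : ℝ) := by
  classical
  have : NeZero D := ⟨hD.ne'⟩
  have h := en_le_of_classes r (range (Rt * X)) (fun x : ℕ => (v : ZMod D) ^ x)
    (fun x => x % Rt) (range Rt) ⟨0, mem_range.2 hRt⟩ (fun x _ => mem_range.2 (Nat.mod_lt _ hRt))
    (((∏ i ∈ range n, (2 * (r * X ^ (i + 1)) / md D P (i + 1) + 1)) * J n r X : ℕ) : ℝ)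
    (fun b hb => by
      have h1 : en r ((range (Rt * X)).filter fun x => x % Rt = b) (fun x : ℕ => (v : ZMod D) ^ x)
          ≤ en r (range X) (fun z : ℕ => (((1 + P : ℕ) : ZMod D)) ^ z) := by
        unfold en
        apply coinc_le_of_map (fun x i => x i / Rt)
        · intro x hx y hy hxy
          funext i
          have h1 := (mem_filter.1 (mem_tup.1 (by simpa using hx) i)).2
          have h2 := (mem_filter.1 (mem_tup.1 (by simpa using hy) i)).2
          have h3 := congrFun hxy i
          simp only at h3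
          rw [← Nat.div_add_mod (x i) Rt, ← Nat.div_add_mod (y i) Rt, h1, h2, h3]
        · intro x hx
          rw [mem_tup]
          intro i
          have h1 := (mem_filter.1 (mem_tup.1 hx i)).1
          rw [mem_range] at h1 ⊢
          exact Nat.div_lt_of_lt_mul h1
        · intro x hx y hy hxy
          have e : ∀ z : Fin r → ℕ, z ∈ tup r ((range (Rt * X)).filter fun x => x % Rt = b) →
              ∑ i, (v : ZMod D) ^ (z i)
                = (v : ZMod D) ^ b * ∑ i, (((1 + P : ℕ) : ZMod D)) ^ (z i / Rt) := by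
            intro z hz
            rw [Finset.mul_sum]
            refine Finset.sum_congr rfl fun i _ => ?_
            have h1 := (mem_filter.1 (mem_tup.1 hz i)).2
            rw [← hvP]
            push_cast
            rw [← pow_mul, ← pow_add]
            congr 1
            have := Nat.div_add_mod (z i) Rt
            rw [h1] at this
            omega
          simp only at hxy
          rw [e x hx, e y hy] at hxy
          have hu : IsUnit ((v : ZMod D) ^ b) := by
            apply IsUnit.pow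
            exact (ZMod.isUnit_iff_coprime v D).2 hv
          exact hu.mul_left_cancel hxy
      have h2 := en_exp_le D P n r X hD hDP
      exact_mod_cast h1.trans h2)
  rwa [card_range] at h

end Pool.Agent.H.MP_96e181_an.helper85
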