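import Mathlib
import Pool.Agent.H.MP_96e181_an.helper85.Expo

set_option autoImplicit false

/-!
# The bilinear step
-/

namespace Pool.Agent.H.MP_96e181_an.helper85

open Finset

variable {D : ℕ} [NeZero D]

omit [NeZero D] in
theorem pow_sum_char (ψ : AddChar (ZMod D) ℂ) (Y r : ℕ) (a : ℕ → ZMod D) (c : ZMod D) :
    (∑ x ∈ range Y, ψ (c * a x)) ^ r = ∑ X ∈ tup r (range Y), ψ (c * ∑ i, a (X i)) := by
  have h := Finset.prod_univ_sum (fun _ : Fin r => range Y) (fun _ x => ψ (c * a x))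
  rw [Finset.prod_const, Finset.card_univ, Fintype.card_fin] at h
  rw [h, tup]
  refine Finset.sum_congr rfl fun X _ => ?_
  rw [Finset.mul_sum, addChar_sum]

theorem norm_pow_char (ψ : AddChar (ZMod D) ℂ) (Y r : ℕ) (a : ℕ → ZMod D) (c : ZMod D) :
    ((‖∑ x ∈ range Y, ψ (c * a x)‖ ^ (2 * r) : ℝ) : ℂ)
      = ∑ XX ∈ tup r (range Y) ×ˢ tup r (range Y), ψ (c * (∑ i, a (XX.1 i) - ∑ i, a (XX.2 i))) := by
  have h1 : ‖∑ x ∈ range Y, ψ (c * a x)‖ ^ (2 * r)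
      = ‖∑ X ∈ tup r (range Y), ψ (c * ∑ i, a (X i))‖ ^ 2 := by
    rw [← pow_sum_char, norm_pow, ← pow_mul, mul_comm]
  rw [h1, ← Complex.normSq_eq_norm_sq, ← Complex.mul_conj, map_sum, Finset.sum_mul_sum,
    Finset.sum_product]
  refine Finset.sum_congr rfl fun X _ => Finset.sum_congr rfl fun X' _ => ?_
  rw [← AddChar.map_neg_eq_conj, ← AddChar.map_add_eq_mul]
  congr 1
  ring

theorem sum_norm_pow_char (ψ : AddChar (ZMod D) ℂ) (hψ : ψ.IsPrimitive) (Y r : ℕ)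
    (a : ℕ → ZMod D) :
    ∑ c : ZMod D, ‖∑ x ∈ range Y, ψ (c * a x)‖ ^ (2 * r) = (D : ℝ) * en r (range Y) a := by
  classical
  have key : ∑ c : ZMod D, ((‖∑ x ∈ range Y, ψ (c * a x)‖ ^ (2 * r) : ℝ) : ℂ)
      = (D : ℂ) * en r (range Y) a := by
    simp_rw [norm_pow_char]
    rw [Finset.sum_comm]
    simp_rw [AddChar.sum_mulShift _ hψ]
    unfold en
    rw [coinc_def]
    simp only [sub_eq_zero]
    rw [← Nat.cast_sum, ← Finset.sum_filter, Finset.sum_const, smul_eq_mul, Nat.cast_mul, mul_comm,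
      ZMod.card]
  exact_mod_cast key

theorem bilinear (ψ : AddChar (ZMod D) ℂ) (hψ : ψ.IsPrimitive) (Y r : ℕ) (hr : 1 ≤ r)
    (a : ℕ → ZMod D) :
    (‖∑ x ∈ range Y, ∑ x' ∈ range Y, ψ (a x * a x')‖ ^ (2 * r)) ^ (2 * r)
      ≤ ((Y : ℝ) ^ (2 * r - 1)) ^ (2 * r) * (((Y : ℝ) ^ (2 * r)) ^ (2 * r - 1)
        * ((en r (range Y) a : ℝ) * ((D : ℝ) * en r (range Y) a))) := by
  classical
  set f : ZMod D → ℂ := fun c => ∑ x ∈ range Y, ψ (c * a x) with hf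
  set T : ℝ := (en r (range Y) a : ℝ) with hT
  set P := tup r (range Y) ×ˢ tup r (range Y) with hP
  set c : (Fin r → ℕ) × (Fin r → ℕ) → ZMod D := fun XX => ∑ i, a (XX.1 i) - ∑ i, a (XX.2 i) with hc
  have hPcard : (#P : ℝ) = (Y : ℝ) ^ (2 * r) := by
    rw [hP, Finset.card_product, card_tup, card_range]
    push_cast
    ring
  have e2r : 2 * r - 1 + 1 = 2 * r := by omega
  have h1 : ‖∑ x ∈ range Y, ∑ x' ∈ range Y, ψ (a x * a x')‖ ≤ ∑ x ∈ range Y, ‖f (a x)‖ :=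
    norm_sum_le _ _
  have h2 : ‖∑ x ∈ range Y, ∑ x' ∈ range Y, ψ (a x * a x')‖ ^ (2 * r)
      ≤ (Y : ℝ) ^ (2 * r - 1) * ∑ x ∈ range Y, ‖f (a x)‖ ^ (2 * r) := by
    have h := pow_sum_le_card_mul_sum_pow (s := range Y) (f := fun x => ‖f (a x)‖)
      (fun _ _ => norm_nonneg _) (2 * r - 1)
    rw [e2r, card_range] at h
    exact (pow_le_pow_left₀ (norm_nonneg _) h1 _).trans h
  have h3 : ∑ x ∈ range Y, ‖f (a x)‖ ^ (2 * r) ≤ ∑ XX ∈ P, ‖f (c XX)‖ := by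
    have e1 : ((∑ x ∈ range Y, ‖f (a x)‖ ^ (2 * r) : ℝ) : ℂ) = ∑ XX ∈ P, f (c XX) := by
      rw [Complex.ofReal_sum]
      rw [hf]
      simp_rw [norm_pow_char]
      rw [Finset.sum_comm]
      refine Finset.sum_congr rfl fun XX _ => Finset.sum_congr rfl fun x _ => ?_
      rw [mul_comm]
    have e2 : ∑ x ∈ range Y, ‖f (a x)‖ ^ (2 * r)
        = ‖((∑ x ∈ range Y, ‖f (a x)‖ ^ (2 * r) : ℝ) : ℂ)‖ := by
      rw [Complex.norm_real, Real.norm_of_nonneg]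
      exact Finset.sum_nonneg fun _ _ => by positivity
    rw [e2, e1]
    exact norm_sum_le _ _
  have h4 : (∑ XX ∈ P, ‖f (c XX)‖) ^ (2 * r)
      ≤ ((Y : ℝ) ^ (2 * r)) ^ (2 * r - 1) * ∑ XX ∈ P, ‖f (c XX)‖ ^ (2 * r) := by
    have h := pow_sum_le_card_mul_sum_pow (s := P) (f := fun XX => ‖f (c XX)‖)
      (fun _ _ => norm_nonneg _) (2 * r - 1)
    rwa [e2r, hPcard] at h
  have h5 : ∑ XX ∈ P, ‖f (c XX)‖ ^ (2 * r) ≤ T * ∑ y : ZMod D, ‖f y‖ ^ (2 * r) := by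
    rw [← Finset.sum_fiberwise_of_maps_to (g := c) (t := Finset.univ) (fun _ _ => Finset.mem_univ _),
      Finset.mul_sum]
    refine Finset.sum_le_sum fun y _ => ?_
    have e1 : ∑ XX ∈ P.filter (fun XX => c XX = y), ‖f (c XX)‖ ^ (2 * r)
        = (#(P.filter fun XX => c XX = y) : ℝ) * ‖f y‖ ^ (2 * r) := by
      rw [← nsmul_eq_mul, ← Finset.sum_const]
      refine Finset.sum_congr rfl fun XX hXX => ?_
      rw [(mem_filter.1 hXX).2]
    rw [e1]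
    apply mul_le_mul_of_nonneg_right _ (by positivity)
    have e2 := card_shift_le (tup r (range Y)) (fun X : Fin r → ℕ => ∑ i, a (X i)) y
    rw [hT]
    have e3 : #(P.filter fun XX => c XX = y) ≤ en r (range Y) a := by
      refine le_trans (Finset.card_le_card ?_) e2
      intro XX hXX
      rw [mem_filter] at hXX ⊢
      refine ⟨hXX.1, ?_⟩
      have := hXX.2
      rw [hc] at this
      simp only at this ⊢
      rw [← this]; ring
    exact_mod_cast e3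
  have h6 : ∑ y : ZMod D, ‖f y‖ ^ (2 * r) = (D : ℝ) * T := sum_norm_pow_char ψ hψ Y r a
  calc (‖∑ x ∈ range Y, ∑ x' ∈ range Y, ψ (a x * a x')‖ ^ (2 * r)) ^ (2 * r)
      ≤ ((Y : ℝ) ^ (2 * r - 1) * ∑ x ∈ range Y, ‖f (a x)‖ ^ (2 * r)) ^ (2 * r) :=
        pow_le_pow_left₀ (by positivity) h2 _
    _ ≤ ((Y : ℝ) ^ (2 * r - 1) * ∑ XX ∈ P, ‖f (c XX)‖) ^ (2 * r) := by
        apply pow_le_pow_left₀ (by positivity)
        exact mul_le_mul_of_nonneg_left h3 (by positivity)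
    _ = ((Y : ℝ) ^ (2 * r - 1)) ^ (2 * r) * (∑ XX ∈ P, ‖f (c XX)‖) ^ (2 * r) := mul_pow _ _ _
    _ ≤ ((Y : ℝ) ^ (2 * r - 1)) ^ (2 * r) * (((Y : ℝ) ^ (2 * r)) ^ (2 * r - 1)
          * (T * ((D : ℝ) * T))) := by
        apply mul_le_mul_of_nonneg_left _ (by positivity)
        refine h4.trans ?_
        apply mul_le_mul_of_nonneg_left _ (by positivity)
        rw [← h6]
        exact h5

end Pool.Agent.H.MP_96e181_an.helper85
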