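import Mathlib
import Pool.Agent.H.MP_96e181_an.helper85.MeanRec

set_option autoImplicit false

/-!
# Vinogradov's mean value theorem (weak explicit form)
-/

namespace Pool.Agent.H.MP_96e181_an.helper85

open Finset

/-- The gain after `k` steps. -/
noncomputable def gain (n k : ℕ) : ℝ := ((n : ℝ) * (n + 1) / 2) * (1 - (1 - 1 / (n : ℝ)) ^ k)

/-- The constant. -/
noncomputable def KB (n ℓ d : ℕ) : ℝ := 8 * (n : ℝ) ^ n * (ℓ : ℝ) ^ (n ^ 2 * (n * d + 2 * n))

theorem gain_zero (n : ℕ) : gain n 0 = 0 := by simp [gain]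

theorem gain_succ (n k : ℕ) (hn : 1 ≤ n) :
    gain n (k + 1) = (1 - 1 / (n : ℝ)) * gain n k + ((n : ℝ) + 1) / 2 := by
  have hn0 : (n : ℝ) ≠ 0 := by positivity
  unfold gain
  rw [pow_succ]
  field_simp
  ring

theorem base_nonneg (n : ℕ) (hn : 1 ≤ n) : 0 ≤ 1 - 1 / (n : ℝ) := by
  have h1 : (1 : ℝ) ≤ n := by exact_mod_cast hn
  have h2 : 1 / (n : ℝ) ≤ 1 := by rw [div_le_one (by linarith)]; exact h1
  linarith

theorem base_le_one (n : ℕ) : 1 - 1 / (n : ℝ) ≤ 1 := by
  have : 0 ≤ 1 / (n : ℝ) := by positivity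
  linarith

theorem gain_nonneg (n k : ℕ) (hn : 1 ≤ n) : 0 ≤ gain n k := by
  unfold gain
  have h := pow_le_one₀ (base_nonneg n hn) (base_le_one n) (n := k)
  have h2 : 0 ≤ 1 - (1 - 1 / (n : ℝ)) ^ k := by linarith
  positivity

theorem gain_le (n k : ℕ) (hn : 1 ≤ n) : gain n k ≤ (n : ℝ) * (n + 1) / 2 := by
  unfold gain
  have h := pow_nonneg (base_nonneg n hn) k
  have h2 : 1 - (1 - 1 / (n : ℝ)) ^ k ≤ 1 := by linarith
  have h3 : (0 : ℝ) ≤ (n : ℝ) * (n + 1) / 2 := by positivity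
  nlinarith

theorem gain_le_sq (n k : ℕ) (hn : 1 ≤ n) : gain n k ≤ (n : ℝ) ^ 2 := by
  have h1 : (1 : ℝ) ≤ n := by exact_mod_cast hn
  have := gain_le n k hn
  nlinarith

theorem gain_le_mul (n k : ℕ) (hn : 1 ≤ n) : gain n k ≤ k * (((n : ℝ) + 1) / 2) := by
  induction k with
  | zero => rw [gain_zero]; simp
  | succ k ih =>
    rw [gain_succ n k hn]
    have h1 := gain_nonneg n k hn
    have h2 := base_le_one n
    push_cast
    nlinarith

theorem one_le_KB (n ℓ d : ℕ) (hn : 1 ≤ n) (hℓ : 1 ≤ ℓ) : 1 ≤ KB n ℓ d := by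
  unfold KB
  have h1 : (1 : ℝ) ≤ (n : ℝ) ^ n := one_le_pow₀ (by exact_mod_cast hn)
  have h2 : (1 : ℝ) ≤ (ℓ : ℝ) ^ (n ^ 2 * (n * d + 2 * n)) := one_le_pow₀ (by exact_mod_cast hℓ)
  nlinarith

theorem mean_value (n : ℕ) (hn : 2 ≤ n) {ℓ : ℕ} (hℓ : ℓ.Prime) (d : ℕ)
    (hd : 256 * n ^ 8 ≤ ℓ ^ d) (k : ℕ) : ∀ s : ℕ,
    (J n (k * n) (ℓ ^ s) : ℝ) ≤ KB n ℓ d ^ k
      * (ℓ : ℝ) ^ ((2 * ((k : ℝ) * n) - gain n k) * (s : ℝ)) := by
  have hn1 : 1 ≤ n := by omega
  have hnR : (2 : ℝ) ≤ n := by exact_mod_cast hn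
  have hℓR : (2 : ℝ) ≤ ℓ := by exact_mod_cast hℓ.two_le
  have hℓ0 : (0 : ℝ) < ℓ := by linarith
  have hℓ1 : (1 : ℝ) ≤ ℓ := by linarith
  have hd1 : 1 ≤ d := by
    rcases Nat.eq_zero_or_pos d with rfl | h
    · exfalso
      have : 1 ≤ n ^ 8 := Nat.one_le_pow _ _ (by omega)
      simp at hd
      omega
    · exact h
  have hB1 := one_le_KB n ℓ d hn1 (by have := hℓ.two_le; omega)
  have hB0 : 0 < KB n ℓ d := by linarith
  induction k with
  | zero =>
    intro s
    rw [gain_zero, zero_mul, J_zero]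
    simp
  | succ k ih =>
    intro s
    induction s using Nat.strong_induction_on with
    | _ s ihs =>
      set gk := gain n k with hgk
      set gk' := gain n (k + 1) with hgk'
      have hg1 : gk' = (1 - 1 / (n : ℝ)) * gk + ((n : ℝ) + 1) / 2 := gain_succ n k hn1
      have hg2 : 0 ≤ gk' := gain_nonneg n (k + 1) hn1
      have hg3 : gk' ≤ (n : ℝ) ^ 2 := gain_le_sq n (k + 1) hn1
      have hg4 : gk' ≤ ((k + 1 : ℕ) : ℝ) * (((n : ℝ) + 1) / 2) := gain_le_mul n (k + 1) hn1
      have hg5 : 0 ≤ gk := gain_nonneg n k hn1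
      have hg6 : gk ≤ (n : ℝ) * (n + 1) / 2 := gain_le n k hn1
      rcases Nat.lt_or_ge s (n * d + 2 * n) with hs | hs
      · -- small `s`
        have h1 : (J n ((k + 1) * n) (ℓ ^ s) : ℝ) ≤ (ℓ : ℝ) ^ ((2 * (((k + 1 : ℕ) : ℝ) * n)) * (s : ℝ)) := by
          have := J_trivial n ((k + 1) * n) (ℓ ^ s)
          have h2 : (J n ((k + 1) * n) (ℓ ^ s) : ℝ) ≤ (((ℓ ^ s) ^ (2 * ((k + 1) * n)) : ℕ) : ℝ) := by
            exact_mod_cast this
          refine h2.trans (le_of_eq ?_)
          push_cast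
          rw [← pow_mul, ← Real.rpow_natCast]
          congr 1
          push_cast
          ring
        refine h1.trans ?_
        have h3 : (2 * (((k + 1 : ℕ) : ℝ) * n)) * (s : ℝ)
            = gk' * s + (2 * (((k + 1 : ℕ) : ℝ) * n) - gk') * (s : ℝ) := by ring
        rw [h3, Real.rpow_add hℓ0]
        apply mul_le_mul_of_nonneg_right _ (Real.rpow_nonneg hℓ0.le _)
        have h4 : gk' * (s : ℝ) ≤ ((n ^ 2 * (n * d + 2 * n) : ℕ) : ℝ) := by
          have : (s : ℝ) ≤ ((n * d + 2 * n : ℕ) : ℝ) := by exact_mod_cast hs.le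
          calc gk' * (s : ℝ) ≤ (n : ℝ) ^ 2 * ((n * d + 2 * n : ℕ) : ℝ) := by
                apply mul_le_mul hg3 this (Nat.cast_nonneg _) (by positivity)
            _ = _ := by push_cast; ring
        have h5 : (ℓ : ℝ) ^ (gk' * (s : ℝ)) ≤ (ℓ : ℝ) ^ (n ^ 2 * (n * d + 2 * n)) := by
          rw [← Real.rpow_natCast]
          exact Real.rpow_le_rpow_of_exponent_le hℓ1 h4
        have h6 : (ℓ : ℝ) ^ (n ^ 2 * (n * d + 2 * n)) ≤ KB n ℓ d := by
          unfold KB
          have h1 : (1 : ℝ) ≤ (n : ℝ) ^ n := one_le_pow₀ (by exact_mod_cast hn1)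
          have h2 : (0 : ℝ) ≤ (ℓ : ℝ) ^ (n ^ 2 * (n * d + 2 * n)) := by positivity
          nlinarith
        have h7 : KB n ℓ d ≤ KB n ℓ d ^ (k + 1) := le_self_pow₀ hB1 (by omega)
        linarith
      · -- large `s`
        set R : ℝ := (ℓ : ℝ) ^ ((2 * (((k + 1 : ℕ) : ℝ) * n) - gk') * (s : ℝ)) with hR
        have hRpos : 0 < R := Real.rpow_pos_of_pos hℓ0 _
        set u := (s + (n * d + n) + (n - 1)) / n with hu
        have hu1 : s + (n * d + n) ≤ u * n := by
          have h1 := Nat.div_add_mod (s + (n * d + n) + (n - 1)) n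
          have h2 := Nat.mod_lt (s + (n * d + n) + (n - 1)) (show 0 < n by omega)
          rw [← hu] at h1
          have h3 : n * u = u * n := mul_comm _ _
          omega
        have hu2 : u * n ≤ s + (n * d + n) + (n - 1) := Nat.div_mul_le_self _ _
        have hus : u ≤ s := by
          by_contra hcon
          push Not at hcon
          have h1 : (s + 1) * n ≤ u * n := Nat.mul_le_mul_right n hcon
          have h2 : (s + 1) * 2 ≤ (s + 1) * n := Nat.mul_le_mul_left _ hn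
          omega
        have hds : d ≤ s := by
          have : d ≤ n * d := Nat.le_mul_of_pos_left d (by omega)
          omega
        have hrec := J_rec n (k * n) hn hℓ d s u hds hus hu1
        have e0 : n + k * n = (k + 1) * n := by ring
        rw [e0] at hrec
        -- the main term
        have hT1 : 4 * ((ℓ : ℝ) ^ (u * (2 * (k * n))) * ((ℓ : ℝ) ^ (s * n)
            * ((n : ℝ) ^ n * (ℓ : ℝ) ^ (u * (n * (n - 1) / 2))) * J n (k * n) (ℓ ^ (s - u))))
            ≤ (KB n ℓ d / 2) * KB n ℓ d ^ k * R := by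
          have h1 := ih (s - u)
          have hcastsu : ((s - u : ℕ) : ℝ) = (s : ℝ) - u := by
            push_cast [Nat.cast_sub hus]; ring
          have hcastn : ((n * (n - 1) / 2 : ℕ) : ℝ) = (n : ℝ) * (n - 1) / 2 := by
            rw [Nat.cast_div (even_iff_two_dvd.1 (Nat.even_mul_pred_self n)) (by norm_num)]
            push_cast [Nat.cast_sub hn1]
            ring
          have h2 : 4 * ((ℓ : ℝ) ^ (u * (2 * (k * n))) * ((ℓ : ℝ) ^ (s * n)
            * ((n : ℝ) ^ n * (ℓ : ℝ) ^ (u * (n * (n - 1) / 2))) * J n (k * n) (ℓ ^ (s - u))))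
            ≤ 4 * ((ℓ : ℝ) ^ (u * (2 * (k * n))) * ((ℓ : ℝ) ^ (s * n)
            * ((n : ℝ) ^ n * (ℓ : ℝ) ^ (u * (n * (n - 1) / 2))) * (KB n ℓ d ^ k
              * (ℓ : ℝ) ^ ((2 * ((k : ℝ) * n) - gk) * (((s - u : ℕ) : ℝ)))))) := by
            gcongr
          refine h2.trans ?_
          have h3 : 4 * ((ℓ : ℝ) ^ (u * (2 * (k * n))) * ((ℓ : ℝ) ^ (s * n)
            * ((n : ℝ) ^ n * (ℓ : ℝ) ^ (u * (n * (n - 1) / 2))) * (KB n ℓ d ^ k
              * (ℓ : ℝ) ^ ((2 * ((k : ℝ) * n) - gk) * (((s - u : ℕ) : ℝ))))))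
              = 4 * (n : ℝ) ^ n * KB n ℓ d ^ k * (ℓ : ℝ) ^ ((u : ℝ) * (2 * (k * n)) + s * n
                + u * (n * (n - 1) / 2) + (2 * ((k : ℝ) * n) - gk) * ((s : ℝ) - u)) := by
            rw [Real.rpow_add hℓ0, Real.rpow_add hℓ0, Real.rpow_add hℓ0, ← hcastsu, ← hcastn]
            rw [← Real.rpow_natCast (ℓ : ℝ) (u * (2 * (k * n))), ← Real.rpow_natCast (ℓ : ℝ) (s * n),
              ← Real.rpow_natCast (ℓ : ℝ) (u * (n * (n - 1) / 2))]
            push_cast
            ring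
          rw [h3]
          have h4 : (u : ℝ) * (2 * (k * n)) + s * n
                + u * (n * (n - 1) / 2) + (2 * ((k : ℝ) * n) - gk) * ((s : ℝ) - u)
              ≤ ((n ^ 2 * (n * d + 2 * n) : ℕ) : ℝ)
                + (2 * (((k + 1 : ℕ) : ℝ) * n) - gk') * (s : ℝ) := by
            have hv1 : 0 ≤ (u : ℝ) * n - s := by
              have : ((s + (n * d + n) : ℕ) : ℝ) ≤ ((u * n : ℕ) : ℝ) := by exact_mod_cast hu1
              push_cast at this
              have h0 : (0 : ℝ) ≤ (n : ℝ) * d + n := by positivity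
              linarith
            have hv2 : (u : ℝ) * n - s ≤ n * d + 2 * n := by
              have : ((u * n : ℕ) : ℝ) ≤ ((s + (n * d + n) + (n - 1) : ℕ) : ℝ) := by
                exact_mod_cast hu2
              push_cast [Nat.cast_sub hn1] at this
              linarith
            have hv3 : ((n : ℝ) - 1) / 2 + gk / n ≤ n := by
              have : gk / n ≤ ((n : ℝ) + 1) / 2 := by
                rw [div_le_iff₀ (by linarith)]
                linarith
              linarith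
            have hv4 : 0 ≤ ((n : ℝ) - 1) / 2 + gk / n := by
              have : 0 ≤ gk / n := by positivity
              linarith
            have hv5 : ((u : ℝ) * n - s) * (((n : ℝ) - 1) / 2 + gk / n) ≤ (n * d + 2 * n) * n := by
              apply mul_le_mul hv2 hv3 hv4
              positivity
            have hv6 : ((n : ℝ) * d + 2 * n) * n ≤ (n : ℝ) ^ 2 * (n * d + 2 * n) := by
              have h0 : (0 : ℝ) ≤ (n : ℝ) * d + 2 * n := by positivity
              nlinarith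
            rw [hg1]
            push_cast
            have hid : (n : ℝ) ^ 2 * (n * d + 2 * n)
                + (2 * (((k : ℝ) + 1) * n) - ((1 - 1 / (n : ℝ)) * gk + ((n : ℝ) + 1) / 2)) * (s : ℝ)
                - ((u : ℝ) * (2 * (k * n)) + s * n
                + u * (n * (n - 1) / 2) + (2 * ((k : ℝ) * n) - gk) * ((s : ℝ) - u))
                = (n : ℝ) ^ 2 * (n * d + 2 * n) - ((u : ℝ) * n - s) * (((n : ℝ) - 1) / 2 + gk / n) := by
              field_simp
              ring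
            linarith
          have h5 := Real.rpow_le_rpow_of_exponent_le hℓ1 h4
          rw [Real.rpow_add hℓ0 ((n ^ 2 * (n * d + 2 * n) : ℕ) : ℝ) _, Real.rpow_natCast] at h5
          calc _ ≤ 4 * (n : ℝ) ^ n * KB n ℓ d ^ k * ((ℓ : ℝ) ^ (n ^ 2 * (n * d + 2 * n)) * R) := by
                apply mul_le_mul_of_nonneg_left h5
                positivity
            _ = _ := by
                unfold KB
                ring
        -- the second term
        have hT2 : (2 * (n : ℝ) ^ 2) ^ ((k + 1) * n) * (ℓ : ℝ) ^ (d * ((k + 1) * n))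
            * J n ((k + 1) * n) (ℓ ^ (s - d)) ≤ KB n ℓ d ^ (k + 1) * R / 2 := by
          have h1 := ihs (s - d) (by omega)
          set N : ℕ := (k + 1) * n with hN
          have hN1 : 1 ≤ N := by rw [hN]; exact Nat.one_le_iff_ne_zero.2 (by positivity)
          have hNR : (N : ℝ) = ((k + 1 : ℕ) : ℝ) * n := by rw [hN]; push_cast; ring
          have hcast : ((s - d : ℕ) : ℝ) = (s : ℝ) - d := by
            push_cast [Nat.cast_sub hds]; ring
          have h2 : (2 * (n : ℝ) ^ 2) ^ N * (ℓ : ℝ) ^ (d * N) * J n N (ℓ ^ (s - d))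
              ≤ (2 * (n : ℝ) ^ 2) ^ N * (ℓ : ℝ) ^ (d * N) * (KB n ℓ d ^ (k + 1)
                * (ℓ : ℝ) ^ ((2 * (((k + 1 : ℕ) : ℝ) * n) - gk') * (((s - d : ℕ) : ℝ)))) := by
            gcongr
          refine h2.trans ?_
          rw [hcast, ← hNR]
          have h3 : (2 * (n : ℝ) ^ 2) ^ N * (ℓ : ℝ) ^ (d * N) * (KB n ℓ d ^ (k + 1)
                * (ℓ : ℝ) ^ ((2 * (N : ℝ) - gk') * ((s : ℝ) - d)))
              = KB n ℓ d ^ (k + 1) * R * ((2 * (n : ℝ) ^ 2) ^ N
                * (ℓ : ℝ) ^ (-(d : ℝ) * ((N : ℝ) - gk'))) := by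
            have : (2 * (N : ℝ) - gk') * ((s : ℝ) - d)
                = (2 * (N : ℝ) - gk') * s + (-((d : ℝ) * N) + (-(d : ℝ) * ((N : ℝ) - gk'))) := by ring
            rw [this, Real.rpow_add hℓ0, Real.rpow_add hℓ0, Real.rpow_neg hℓ0.le]
            have e1 : (ℓ : ℝ) ^ (d * N) = (ℓ : ℝ) ^ ((d : ℝ) * N) := by
              rw [← Real.rpow_natCast]; push_cast; rfl
            rw [e1, hR, ← hNR]
            have e2 : (ℓ : ℝ) ^ ((d : ℝ) * N) ≠ 0 := (Real.rpow_pos_of_pos hℓ0 _).ne'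
            field_simp
          rw [h3]
          have h4 : (2 * (n : ℝ) ^ 2) ^ N * (ℓ : ℝ) ^ (-(d : ℝ) * ((N : ℝ) - gk')) ≤ 1 / 2 := by
            have h5 : gk' ≤ (3 / 4) * N := by
              rw [hNR]
              have : ((n : ℝ) + 1) / 2 ≤ (3 / 4) * n := by linarith
              have h0 : (0 : ℝ) ≤ ((k + 1 : ℕ) : ℝ) := Nat.cast_nonneg _
              nlinarith
            have h6 : (ℓ : ℝ) ^ (-(d : ℝ) * ((N : ℝ) - gk')) ≤ (ℓ : ℝ) ^ (-((d : ℝ) / 4) * N) := by
              apply Real.rpow_le_rpow_of_exponent_le hℓ1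
              have h0 : (0 : ℝ) ≤ d := Nat.cast_nonneg _
              nlinarith
            have h7 : (ℓ : ℝ) ^ (-((d : ℝ) / 4) * N) = (((ℓ : ℝ) ^ ((d : ℝ) / 4))⁻¹) ^ N := by
              rw [Real.rpow_mul hℓ0.le, Real.rpow_neg hℓ0.le, Real.rpow_natCast]
            have h8 : 4 * (n : ℝ) ^ 2 ≤ (ℓ : ℝ) ^ ((d : ℝ) / 4) := by
              have h9 : ((4 * (n : ℝ) ^ 2) ^ (4 : ℕ)) ≤ (ℓ : ℝ) ^ d := by
                have : ((256 * n ^ 8 : ℕ) : ℝ) ≤ ((ℓ ^ d : ℕ) : ℝ) := by exact_mod_cast hd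
                push_cast at this
                refine le_trans (le_of_eq ?_) this
                ring
              have h10 : (ℓ : ℝ) ^ d = ((ℓ : ℝ) ^ ((d : ℝ) / 4)) ^ (4 : ℕ) := by
                rw [← Real.rpow_natCast ((ℓ : ℝ) ^ ((d : ℝ) / 4)) 4, ← Real.rpow_mul hℓ0.le,
                  ← Real.rpow_natCast]
                congr 1
                push_cast
                ring
              rw [h10] at h9
              exact le_of_pow_le_pow_left₀ (by norm_num) (Real.rpow_nonneg hℓ0.le _) h9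
            have h11 : (2 * (n : ℝ) ^ 2) ^ N * (ℓ : ℝ) ^ (-((d : ℝ) / 4) * N) ≤ (1 / 2) ^ N := by
              rw [h7, ← mul_pow]
              apply pow_le_pow_left₀ (by positivity)
              rw [← div_eq_mul_inv, div_le_iff₀ (by positivity)]
              linarith
            have h12 : ((1 : ℝ) / 2) ^ N ≤ 1 / 2 := by
              calc ((1 : ℝ) / 2) ^ N ≤ (1 / 2) ^ 1 :=
                    pow_le_pow_of_le_one (by norm_num) (by norm_num) hN1
                _ = 1 / 2 := by norm_num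
            have h13 : (2 * (n : ℝ) ^ 2) ^ N * (ℓ : ℝ) ^ (-(d : ℝ) * ((N : ℝ) - gk'))
                ≤ (2 * (n : ℝ) ^ 2) ^ N * (ℓ : ℝ) ^ (-((d : ℝ) / 4) * N) :=
              mul_le_mul_of_nonneg_left h6 (by positivity)
            linarith
          have h14 : 0 ≤ KB n ℓ d ^ (k + 1) * R := by positivity
          nlinarith
        refine hrec.trans ((add_le_add hT1 hT2).trans (le_of_eq ?_))
        rw [pow_succ]
        ring

end Pool.Agent.H.MP_96e181_an.helper85
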