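import Mathlib
import Pool.Agent.H.MP_96e181_an.helper85.MeanValue
import Pool.Agent.H.MP_96e181_an.helper85.Bilinear

set_option autoImplicit false

/-!
# Putting the parameters together
-/

namespace Pool.Agent.H.MP_96e181_an.helper85

open Finset

theorem md_le (D P k : ℕ) (hD : 0 < D) : md D P k ≤ Nat.gcd D P := by
  have h1 : Nat.gcd D (P ^ k) * md D P k ∣ Nat.gcd D (P ^ k) * Nat.gcd D P := by
    rw [md_mul, pow_succ]
    exact Nat.gcd_mul_right_dvd_mul_gcd D (P ^ k) P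
  have h2 := Nat.dvd_of_mul_dvd_mul_left (Nat.gcd_pos_of_pos_left _ hD) h1
  exact Nat.le_of_dvd (Nat.gcd_pos_of_pos_left _ hD) h2

theorem factor_le (r X k m : ℕ) (hr : 1 ≤ r) (hX : 1 ≤ X ^ k) :
    2 * (r * X ^ k) / m + 1 ≤ 3 * r * X ^ k := by
  have h1 : 2 * (r * X ^ k) / m ≤ 2 * (r * X ^ k) := Nat.div_le_self _ _
  have h2 : 1 ≤ r * X ^ k := Nat.one_le_iff_ne_zero.2 (mul_ne_zero (by omega) (by omega))
  have h3 : 3 * r * X ^ k = 3 * (r * X ^ k) := by ring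
  omega

theorem factor_mul_le (r X k m : ℕ) (hr : 1 ≤ r) (hm : m ≤ X ^ k) :
    (2 * (r * X ^ k) / m + 1) * m ≤ 3 * r * X ^ k := by
  have h1 : 2 * (r * X ^ k) / m * m ≤ 2 * (r * X ^ k) := Nat.div_mul_le_self _ _
  have h2 : m ≤ r * X ^ k := hm.trans (Nat.le_mul_of_pos_left _ hr)
  have h3 : 3 * r * X ^ k = 3 * (r * X ^ k) := by ring
  rw [add_mul, one_mul]
  omega

theorem prod_le_aux (D P r X : ℕ) (hr : 1 ≤ r) (hX : 1 ≤ X) (N : ℕ) :
    ∏ i ∈ range N, (2 * (r * X ^ (i + 1)) / md D P (i + 1) + 1)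
      ≤ (3 * r) ^ N * X ^ (∑ i ∈ range N, (i + 1)) := by
  induction N with
  | zero => simp
  | succ N ih =>
    rw [Finset.prod_range_succ, Finset.sum_range_succ]
    calc _ ≤ ((3 * r) ^ N * X ^ (∑ i ∈ range N, (i + 1))) * (3 * r * X ^ (N + 1)) :=
          Nat.mul_le_mul ih (factor_le r X (N + 1) _ hr (Nat.one_le_pow _ _ hX))
      _ = _ := by rw [pow_add]; ring

/-- The number of exponent vectors. -/
theorem prod_bound (D P r X κ W V : ℕ) (hD : 0 < D) (hr : 1 ≤ r) (hX : 1 ≤ X) (hκ : 1 ≤ κ)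
    (hW : Nat.gcd D P ≤ W) (hWX : W ≤ X ^ κ) (hV : Nat.gcd D (P ^ κ) ≤ V) (N : ℕ)
    (hN : κ ≤ N + 1) :
    (∏ i ∈ range N, (2 * (r * X ^ (i + 1)) / md D P (i + 1) + 1)) * Nat.gcd D (P ^ (N + 1))
      ≤ (3 * r) ^ N * X ^ (∑ i ∈ range N, (i + 1)) * V := by
  obtain ⟨κ', rfl⟩ : ∃ κ', κ = κ' + 1 := ⟨κ - 1, by omega⟩
  have hN' : κ' ≤ N := by omega
  induction N, hN' using Nat.le_induction with
  | base =>
    exact Nat.mul_le_mul (prod_le_aux D P r X hr hX κ') hV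
  | succ N hN ih =>
    have ih' := ih (by omega)
    rw [Finset.prod_range_succ, Finset.sum_range_succ, ← md_mul]
    have h1 : md D P (N + 1) ≤ X ^ (N + 1) := by
      refine (md_le D P (N + 1) hD).trans (hW.trans (hWX.trans ?_))
      exact Nat.pow_le_pow_right hX (by omega)
    have h2 := factor_mul_le r X (N + 1) (md D P (N + 1)) hr h1
    calc _ = ((∏ i ∈ range N, (2 * (r * X ^ (i + 1)) / md D P (i + 1) + 1))
            * Nat.gcd D (P ^ (N + 1)))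
          * ((2 * (r * X ^ (N + 1)) / md D P (N + 1) + 1) * md D P (N + 1)) := by ring
      _ ≤ ((3 * r) ^ N * X ^ (∑ i ∈ range N, (i + 1)) * V) * (3 * r * X ^ (N + 1)) :=
          Nat.mul_le_mul ih' h2
      _ = _ := by rw [pow_add]; ring

/-- The energy bound, with natural numbers. -/
theorem energy_nat (D P Rt n r X v κ W V : ℕ) (hD : 0 < D) (hRt : 0 < Rt) (hDP : D ∣ P ^ (n + 1))
    (hv : Nat.Coprime v D) (hvP : v ^ Rt = 1 + P) (hr : 1 ≤ r) (hX : 1 ≤ X) (hκ : 1 ≤ κ)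
    (hκn : κ ≤ n + 1) (hW : Nat.gcd D P ≤ W) (hWX : W ≤ X ^ κ) (hV : Nat.gcd D (P ^ κ) ≤ V) :
    (en r (range (Rt * X)) (fun x : ℕ => (v : ZMod D) ^ x) : ℝ) * D ≤ (Rt : ℝ) ^ (2 * r)
      * ((3 * r : ℝ) ^ n * (X : ℝ) ^ (∑ i ∈ range n, (i + 1)) * V * (J n r X : ℝ)) := by
  have h1 := en_pow_le D P Rt n r X v hD hRt hDP hv hvP
  have h2 := prod_bound D P r X κ W V hD hr hX hκ hW hWX hV n hκn
  rw [Nat.gcd_eq_left hDP] at h2
  set Q := ∏ i ∈ range n, (2 * (r * X ^ (i + 1)) / md D P (i + 1) + 1) with hQ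
  have h2' : (Q : ℝ) * D ≤ (3 * r : ℝ) ^ n * (X : ℝ) ^ (∑ i ∈ range n, (i + 1)) * V := by
    exact_mod_cast h2
  calc _ ≤ ((Rt : ℝ) ^ (2 * r) * ((Q * J n r X : ℕ) : ℝ)) * D :=
        mul_le_mul_of_nonneg_right h1 (Nat.cast_nonneg _)
    _ = (Rt : ℝ) ^ (2 * r) * ((Q : ℝ) * D * (J n r X : ℝ)) := by push_cast; ring
    _ ≤ _ := by
        apply mul_le_mul_of_nonneg_left _ (by positivity)
        exact mul_le_mul_of_nonneg_right h2' (Nat.cast_nonneg _)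

theorem sum_range_succ_id (n : ℕ) : ((∑ i ∈ range n, (i + 1) : ℕ) : ℝ) = (n : ℝ) * (n + 1) / 2 := by
  induction n with
  | zero => simp
  | succ n ih =>
    rw [Finset.sum_range_succ]
    push_cast at ih ⊢
    rw [ih]; ring

theorem base_pow_le_half (n : ℕ) (hn : 1 ≤ n) : (1 - 1 / (n : ℝ)) ^ n ≤ 1 / 2 := by
  have h0 : (0 : ℝ) < n := by exact_mod_cast hn
  have h1 : (2 : ℝ) ≤ (1 + 1 / (n : ℝ)) ^ n := by
    have := one_add_mul_le_pow (a := 1 / (n : ℝ)) (by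
      have : 0 ≤ 1 / (n : ℝ) := by positivity
      linarith) n
    have h2 : (n : ℝ) * (1 / n) = 1 := by field_simp
    rw [h2] at this
    linarith
  have h2 : (1 - 1 / (n : ℝ)) ^ n * (1 + 1 / (n : ℝ)) ^ n ≤ 1 := by
    rw [← mul_pow]
    apply pow_le_one₀
    · apply mul_nonneg (base_nonneg n hn) (by positivity)
    · have : 0 ≤ (1 / (n : ℝ)) ^ 2 := by positivity
      nlinarith
  have h3 : 0 ≤ (1 - 1 / (n : ℝ)) ^ n := pow_nonneg (base_nonneg n hn) n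
  nlinarith

/-- What is lost in the mean value theorem after `c n` steps. -/
theorem loss_le (n c : ℕ) (hn : 1 ≤ n) :
    (n : ℝ) * (n + 1) / 2 - gain n (c * n) ≤ ((n : ℝ) * (n + 1) / 2) * (1 / 2) ^ c := by
  unfold gain
  have h1 : (1 - 1 / (n : ℝ)) ^ (c * n) ≤ (1 / 2) ^ c := by
    rw [mul_comm, pow_mul]
    exact pow_le_pow_left₀ (pow_nonneg (base_nonneg n hn) n) (base_pow_le_half n hn) c
  have h2 : (0 : ℝ) ≤ (n : ℝ) * (n + 1) / 2 := by positivity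
  nlinarith

/-- The constant `KB` for `ℓ = 2` and `d = 8 λ + 8`. -/
theorem KB_le (n lam : ℕ) (hn : 1 ≤ n) (hlam : 1 ≤ lam) (hnl : n ≤ 2 ^ lam) :
    KB n 2 (8 * lam + 8) ≤ (2 : ℝ) ^ (22 * lam * n ^ 3) := by
  unfold KB
  have h1 : (n : ℝ) ^ n ≤ (2 : ℝ) ^ (lam * n) := by
    have : ((n ^ n : ℕ) : ℝ) ≤ (((2 ^ lam) ^ n : ℕ) : ℝ) := by
      exact_mod_cast Nat.pow_le_pow_left hnl n
    push_cast at this
    rwa [← pow_mul] at this
  have h2 : (8 : ℝ) * (n : ℝ) ^ n * ((2 : ℕ) : ℝ) ^ (n ^ 2 * (n * (8 * lam + 8) + 2 * n))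
      ≤ (2 : ℝ) ^ (3 + lam * n + n ^ 2 * (n * (8 * lam + 8) + 2 * n)) := by
    rw [pow_add, pow_add]
    have h3 : (8 : ℝ) = 2 ^ 3 := by norm_num
    rw [h3]
    push_cast
    gcongr
  refine h2.trans ?_
  apply pow_le_pow_right₀ (by norm_num)
  have h3 : 1 ≤ lam * n ^ 3 := Nat.one_le_iff_ne_zero.2 (by positivity)
  have h4 : lam * n ≤ lam * n ^ 3 := Nat.mul_le_mul_left _ (Nat.le_self_pow (by norm_num) n)
  have h5 : n ^ 3 ≤ lam * n ^ 3 := Nat.le_mul_of_pos_left _ (by omega)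
  have h6 : n ^ 2 * (n * (8 * lam + 8) + 2 * n) = 8 * (lam * n ^ 3) + 10 * n ^ 3 := by ring
  have h7 : 22 * lam * n ^ 3 = 22 * (lam * n ^ 3) := by ring
  rw [h6, h7]
  omega

/-- The energy bound with all parameters chosen. -/
theorem energy_final (D P R v t n lam c gam C0 rho kap s : ℕ) (hD : 0 < D) (hR : 2 ≤ R)
    (hrho : 1 ≤ rho) (hRrho : R ≤ 2 ^ rho) (hDP : D ∣ P ^ (n + 1)) (hv : Nat.Coprime v D)
    (hvP : v ^ (R ^ t) = 1 + P) (hn : 8 * rho ≤ n) (hc : 1 ≤ c) (hgam : 3 * c ≤ 2 ^ gam)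
    (hlam : 1 ≤ lam) (hnl : n ≤ 2 ^ lam) (hC0 : C0 ≤ t) (hkap : kap = n / (8 * rho))
    (hs : s = 2 * rho * t / kap + 1)
    (hgcd : ∀ k, Nat.gcd D (P ^ k) ≤ R ^ ((t + C0) * k)) :
    (en (c * n * n) (range (R ^ t * 2 ^ s)) (fun x : ℕ => (v : ZMod D) ^ x) : ℝ) * D
      ≤ ((R ^ t * 2 ^ s : ℕ) : ℝ) ^ (2 * (c * n * n)) * (2 : ℝ) ^ (((n * (gam + 2 * lam)
        + 2 * rho * t * kap + c * n * (22 * lam * n ^ 3) : ℕ) : ℝ)
        + ((n : ℝ) * (n + 1) / 2) * (1 / 2) ^ c * s) := by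
  have hn1 : 1 ≤ n := by
    have : 8 * 1 ≤ 8 * rho := Nat.mul_le_mul_left _ hrho
    omega
  have hn2 : 2 ≤ n := by
    have : 8 * 1 ≤ 8 * rho := Nat.mul_le_mul_left _ hrho
    omega
  have hkap1 : 1 ≤ kap := by
    rw [hkap]
    exact Nat.div_pos hn (by omega)
  have hkapn : kap ≤ n := by rw [hkap]; exact Nat.div_le_self _ _
  set r := c * n * n with hr
  have hr1 : 1 ≤ r := Nat.one_le_iff_ne_zero.2 (by rw [hr]; positivity)
  have hskap : 2 * rho * t ≤ s * kap := by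
    have h1 := Nat.div_add_mod (2 * rho * t) kap
    have h2 := Nat.mod_lt (2 * rho * t) (show 0 < kap by omega)
    rw [hs, add_mul, one_mul, mul_comm (2 * rho * t / kap) kap]
    omega
  have hRpow : ∀ j : ℕ, R ^ j ≤ 2 ^ (rho * j) := by
    intro j
    rw [pow_mul]
    exact Nat.pow_le_pow_left hRrho j
  have hWX : R ^ (t + C0) ≤ (2 ^ s) ^ kap := by
    refine (hRpow _).trans ?_
    rw [← pow_mul]
    apply Nat.pow_le_pow_right (by norm_num)
    calc rho * (t + C0) ≤ rho * (2 * t) := Nat.mul_le_mul_left _ (by omega)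
      _ = 2 * rho * t := by ring
      _ ≤ s * kap := hskap
  have hE := energy_nat D P (R ^ t) n r (2 ^ s) v kap (R ^ (t + C0)) (R ^ ((t + C0) * kap)) hD
    (Nat.pow_pos (by omega)) hDP hv hvP hr1 (Nat.one_le_two_pow) hkap1 (by omega)
    (by simpa using hgcd 1) hWX (hgcd kap)
  refine hE.trans ?_
  -- the individual factors
  have f1 : (3 * (r : ℝ)) ^ n ≤ (2 : ℝ) ^ (n * (gam + 2 * lam)) := by
    have h1 : 3 * r ≤ 2 ^ (gam + 2 * lam) := by
      calc 3 * r = (3 * c) * (n * n) := by rw [hr]; ring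
        _ ≤ 2 ^ gam * (2 ^ lam * 2 ^ lam) := Nat.mul_le_mul hgam (Nat.mul_le_mul hnl hnl)
        _ = _ := by rw [pow_add, ← pow_add]; congr 2; ring
    have h2 : (((3 * r) ^ n : ℕ) : ℝ) ≤ (((2 ^ (gam + 2 * lam)) ^ n : ℕ) : ℝ) := by
      exact_mod_cast Nat.pow_le_pow_left h1 n
    push_cast at h2
    rw [← pow_mul, mul_comm (gam + 2 * lam) n] at h2
    exact h2
  have f2 : ((R ^ ((t + C0) * kap) : ℕ) : ℝ) ≤ (2 : ℝ) ^ (2 * rho * t * kap) := by
    have h1 : R ^ ((t + C0) * kap) ≤ 2 ^ (2 * rho * t * kap) := by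
      refine (hRpow _).trans (Nat.pow_le_pow_right (by norm_num) ?_)
      calc rho * ((t + C0) * kap) ≤ rho * (2 * t * kap) :=
            Nat.mul_le_mul_left _ (Nat.mul_le_mul_right _ (by omega))
        _ = _ := by ring
    exact_mod_cast h1
  have hd : 256 * n ^ 8 ≤ 2 ^ (8 * lam + 8) := by
    calc 256 * n ^ 8 ≤ 256 * (2 ^ lam) ^ 8 := Nat.mul_le_mul_left _ (Nat.pow_le_pow_left hnl 8)
      _ = _ := by rw [← pow_mul, pow_add]; ring
  have hMV := mean_value n hn2 Nat.prime_two (8 * lam + 8) hd (c * n) s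
  have f3 : KB n 2 (8 * lam + 8) ^ (c * n) ≤ (2 : ℝ) ^ (c * n * (22 * lam * n ^ 3)) := by
    have h0 : 0 ≤ KB n 2 (8 * lam + 8) := by linarith [one_le_KB n 2 (8 * lam + 8) hn1 (by norm_num)]
    refine (pow_le_pow_left₀ h0 (KB_le n lam hn1 hlam hnl) _).trans (le_of_eq ?_)
    rw [← pow_mul]; congr 1; ring
  have f4 : ((2 ^ s : ℕ) : ℝ) ^ (∑ i ∈ range n, (i + 1))
      = (2 : ℝ) ^ ((s : ℝ) * ((n : ℝ) * (n + 1) / 2)) := by
    rw [← sum_range_succ_id, ← Real.rpow_natCast]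
    push_cast
    rw [← Real.rpow_natCast, ← Real.rpow_mul (by norm_num)]
  have hL := loss_le n c hn1
  calc ((R ^ t : ℕ) : ℝ) ^ (2 * r) * ((3 * r : ℝ) ^ n * ((2 ^ s : ℕ) : ℝ) ^ (∑ i ∈ range n, (i + 1))
        * ((R ^ ((t + C0) * kap) : ℕ) : ℝ) * (J n r (2 ^ s) : ℝ))
      ≤ ((R ^ t : ℕ) : ℝ) ^ (2 * r) * ((2 : ℝ) ^ (n * (gam + 2 * lam))
        * (2 : ℝ) ^ ((s : ℝ) * ((n : ℝ) * (n + 1) / 2)) * (2 : ℝ) ^ (2 * rho * t * kap)
        * ((2 : ℝ) ^ (c * n * (22 * lam * n ^ 3))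
          * (2 : ℝ) ^ ((2 * (((c * n : ℕ) : ℝ) * n) - gain n (c * n)) * (s : ℝ)))) := by
        rw [f4]
        have hMV' : (J n r (2 ^ s) : ℝ) ≤ (2 : ℝ) ^ (c * n * (22 * lam * n ^ 3))
          * (2 : ℝ) ^ ((2 * (((c * n : ℕ) : ℝ) * n) - gain n (c * n)) * (s : ℝ)) := by
          refine hMV.trans ?_
          push_cast
          exact mul_le_mul_of_nonneg_right f3 (Real.rpow_nonneg (by norm_num) _)
        gcongr
    _ = ((R ^ t * 2 ^ s : ℕ) : ℝ) ^ (2 * r) * (2 : ℝ) ^ (((n * (gam + 2 * lam)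
        + 2 * rho * t * kap + c * n * (22 * lam * n ^ 3) : ℕ) : ℝ)
        + ((n : ℝ) * (n + 1) / 2 - gain n (c * n)) * s) := by
        have e1 : ((R ^ t * 2 ^ s : ℕ) : ℝ) ^ (2 * r)
            = ((R ^ t : ℕ) : ℝ) ^ (2 * r) * (2 : ℝ) ^ ((s : ℝ) * (2 * r)) := by
          push_cast
          rw [mul_pow]
          congr 1
          rw [← Real.rpow_natCast (2 : ℝ) s, ← Real.rpow_natCast ((2 : ℝ) ^ (s : ℝ)),
            ← Real.rpow_mul (by norm_num)]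
          push_cast
          rfl
        rw [e1]
        have hr' : (r : ℝ) = ((c * n : ℕ) : ℝ) * n := by rw [hr]; push_cast; ring
        rw [hr']
        rw [← Real.rpow_natCast (2 : ℝ) (n * (gam + 2 * lam)),
          ← Real.rpow_natCast (2 : ℝ) (2 * rho * t * kap),
          ← Real.rpow_natCast (2 : ℝ) (c * n * (22 * lam * n ^ 3))]
        rw [mul_assoc ((((R ^ t : ℕ) : ℝ)) ^ (2 * r))]
        congr 1
        rw [← Real.rpow_add (by norm_num), ← Real.rpow_add (by norm_num),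
          ← Real.rpow_add (by norm_num), ← Real.rpow_add (by norm_num),
          ← Real.rpow_add (by norm_num)]
        congr 1
        push_cast
        ring
    _ ≤ _ := by
        apply mul_le_mul_of_nonneg_left _ (by positivity)
        apply Real.rpow_le_rpow_of_exponent_le (by norm_num)
        have : ((n : ℝ) * (n + 1) / 2 - gain n (c * n)) * s
            ≤ ((n : ℝ) * (n + 1) / 2) * (1 / 2) ^ c * s :=
          mul_le_mul_of_nonneg_right hL (Nat.cast_nonneg _)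
        linarith

end Pool.Agent.H.MP_96e181_an.helper85
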