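import Mathlib
import Pool.Agent.H.MP_96e181_an.helper85.Param

set_option autoImplicit false

/-!
# The bound for the bilinear sum
-/

namespace Pool.Agent.H.MP_96e181_an.helper85

open Finset

/-- The inequality between the exponents. -/
theorem expo_ineq (rho n t gam lam c e kap s : ℕ) (hrho : 1 ≤ rho) (hn : 8 * rho ≤ n)
    (hlam : 1 ≤ lam) (hkap : kap = n / (8 * rho)) (hs : s = 2 * rho * t / kap + 1)
    (hc : 528 * rho ^ 2 ≤ 2 ^ c)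
    (hC1 : (8 * gam + 16 + 176 * c + 16 * c ^ 2 * e) * (lam * n ^ 3) ≤ t) :
    2 * (((n * (gam + 2 * lam) + 2 * rho * t * kap + c * n * (22 * lam * n ^ 3) : ℕ) : ℝ)
      + ((n : ℝ) * (n + 1) / 2) * (1 / 2) ^ c * s) + 4 * ((c * n * n : ℕ) : ℝ) ^ 2 * e
      ≤ (t : ℝ) * n := by
  have hn1 : 1 ≤ n := by omega
  have hkap1 : 1 ≤ kap := by
    rw [hkap]
    exact Nat.div_pos hn (by omega)
  have k1 : 8 * rho * kap ≤ n := by
    rw [hkap]; exact Nat.mul_div_le _ _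
  have k2 : n ≤ 16 * rho * kap := by
    have h1 := Nat.lt_mul_div_succ n (show 0 < 8 * rho by omega)
    rw [← hkap] at h1
    have h2 : 8 * rho * (kap + 1) ≤ 16 * rho * kap := by nlinarith
    omega
  have k3 : s * kap ≤ 2 * rho * t + kap := by
    rw [hs, add_mul, one_mul]
    have := Nat.div_mul_le_self (2 * rho * t) kap
    omega
  have hnt : n ≤ t := by
    have h1 : 1 ≤ 8 * gam + 16 + 176 * c + 16 * c ^ 2 * e := by omega
    calc n ≤ n ^ 3 := Nat.le_self_pow (by norm_num) n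
      _ ≤ lam * n ^ 3 := Nat.le_mul_of_pos_left _ (by omega)
      _ ≤ (8 * gam + 16 + 176 * c + 16 * c ^ 2 * e) * (lam * n ^ 3) :=
          Nat.le_mul_of_pos_left _ (by omega)
      _ ≤ t := hC1
  -- pass to reals
  have R1 : (1 : ℝ) ≤ rho := by exact_mod_cast hrho
  have N1 : (1 : ℝ) ≤ n := by exact_mod_cast hn1
  have L1 : (1 : ℝ) ≤ lam := by exact_mod_cast hlam
  have K0 : (0 : ℝ) ≤ kap := Nat.cast_nonneg _
  have S0 : (0 : ℝ) ≤ s := Nat.cast_nonneg _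
  have T0 : (0 : ℝ) ≤ t := Nat.cast_nonneg _
  have G0 : (0 : ℝ) ≤ gam := Nat.cast_nonneg _
  have c0 : (0 : ℝ) ≤ c := Nat.cast_nonneg _
  have e0 : (0 : ℝ) ≤ e := Nat.cast_nonneg _
  have k1' : 8 * (rho : ℝ) * kap ≤ n := by exact_mod_cast k1
  have k2' : (n : ℝ) ≤ 16 * rho * kap := by exact_mod_cast k2
  have k3' : (s : ℝ) * kap ≤ 2 * rho * t + kap := by exact_mod_cast k3
  have hnt' : (n : ℝ) ≤ t := by exact_mod_cast hnt
  have hC1' : (8 * (gam : ℝ) + 16 + 176 * c + 16 * c ^ 2 * e) * (lam * n ^ 3) ≤ t := by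
    exact_mod_cast hC1
  have hc' : 528 * (rho : ℝ) ^ 2 ≤ 2 ^ c := by exact_mod_cast hc
  -- part 1
  have p1 : 4 * (rho : ℝ) * t * kap ≤ t * n / 2 := by nlinarith
  -- part 2
  have q1 : (s : ℝ) * n ≤ 32 * rho ^ 2 * t + 2 * n := by
    have h1 : (s : ℝ) * n ≤ s * (16 * rho * kap) := mul_le_mul_of_nonneg_left k2' S0
    have h2 : (s : ℝ) * (16 * rho * kap) = 16 * rho * (s * kap) := by ring
    have h3 : 16 * (rho : ℝ) * (s * kap) ≤ 16 * rho * (2 * rho * t + kap) :=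
      mul_le_mul_of_nonneg_left k3' (by positivity)
    nlinarith
  have q2 : (n : ℝ) * (n + 1) * s ≤ 68 * rho ^ 2 * (t * n) := by
    have h1 : (n : ℝ) * (n + 1) * s = (n + 1) * (s * n) := by ring
    have h2 : ((n : ℝ) + 1) * (s * n) ≤ (n + 1) * (32 * rho ^ 2 * t + 2 * n) :=
      mul_le_mul_of_nonneg_left q1 (by positivity)
    have h3 : ((n : ℝ) + 1) * (32 * rho ^ 2 * t + 2 * n) ≤ (2 * n) * (32 * rho ^ 2 * t + 2 * n) :=
      mul_le_mul_of_nonneg_right (by linarith) (by positivity)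
    have h4 : (2 * (n : ℝ)) * (32 * rho ^ 2 * t + 2 * n) = 64 * rho ^ 2 * (t * n) + 4 * n * n := by
      ring
    have h5 : 4 * (n : ℝ) * n ≤ 4 * t * n := by nlinarith
    have h6 : 4 * (t : ℝ) * n ≤ 4 * rho ^ 2 * (t * n) := by
      have : (1 : ℝ) ≤ (rho : ℝ) ^ 2 := by nlinarith
      have h7 : 0 ≤ (t : ℝ) * n := by positivity
      nlinarith
    linarith
  have q3 : (n : ℝ) * (n + 1) * s * (1 / 2) ^ c ≤ t * n / 4 := by
    have hpos : (0 : ℝ) < 2 ^ c := by positivity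
    rw [one_div, inv_pow, ← div_eq_mul_inv, div_le_iff₀ hpos]
    have h7 : 0 ≤ (t : ℝ) * n := by positivity
    have h8 : 528 * (rho : ℝ) ^ 2 * (t * n) ≤ 2 ^ c * (t * n) := mul_le_mul_of_nonneg_right hc' h7
    have h9 : 0 ≤ (rho : ℝ) ^ 2 * (t * n) := by positivity
    nlinarith
  -- part 3
  have r1 : (8 * (gam : ℝ) + 16 + 176 * c + 16 * c ^ 2 * e) * (lam * n ^ 3) * n ≤ t * n :=
    mul_le_mul_of_nonneg_right hC1' (by linarith)
  have r2 : (n : ℝ) ≤ lam * n ^ 4 := by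
    have h1 : (n : ℝ) ≤ n ^ 4 := le_self_pow₀ N1 (by norm_num)
    have h2 : (0 : ℝ) ≤ n ^ 4 := by positivity
    nlinarith
  have r3 : (lam : ℝ) * n ≤ lam * n ^ 4 := by
    have h1 : (n : ℝ) ≤ n ^ 4 := le_self_pow₀ N1 (by norm_num)
    exact mul_le_mul_of_nonneg_left h1 (by linarith)
  have r4 : (n : ℝ) ^ 4 ≤ lam * n ^ 4 := by
    have h2 : (0 : ℝ) ≤ n ^ 4 := by positivity
    nlinarith
  have r5 : (gam : ℝ) * n ≤ gam * (lam * n ^ 4) := mul_le_mul_of_nonneg_left r2 G0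
  have r6 : (c : ℝ) ^ 2 * e * n ^ 4 ≤ c ^ 2 * e * (lam * n ^ 4) :=
    mul_le_mul_of_nonneg_left r4 (by positivity)
  have r7 : (8 * (gam : ℝ) + 16 + 176 * c + 16 * c ^ 2 * e) * (lam * n ^ 3) * n
      = 8 * (gam * (lam * n ^ 4)) + 16 * (lam * n ^ 4) + 176 * (c * (lam * n ^ 4))
        + 16 * (c ^ 2 * e * (lam * n ^ 4)) := by ring
  push_cast
  have final : 2 * ((n : ℝ) * (gam + 2 * lam) + 2 * rho * t * kap + c * n * (22 * lam * n ^ 3)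
      + (n : ℝ) * (n + 1) / 2 * (1 / 2) ^ c * s) + 4 * (c * n * n) ^ 2 * e
      = 2 * (gam * n) + 4 * (lam * n) + 4 * (rho : ℝ) * t * kap + 44 * (c * (lam * n ^ 4))
        + (n : ℝ) * (n + 1) * s * (1 / 2) ^ c + 4 * (c ^ 2 * e * n ^ 4) := by ring
  rw [final]
  linarith

/-- The bilinear sum is small. -/
theorem A_bound (D P R v t n lam c gam C0 rho kap s e : ℕ) [NeZero D] (hR : 2 ≤ R)
    (hrho : 1 ≤ rho) (hRrho : R ≤ 2 ^ rho) (hDP : D ∣ P ^ (n + 1)) (hv : Nat.Coprime v D)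
    (hvP : v ^ (R ^ t) = 1 + P) (hn : 8 * rho ≤ n) (hgam : 3 * c ≤ 2 ^ gam)
    (hlam : 1 ≤ lam) (hnl : n ≤ 2 ^ lam) (hC0 : C0 ≤ t) (hkap : kap = n / (8 * rho))
    (hs : s = 2 * rho * t / kap + 1)
    (hgcd : ∀ k, Nat.gcd D (P ^ k) ≤ R ^ ((t + C0) * k))
    (hc : 528 * rho ^ 2 ≤ 2 ^ c)
    (hC1 : (8 * gam + 16 + 176 * c + 16 * c ^ 2 * e) * (lam * n ^ 3) ≤ t)
    (hDbig : 2 ^ (t * n) ≤ D) (ψ : AddChar (ZMod D) ℂ) (hψ : ψ.IsPrimitive) :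
    ‖∑ x ∈ range (R ^ t * 2 ^ s), ∑ x' ∈ range (R ^ t * 2 ^ s),
        ψ ((v : ZMod D) ^ x * (v : ZMod D) ^ x')‖
      ≤ ((R ^ t * 2 ^ s : ℕ) : ℝ) ^ 2 * (1 / 2) ^ e := by
  have hD : 0 < D := Nat.pos_of_ne_zero (NeZero.ne D)
  have hc1 : 1 ≤ c := by
    rcases Nat.eq_zero_or_pos c with h | h
    · subst h
      have : 1 ≤ rho ^ 2 := Nat.one_le_pow _ _ hrho
      simp at hc
      omega
    · exact h
  have hn1 : 1 ≤ n := by omega
  set r := c * n * n with hr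
  have hr1 : 1 ≤ r := Nat.one_le_iff_ne_zero.2 (by rw [hr]; positivity)
  set Y := R ^ t * 2 ^ s with hY
  have hY0 : 0 < Y := by rw [hY]; positivity
  set T : ℝ := (en r (range Y) (fun x : ℕ => (v : ZMod D) ^ x) : ℝ) with hT
  set E : ℝ := ((n * (gam + 2 * lam) + 2 * rho * t * kap + c * n * (22 * lam * n ^ 3) : ℕ) : ℝ)
      + ((n : ℝ) * (n + 1) / 2) * (1 / 2) ^ c * s with hE
  have h1 : T * D ≤ (Y : ℝ) ^ (2 * r) * (2 : ℝ) ^ E :=
    energy_final D P R v t n lam c gam C0 rho kap s hD hR hrho hRrho hDP hv hvP hn hc1 hgam hlam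
      hnl hC0 hkap hs hgcd
  have h2 : 2 * E + 4 * (r : ℝ) ^ 2 * e ≤ (t : ℝ) * n :=
    expo_ineq rho n t gam lam c e kap s hrho hn hlam hkap hs hc hC1
  have hT0 : 0 ≤ T := Nat.cast_nonneg _
  have hDr : (0 : ℝ) < D := by exact_mod_cast hD
  have hYr : (0 : ℝ) < Y := by exact_mod_cast hY0
  have h3 : (2 : ℝ) ^ (2 * E) * ((2 : ℝ) ^ e) ^ (2 * r * (2 * r)) ≤ D := by
    have e1 : ((2 : ℝ) ^ e) ^ (2 * r * (2 * r)) = (2 : ℝ) ^ (4 * (r : ℝ) ^ 2 * e) := by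
      rw [← pow_mul, ← Real.rpow_natCast]
      congr 1
      push_cast
      ring
    rw [e1, ← Real.rpow_add (by norm_num)]
    have e2 : (2 : ℝ) ^ ((t : ℝ) * n) = ((2 ^ (t * n) : ℕ) : ℝ) := by
      push_cast
      rw [← Real.rpow_natCast]
      push_cast
      rfl
    calc (2 : ℝ) ^ (2 * E + 4 * (r : ℝ) ^ 2 * e) ≤ (2 : ℝ) ^ ((t : ℝ) * n) :=
          Real.rpow_le_rpow_of_exponent_le (by norm_num) h2
      _ = ((2 ^ (t * n) : ℕ) : ℝ) := e2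
      _ ≤ D := by exact_mod_cast hDbig
  have h4 : T * (D * T) * ((2 : ℝ) ^ e) ^ (2 * r * (2 * r)) ≤ ((Y : ℝ) ^ (2 * r)) ^ 2 := by
    have e1 : (T * (D * T)) * ((2 : ℝ) ^ e) ^ (2 * r * (2 * r)) * D
        ≤ ((Y : ℝ) ^ (2 * r)) ^ 2 * D := by
      calc (T * (D * T)) * ((2 : ℝ) ^ e) ^ (2 * r * (2 * r)) * D
          = (T * D) ^ 2 * ((2 : ℝ) ^ e) ^ (2 * r * (2 * r)) := by ring
        _ ≤ ((Y : ℝ) ^ (2 * r) * (2 : ℝ) ^ E) ^ 2 * ((2 : ℝ) ^ e) ^ (2 * r * (2 * r)) := by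
            apply mul_le_mul_of_nonneg_right _ (by positivity)
            exact pow_le_pow_left₀ (by positivity) h1 2
        _ = ((Y : ℝ) ^ (2 * r)) ^ 2 * ((2 : ℝ) ^ (2 * E) * ((2 : ℝ) ^ e) ^ (2 * r * (2 * r))) := by
            have : ((2 : ℝ) ^ E) ^ 2 = (2 : ℝ) ^ (2 * E) := by
              rw [← Real.rpow_natCast ((2 : ℝ) ^ E), ← Real.rpow_mul (by norm_num)]
              congr 1
              push_cast
              ring
            rw [mul_pow, this]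
            ring
        _ ≤ ((Y : ℝ) ^ (2 * r)) ^ 2 * D := mul_le_mul_of_nonneg_left h3 (by positivity)
    exact le_of_mul_le_mul_right e1 hDr
  have h5 := bilinear ψ hψ Y r hr1 (fun x : ℕ => (v : ZMod D) ^ x)
  set A : ℝ := ‖∑ x ∈ range Y, ∑ x' ∈ range Y, ψ ((v : ZMod D) ^ x * (v : ZMod D) ^ x')‖ with hA
  have hA0 : 0 ≤ A := norm_nonneg _
  have h6 : (A * 2 ^ e) ^ (2 * r * (2 * r)) ≤ ((Y : ℝ) ^ 2) ^ (2 * r * (2 * r)) := by
    calc (A * 2 ^ e) ^ (2 * r * (2 * r))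
        = (A ^ (2 * r)) ^ (2 * r) * ((2 : ℝ) ^ e) ^ (2 * r * (2 * r)) := by
          rw [mul_pow, ← pow_mul A]
      _ ≤ (((Y : ℝ) ^ (2 * r - 1)) ^ (2 * r) * (((Y : ℝ) ^ (2 * r)) ^ (2 * r - 1)
            * (T * ((D : ℝ) * T)))) * ((2 : ℝ) ^ e) ^ (2 * r * (2 * r)) :=
          mul_le_mul_of_nonneg_right h5 (by positivity)
      _ = (((Y : ℝ) ^ (2 * r - 1)) ^ (2 * r) * ((Y : ℝ) ^ (2 * r)) ^ (2 * r - 1))
            * (T * (D * T) * ((2 : ℝ) ^ e) ^ (2 * r * (2 * r))) := by ring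
      _ ≤ (((Y : ℝ) ^ (2 * r - 1)) ^ (2 * r) * ((Y : ℝ) ^ (2 * r)) ^ (2 * r - 1))
            * ((Y : ℝ) ^ (2 * r)) ^ 2 := mul_le_mul_of_nonneg_left h4 (by positivity)
      _ = ((Y : ℝ) ^ 2) ^ (2 * r * (2 * r)) := by
          rw [← pow_mul, ← pow_mul, ← pow_mul, ← pow_mul, ← pow_add, ← pow_add]
          congr 1
          obtain ⟨k, hk⟩ : ∃ k, 2 * r = k + 1 := ⟨2 * r - 1, by omega⟩
          rw [hk]
          simp only [Nat.add_sub_cancel]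
          ring
  have h7 : A * 2 ^ e ≤ (Y : ℝ) ^ 2 :=
    le_of_pow_le_pow_left₀ (by positivity) (by positivity) h6
  calc A = A * 2 ^ e * (1 / 2) ^ e := by
        rw [mul_assoc, ← mul_pow]
        norm_num
    _ ≤ (Y : ℝ) ^ 2 * (1 / 2) ^ e := mul_le_mul_of_nonneg_right h7 (by positivity)

end Pool.Agent.H.MP_96e181_an.helper85
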