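import Mathlib

set_option autoImplicit false

/-!
# Arithmetic of `v ^ (R ^ t) - 1`
-/

namespace Pool.Agent.H.MP_96e181_an.helper85

open Finset

/-- `R ^ t` divides `v ^ (R ^ t) - 1` when `R ∣ v - 1`. -/
theorem pow_dvd_pow_sub (R v t : ℕ) (hv : 1 ≤ v) (h : R ∣ v - 1) :
    R ^ t ∣ v ^ (R ^ t) - 1 := by
  have h1 : ((R : ℕ) : ℤ) ∣ (v : ℤ) - 1 := by
    have := Int.natCast_dvd_natCast.2 h
    rwa [Nat.cast_sub hv, Nat.cast_one] at this
  have h2 := dvd_sub_pow_of_dvd_sub h1 t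
  rw [one_pow] at h2
  have h3 : (R : ℤ) ^ t ∣ (v : ℤ) ^ (R ^ t) - 1 := (pow_dvd_pow _ (Nat.le_succ t)).trans h2
  have h4 : ((R ^ t : ℕ) : ℤ) ∣ ((v ^ (R ^ t) - 1 : ℕ) : ℤ) := by
    rw [Nat.cast_sub (Nat.one_le_pow _ _ hv)]
    push_cast
    exact h3
  exact Int.natCast_dvd_natCast.1 h4

/-- The valuation of `v ^ (R ^ t) - 1`. -/
theorem val_pow (l R v t : ℕ) (hl : l.Prime) (hR : R ≠ 0) (hlR : l ∣ R) (hv : 2 ≤ v)
    (h : R ∣ v - 1) (h4 : 2 ∣ R → 4 ∣ v - 1) :
    padicValNat l (v ^ (R ^ t) - 1) = padicValNat l (v - 1) + t * padicValNat l R := by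
  have : Fact l.Prime := ⟨hl⟩
  have hlv : l ∣ v - 1 := hlR.trans h
  have hlnv : ¬ l ∣ v := by
    intro h'
    have h1 : l ∣ v - (v - 1) := Nat.dvd_sub h' hlv
    have h2 : v - (v - 1) = 1 := by omega
    rw [h2] at h1
    exact hl.one_lt.ne' (Nat.dvd_one.1 h1)
  have hRt : R ^ t ≠ 0 := pow_ne_zero _ hR
  rcases hl.eq_two_or_odd' with h2 | hodd
  · subst h2
    rcases Nat.eq_zero_or_pos t with ht | ht
    · subst ht; simp
    have heven : Even (R ^ t) := by
      rw [Nat.even_pow]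
      exact ⟨even_iff_two_dvd.2 hlR, by omega⟩
    have h3 := padicValNat.pow_two_sub_pow (x := v) (y := 1) (by omega) hlv hlnv
      (n := R ^ t) hRt heven
    rw [one_pow, padicValNat.pow] at h3
    have h6 : padicValNat 2 (v + 1) = 1 := by
      have h5 : (4 : ℕ) ∣ v - 1 := h4 hlR
      obtain ⟨k, hk⟩ := h5
      have h8 : v + 1 = 2 * (2 * k + 1) := by omega
      rw [h8, padicValNat.mul (by norm_num) (by omega), padicValNat.self (by norm_num)]
      have h7 : padicValNat 2 (2 * k + 1) = 0 := by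
        apply padicValNat.eq_zero_of_not_dvd
        omega
      rw [h7]
    omega
  · have h3 := padicValNat.pow_sub_pow (p := l) hodd (x := v) (y := 1) (by omega) hlv hlnv
      (n := R ^ t) hRt
    rwa [one_pow, padicValNat.pow] at h3

/-- The greatest common divisors of `D` with the powers of `P`. -/
theorem gcd_dvd (D R v t y C0 : ℕ) (hR : 2 ≤ R) (hv : 2 ≤ v) (h : R ∣ v - 1)
    (h4 : 2 ∣ R → 4 ∣ v - 1)
    (hC0 : ∀ l : ℕ, l.Prime → l ∣ R → ¬ l ^ C0 ∣ v - 1) (hDR : D ∣ R ^ y) (k : ℕ) :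
    Nat.gcd D ((v ^ (R ^ t) - 1) ^ k) ∣ R ^ ((t + C0) * k) := by
  have hR0 : R ≠ 0 := by omega
  have hRy : R ^ y ≠ 0 := pow_ne_zero _ hR0
  have hD0 : D ≠ 0 := fun h' => hRy (Nat.eq_zero_of_zero_dvd (h' ▸ hDR))
  set P := v ^ (R ^ t) - 1 with hP
  have hRt : R ^ t ≠ 0 := pow_ne_zero _ hR0
  have hP0 : P ≠ 0 := by
    have h5 : 1 < v ^ (R ^ t) := Nat.one_lt_pow hRt (by omega)
    omega
  have hPk : P ^ k ≠ 0 := pow_ne_zero _ hP0
  have hRk : R ^ ((t + C0) * k) ≠ 0 := pow_ne_zero _ hR0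
  have hg0 : Nat.gcd D (P ^ k) ≠ 0 := Nat.gcd_ne_zero_left hD0
  rw [← Nat.factorization_prime_le_iff_dvd hg0 hRk]
  intro l hl
  by_cases hlR : l ∣ R
  · have h1 := (Nat.factorization_le_iff_dvd hg0 hPk).2 (Nat.gcd_dvd_right D (P ^ k)) l
    refine h1.trans ?_
    rw [Nat.factorization_pow, Nat.factorization_pow]
    simp only [Finsupp.coe_smul, Pi.smul_apply, smul_eq_mul]
    rw [Nat.factorization_def _ hl, Nat.factorization_def _ hl, val_pow l R v t hl hR0 hlR hv h h4]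
    have : Fact l.Prime := ⟨hl⟩
    have h2 : padicValNat l (v - 1) ≤ C0 := by
      by_contra hcon
      push Not at hcon
      apply hC0 l hl hlR
      exact (pow_dvd_pow l hcon.le).trans pow_padicValNat_dvd
    have h3 : 1 ≤ padicValNat l R := one_le_padicValNat_of_dvd hR0 hlR
    calc k * (padicValNat l (v - 1) + t * padicValNat l R)
        ≤ k * (C0 * padicValNat l R + t * padicValNat l R) := by
          apply Nat.mul_le_mul_left
          apply Nat.add_le_add_right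
          exact h2.trans (Nat.le_mul_of_pos_right _ h3)
      _ = (t + C0) * k * padicValNat l R := by ring
  · have h1 : (Nat.gcd D (P ^ k)).factorization l = 0 := by
      apply Nat.factorization_eq_zero_of_not_dvd
      intro h'
      exact hlR (hl.dvd_of_dvd_pow ((h'.trans (Nat.gcd_dvd_left _ _)).trans hDR))
    rw [h1]; exact Nat.zero_le _

theorem two_pow_le_of_not_dvd {R y D : ℕ} (hR : 2 ≤ R) (hy : 1 ≤ y) (h1 : D ∣ R ^ y)
    (h2 : ¬ D ∣ R ^ (y - 1)) : 2 ^ y ≤ D := by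
  have hp0 : R ≠ 0 := by omega
  have hpw : R ^ y ≠ 0 := pow_ne_zero _ hp0
  have hD0 : D ≠ 0 := fun h => hpw (Nat.eq_zero_of_zero_dvd (h ▸ h1))
  have hpw1 : R ^ (y - 1) ≠ 0 := pow_ne_zero _ hp0
  rw [← Nat.factorization_prime_le_iff_dvd hD0 hpw1] at h2
  push Not at h2
  obtain ⟨l, hl, h3⟩ := h2
  have h4 := (Nat.factorization_le_iff_dvd hD0 hpw).2 h1 l
  rw [Nat.factorization_pow] at h3 h4
  simp only [Finsupp.coe_smul, Pi.smul_apply, smul_eq_mul] at h3 h4
  have h5 : 1 ≤ R.factorization l := by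
    by_contra h
    have h6 : R.factorization l = 0 := by omega
    rw [h6] at h3 h4
    omega
  have h7 : y ≤ D.factorization l := by
    have h8 : (y - 1) * 1 ≤ (y - 1) * R.factorization l := Nat.mul_le_mul_left _ h5
    omega
  calc 2 ^ y ≤ l ^ y := Nat.pow_le_pow_left hl.two_le _
    _ ≤ l ^ D.factorization l := Nat.pow_le_pow_right hl.pos h7
    _ ≤ D := Nat.le_of_dvd (Nat.pos_of_ne_zero hD0) (Nat.ordProj_dvd D l)

/-- The averaging over shifts. -/
theorem shift_le (F : ℕ → ℂ) (hF : ∀ j, ‖F j‖ ≤ 1) (M h : ℕ) :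
    ‖∑ j ∈ range M, F j - ∑ j ∈ range M, F (j + h)‖ ≤ 2 * h := by
  induction h with
  | zero => simp
  | succ h ih =>
    have e1 : ∑ j ∈ range M, F (j + h) + F (M + h)
        = F h + ∑ j ∈ range M, F (j + (h + 1)) := by
      rw [← Finset.sum_range_succ (fun j => F (j + h)) M,
        Finset.sum_range_succ' (fun j => F (j + h)) M]
      simp only [zero_add]
      rw [add_comm]
      congr 1
      exact Finset.sum_congr rfl fun j _ => by congr 1; ring
    have e2 : ∑ j ∈ range M, F j - ∑ j ∈ range M, F (j + (h + 1))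
        = (∑ j ∈ range M, F j - ∑ j ∈ range M, F (j + h)) + (F h - F (M + h)) := by
      linear_combination e1
    rw [e2]
    refine (norm_add_le _ _).trans ?_
    have h3 := norm_sub_le (F h) (F (M + h))
    have h4 := hF h
    have h5 := hF (M + h)
    push_cast
    linarith

/-- From the bilinear sums to the sum itself. -/
theorem sum_le_of_bilinear (F : ℕ → ℂ) (hF : ∀ j, ‖F j‖ ≤ 1) (M Y d : ℕ) (hY : 0 < Y) (δ : ℝ)
    (hA : ∀ j, ‖∑ x ∈ range Y, ∑ x' ∈ range Y, F (j + d * (x + x'))‖ ≤ (Y : ℝ) ^ 2 * δ) :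
    ‖∑ j ∈ range M, F j‖ ≤ M * δ + 4 * d * Y := by
  have hYr : (0 : ℝ) < (Y : ℝ) ^ 2 := by positivity
  have e1 : ((Y : ℂ) ^ 2) * ∑ j ∈ range M, F j
      = ∑ x ∈ range Y, ∑ x' ∈ range Y, (∑ j ∈ range M, F j - ∑ j ∈ range M, F (j + d * (x + x')))
        + ∑ j ∈ range M, ∑ x ∈ range Y, ∑ x' ∈ range Y, F (j + d * (x + x')) := by
    have e2 : ∑ j ∈ range M, ∑ x ∈ range Y, ∑ x' ∈ range Y, F (j + d * (x + x'))
        = ∑ x ∈ range Y, ∑ x' ∈ range Y, ∑ j ∈ range M, F (j + d * (x + x')) := by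
      rw [Finset.sum_comm]
      refine Finset.sum_congr rfl fun x _ => ?_
      rw [Finset.sum_comm]
    rw [e2, ← Finset.sum_add_distrib]
    simp_rw [← Finset.sum_add_distrib, sub_add_cancel]
    rw [Finset.sum_const, Finset.sum_const, card_range]
    simp only [nsmul_eq_mul]
    ring
  have h1 : ‖((Y : ℂ) ^ 2) * ∑ j ∈ range M, F j‖ ≤ (Y : ℝ) ^ 2 * (4 * d * Y) + M * ((Y : ℝ) ^ 2 * δ) := by
    rw [e1]
    refine (norm_add_le _ _).trans (add_le_add ?_ ?_)
    · refine (norm_sum_le _ _).trans ?_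
      have h2 : ∀ x ∈ range Y, ‖∑ x' ∈ range Y, (∑ j ∈ range M, F j
          - ∑ j ∈ range M, F (j + d * (x + x')))‖ ≤ (Y : ℝ) * (4 * d * Y) := by
        intro x hx
        refine (norm_sum_le _ _).trans ?_
        have h3 : ∀ x' ∈ range Y, ‖∑ j ∈ range M, F j
            - ∑ j ∈ range M, F (j + d * (x + x'))‖ ≤ 4 * d * Y := by
          intro x' hx'
          refine (shift_le F hF M _).trans ?_
          have h4 : (x : ℝ) ≤ Y := by exact_mod_cast (mem_range.1 hx).le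
          have h5 : (x' : ℝ) ≤ Y := by exact_mod_cast (mem_range.1 hx').le
          push_cast
          have h6 : (0 : ℝ) ≤ d := Nat.cast_nonneg _
          nlinarith
        refine (Finset.sum_le_sum h3).trans (le_of_eq ?_)
        rw [Finset.sum_const, card_range, nsmul_eq_mul]
      refine (Finset.sum_le_sum h2).trans (le_of_eq ?_)
      rw [Finset.sum_const, card_range, nsmul_eq_mul]
      ring
    · refine (norm_sum_le _ _).trans ?_
      refine (Finset.sum_le_sum fun j _ => hA j).trans (le_of_eq ?_)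
      rw [Finset.sum_const, card_range, nsmul_eq_mul]
  rw [norm_mul, norm_pow, Complex.norm_natCast] at h1
  have h2 : (Y : ℝ) ^ 2 * ‖∑ j ∈ range M, F j‖ ≤ (Y : ℝ) ^ 2 * (M * δ + 4 * d * Y) := by
    linarith
  exact le_of_mul_le_mul_left h2 hYr

end Pool.Agent.H.MP_96e181_an.helper85
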