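import Mathlib

set_option autoImplicit false

/-!
# The choice of the parameters
-/

namespace Pool.Agent.H.MP_96e181_an.helper85

open Finset

theorem growth (K : ℕ) : ∃ m0 : ℕ, ∀ m, m0 ≤ m → K * (Nat.log 2 m + 1) ^ 10 ≤ m := by
  have h := tendsto_pow_const_div_const_pow_of_one_lt 10 (show (1 : ℝ) < 2 by norm_num)
  have h2 := h.eventually (gt_mem_nhds (show (0 : ℝ) < 1 / (2 * K + 1) by positivity))
  obtain ⟨N0, hN0⟩ := Filter.eventually_atTop.1 h2
  refine ⟨2 ^ (N0 + 1), fun m hm => ?_⟩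
  have hm0 : m ≠ 0 := by
    have : 0 < 2 ^ (N0 + 1) := by positivity
    omega
  have hlog : N0 + 1 ≤ Nat.log 2 m := Nat.le_log_of_pow_le (by norm_num) hm
  set n := Nat.log 2 m + 1 with hn
  have h3 := hN0 n (by omega)
  have hp : (0 : ℝ) < 2 ^ n := by positivity
  rw [div_lt_div_iff₀ hp (by positivity), one_mul] at h3
  have h4 : (2 * K + 1) * n ^ 10 ≤ 2 ^ n := by
    have : ((n ^ 10 * (2 * K + 1) : ℕ) : ℝ) < ((2 ^ n : ℕ) : ℝ) := by
      push_cast
      exact h3
    have h5 : n ^ 10 * (2 * K + 1) < 2 ^ n := by exact_mod_cast this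
    rw [mul_comm]
    exact h5.le
  have h5 : 2 ^ n ≤ 2 * m := by
    rw [hn, pow_succ, mul_comm]
    exact Nat.mul_le_mul_left _ (Nat.pow_log_le_self 2 hm0)
  have h6 : 2 * (K * n ^ 10) ≤ (2 * K + 1) * n ^ 10 := by
    rw [add_mul, one_mul, mul_assoc]
    exact Nat.le_add_right _ _
  omega

/-- The choice of the parameters. -/
theorem choose_params (rho C1 : ℕ) (hrho : 1 ≤ rho) (hC1 : 1 ≤ C1) :
    ∃ y0 m0 : ℕ, ∀ m y, m0 ≤ m → y0 ≤ y → y ^ 10 ≤ m ^ 13 →
      ∃ t n lam : ℕ, 1 ≤ lam ∧ 8 * rho ≤ n ∧ n ≤ 2 ^ lam ∧ y ≤ t * (n + 1) ∧ t * n ≤ y ∧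
        6 * rho * t ≤ m ∧ C1 * (lam * n ^ 3) ≤ t := by
  obtain ⟨m1, hm1⟩ := growth ((12 * rho * C1) ^ 10 * (12 * rho) ^ 30)
  set w := 8 * rho + 1 with hw
  refine ⟨w * (C1 * (2 * w) ^ 4), m1 + (12 * rho) ^ 2 + 6 * rho, fun m y hm hy hym => ?_⟩
  set t := min (y / w) (m / (6 * rho)) with ht
  have hw0 : 0 < w := by omega
  have h6 : 0 < 6 * rho := by omega
  have hyw : C1 * (2 * w) ^ 4 ≤ y / w := by
    rw [Nat.le_div_iff_mul_le hw0, mul_comm]
    exact hy
  have hCw : 1 ≤ C1 * (2 * w) ^ 4 := Nat.one_le_iff_ne_zero.2 (by positivity)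
  have ht1 : 1 ≤ t := by
    rw [ht, le_min_iff]
    refine ⟨by omega, ?_⟩
    rw [Nat.le_div_iff_mul_le h6]
    omega
  have htw : t * w ≤ y := by
    have h1 : t ≤ y / w := min_le_left _ _
    exact (Nat.le_div_iff_mul_le hw0).1 h1
  have htm : t * (6 * rho) ≤ m := by
    have h1 : t ≤ m / (6 * rho) := min_le_right _ _
    exact (Nat.le_div_iff_mul_le h6).1 h1
  set n := (y - 1) / t with hn
  have hn1 : 8 * rho ≤ n := by
    rw [hn, Nat.le_div_iff_mul_le (by omega)]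
    have : t * w = 8 * rho * t + t := by rw [hw]; ring
    omega
  have hn2 : y ≤ t * (n + 1) := by
    have := Nat.lt_mul_div_succ (y - 1) (show 0 < t by omega)
    rw [← hn] at this
    omega
  have hn3 : t * n ≤ y := by
    have := Nat.mul_div_le (y - 1) t
    rw [← hn] at this
    omega
  rcases le_total (y / w) (m / (6 * rho)) with hcase | hcase
  · -- the small scales
    have hteq : t = y / w := by rw [ht]; exact min_eq_left hcase
    have hn4 : n ≤ 2 * w := by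
      have h1 := Nat.lt_mul_div_succ y hw0
      rw [← hteq] at h1
      have h2 : w * (t + 1) ≤ t * (2 * w) := by nlinarith
      have h3 : y - 1 ≤ t * (2 * w) := by omega
      rw [hn]
      exact Nat.div_le_of_le_mul h3
    refine ⟨t, n, 2 * w, by omega, hn1, ?_, hn2, hn3, ?_, ?_⟩
    · exact hn4.trans Nat.lt_two_pow_self.le
    · rw [mul_comm]; exact htm
    · calc C1 * (2 * w * n ^ 3) ≤ C1 * (2 * w * (2 * w) ^ 3) := by gcongr
        _ = C1 * (2 * w) ^ 4 := by ring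
        _ ≤ t := by rw [hteq]; exact hyw
  · -- the large scales
    have hteq : t = m / (6 * rho) := by rw [ht]; exact min_eq_right hcase
    have hm0 : 0 < m := by omega
    have hmt : m ≤ 12 * rho * t := by
      have h1 := Nat.lt_mul_div_succ m h6
      rw [← hteq] at h1
      have h2 : 6 * rho * (t + 1) ≤ 12 * rho * t := by nlinarith
      omega
    have hnm : n * m ≤ 12 * rho * y := by
      calc n * m ≤ n * (12 * rho * t) := Nat.mul_le_mul_left _ hmt
        _ = 12 * rho * (t * n) := by ring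
        _ ≤ 12 * rho * y := Nat.mul_le_mul_left _ hn3
    have hn10 : n ^ 10 ≤ (12 * rho) ^ 10 * m ^ 3 := by
      have h1 : n ^ 10 * m ^ 10 ≤ ((12 * rho) ^ 10 * m ^ 3) * m ^ 10 := by
        calc n ^ 10 * m ^ 10 = (n * m) ^ 10 := by ring
          _ ≤ (12 * rho * y) ^ 10 := Nat.pow_le_pow_left hnm 10
          _ = (12 * rho) ^ 10 * y ^ 10 := by ring
          _ ≤ (12 * rho) ^ 10 * m ^ 13 := Nat.mul_le_mul_left _ hym
          _ = _ := by ring
      exact Nat.le_of_mul_le_mul_right h1 (by positivity)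
    have hnlem : n ≤ m := by
      have h1 : (12 * rho) ^ 2 ≤ m := by omega
      have h2 : n ^ 10 ≤ m ^ 10 := by
        calc n ^ 10 ≤ (12 * rho) ^ 10 * m ^ 3 := hn10
          _ = ((12 * rho) ^ 2) ^ 5 * m ^ 3 := by ring
          _ ≤ m ^ 5 * m ^ 3 := Nat.mul_le_mul_right _ (Nat.pow_le_pow_left h1 5)
          _ = m ^ 8 := by ring
          _ ≤ m ^ 10 := Nat.pow_le_pow_right hm0 (by norm_num)
      exact (Nat.pow_le_pow_iff_left (by norm_num)).1 h2
    set lam := Nat.log 2 m + 1 with hlam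
    refine ⟨t, n, lam, by omega, hn1, ?_, hn2, hn3, ?_, ?_⟩
    · exact hnlem.trans (Nat.lt_pow_succ_log_self (by norm_num) m).le
    · rw [mul_comm]; exact htm
    · have h1 := hm1 m (by omega)
      rw [← hlam] at h1
      have h2 : (12 * rho * (C1 * (lam * n ^ 3))) ^ 10 ≤ m ^ 10 := by
        calc (12 * rho * (C1 * (lam * n ^ 3))) ^ 10
            = (12 * rho * C1) ^ 10 * lam ^ 10 * (n ^ 10) ^ 3 := by ring
          _ ≤ (12 * rho * C1) ^ 10 * lam ^ 10 * ((12 * rho) ^ 10 * m ^ 3) ^ 3 :=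
              Nat.mul_le_mul_left _ (Nat.pow_le_pow_left hn10 3)
          _ = ((12 * rho * C1) ^ 10 * (12 * rho) ^ 30 * lam ^ 10) * m ^ 9 := by ring
          _ ≤ m * m ^ 9 := Nat.mul_le_mul_right _ h1
          _ = m ^ 10 := by ring
      have h3 : 12 * rho * (C1 * (lam * n ^ 3)) ≤ m :=
        (Nat.pow_le_pow_iff_left (by norm_num)).1 h2
      have h4 : 12 * rho * (C1 * (lam * n ^ 3)) ≤ 12 * rho * t := h3.trans hmt
      exact Nat.le_of_mul_le_mul_left h4 (by omega)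

end Pool.Agent.H.MP_96e181_an.helper85
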