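import Mathlib
import Pool.Agent.H.MP_96e181_an.helper85.ABound
import Pool.Agent.H.MP_96e181_an.helper85.Arith
import Pool.Agent.H.MP_96e181_an.helper85.Choice

set_option autoImplicit false

/-!
# Exponential sums along `u ^ j` modulo high powers (Korobov)
-/

namespace Pool.Agent.H.MP_96e181_an.helper85

open Finset

/-- The bound of the exponential sum, with the parameters of `choose_params`. -/
theorem korobov_core (R d0 C0 rho c gam e t n lam y u D M : ℕ) (hR : 2 ≤ R) (hrho : 1 ≤ rho)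
    (hRrho : R ≤ 2 ^ rho) (hc : 528 * rho ^ 2 ≤ 2 ^ c) (hgam : 3 * c ≤ 2 ^ gam)
    (hlam : 1 ≤ lam) (hn : 8 * rho ≤ n) (hnl : n ≤ 2 ^ lam) (hyt : y ≤ t * (n + 1))
    (hty : t * n ≤ y) (htM : 2 ^ (6 * rho * t) ≤ M)
    (hC1 : (8 * gam + 16 + 176 * c + 16 * c ^ 2 * e + C0) * (lam * n ^ 3) ≤ t)
    (hu : R ∣ u ^ d0 - 1) (hu4 : 2 ∣ R → 4 ∣ u ^ d0 - 1) 
    (hC0 : ∀ l : ℕ, l.Prime → l ∣ R → ¬ l ^ C0 ∣ u ^ d0 - 1)
    (hDR : D ∣ R ^ y) (hDR' : ¬ D ∣ R ^ (y - 1)) (ζ : ℂ) (hζ : IsPrimitiveRoot ζ D) :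
    ∃ Y : ℕ, Y ^ 2 ≤ 4 * M ∧ ‖∑ j ∈ range M, ζ ^ (u ^ j)‖ ≤ M * (1 / 2) ^ e + 4 * d0 * Y := by
  -- elementary facts
  have hR0 : R ≠ 0 := by omega
  have hRy : R ^ y ≠ 0 := pow_ne_zero _ hR0
  have hD0 : D ≠ 0 := fun h => hRy (Nat.eq_zero_of_zero_dvd (h ▸ hDR))
  have : NeZero D := ⟨hD0⟩
  have hn1 : 1 ≤ n := by omega
  have hln : 1 ≤ lam * n ^ 3 := Nat.one_le_iff_ne_zero.2 (by positivity)
  have hC1' : (8 * gam + 16 + 176 * c + 16 * c ^ 2 * e) * (lam * n ^ 3) ≤ t :=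
    (Nat.mul_le_mul_right _ (Nat.le_add_right _ _)).trans hC1
  have hC0t : C0 ≤ t := by
    calc C0 ≤ (8 * gam + 16 + 176 * c + 16 * c ^ 2 * e + C0) * 1 := by omega
      _ ≤ (8 * gam + 16 + 176 * c + 16 * c ^ 2 * e + C0) * (lam * n ^ 3) :=
          Nat.mul_le_mul_left _ hln
      _ ≤ t := hC1
  have ht1 : 1 ≤ t := by
    calc 1 ≤ (8 * gam + 16 + 176 * c + 16 * c ^ 2 * e + C0) * 1 := by omega
      _ ≤ (8 * gam + 16 + 176 * c + 16 * c ^ 2 * e + C0) * (lam * n ^ 3) :=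
          Nat.mul_le_mul_left _ hln
      _ ≤ t := hC1
  have hy1 : 1 ≤ y := le_trans (Nat.mul_pos ht1 hn1) hty
  set v := u ^ d0 with hv
  have hv2 : 2 ≤ v := by
    by_contra hcon
    have h0 : v - 1 = 0 := by omega
    have h1 := hC0 R.minFac (Nat.minFac_prime (by omega)) (Nat.minFac_dvd R)
    rw [h0] at h1
    exact h1 (dvd_zero _)
  have hRv : R ∣ v - 1 := hu
  have hd0 : d0 ≠ 0 := by
    rintro rfl
    simp [hv] at hv2
  -- coprimality
  have hcopR : Nat.Coprime v R := by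
    have h1 : Nat.gcd v R ∣ v - 1 := (Nat.gcd_dvd_right v R).trans hRv
    have h2 : Nat.gcd v R ∣ v - (v - 1) := Nat.dvd_sub (Nat.gcd_dvd_left v R) h1
    have h3 : v - (v - 1) = 1 := by omega
    rw [h3] at h2
    exact Nat.dvd_one.1 h2
  have hcopD : Nat.Coprime v D := Nat.Coprime.coprime_dvd_right hDR (hcopR.pow_right y)
  have hcopu : Nat.Coprime u D := by
    rw [hv] at hcopD
    exact Nat.Coprime.coprime_dvd_left (dvd_pow_self u hd0) hcopD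
  -- the number `P`
  set P := v ^ (R ^ t) - 1 with hP
  have hvP : v ^ (R ^ t) = 1 + P := by
    have : 1 ≤ v ^ (R ^ t) := Nat.one_le_pow _ _ (by omega)
    omega
  have hRP : R ^ t ∣ P := pow_dvd_pow_sub R v t (by omega) hRv
  have hDP : D ∣ P ^ (n + 1) := by
    refine hDR.trans ((pow_dvd_pow R hyt).trans ?_)
    rw [pow_mul]
    exact pow_dvd_pow_of_dvd hRP _
  have hgcd : ∀ k, Nat.gcd D (P ^ k) ≤ R ^ ((t + C0) * k) := fun k =>
    Nat.le_of_dvd (Nat.pos_of_ne_zero (pow_ne_zero _ hR0))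
      (gcd_dvd D R v t y C0 hR hv2 hu hu4 hC0 hDR k)
  have hDbig : 2 ^ (t * n) ≤ D :=
    (Nat.pow_le_pow_right (by norm_num) hty).trans (two_pow_le_of_not_dvd hR hy1 hDR hDR')
  -- the scale `Y`
  set kap := n / (8 * rho) with hkap
  set s := 2 * rho * t / kap + 1 with hs
  set Y := R ^ t * 2 ^ s with hY
  have hY0 : 0 < Y := by rw [hY]; positivity
  have hYle : Y ^ 2 ≤ 4 * M := by
    have h1 : R ^ t ≤ 2 ^ (rho * t) := by
      rw [pow_mul]
      exact Nat.pow_le_pow_left hRrho t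
    have h2 : s ≤ 2 * rho * t + 1 := by
      rw [hs]
      exact Nat.succ_le_succ (Nat.div_le_self _ _)
    have h3 : Y ≤ 2 ^ (3 * rho * t + 1) := by
      calc Y ≤ 2 ^ (rho * t) * 2 ^ (2 * rho * t + 1) :=
            Nat.mul_le_mul h1 (Nat.pow_le_pow_right (by norm_num) h2)
        _ = 2 ^ (3 * rho * t + 1) := by rw [← pow_add]; congr 1; ring
    calc Y ^ 2 ≤ (2 ^ (3 * rho * t + 1)) ^ 2 := Nat.pow_le_pow_left h3 2
      _ = 4 * 2 ^ (6 * rho * t) := by rw [← pow_mul]; ring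
      _ ≤ 4 * M := Nat.mul_le_mul_left _ htM
  refine ⟨Y, hYle, ?_⟩
  apply sum_le_of_bilinear (fun j => ζ ^ (u ^ j)) _ M Y d0 hY0 ((1 / 2) ^ e)
  · -- the bilinear sums
    intro j
    have hζj : IsPrimitiveRoot (ζ ^ (u ^ j)) D :=
      hζ.pow_of_coprime (u ^ j) (Nat.Coprime.pow_left j hcopu)
    have hψ := AddChar.zmodChar_primitive_of_primitive_root D hζj
    have hA := A_bound D P R v t n lam c gam C0 rho kap s e hR hrho hRrho hDP hcopD hvP hn hgam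
      hlam hnl hC0t hkap hs hgcd hc hC1' hDbig _ hψ
    have heq : ∑ x ∈ range Y, ∑ x' ∈ range Y, (fun j => ζ ^ (u ^ j)) (j + d0 * (x + x'))
        = ∑ x ∈ range Y, ∑ x' ∈ range Y,
          AddChar.zmodChar D ((IsPrimitiveRoot.iff_def (ζ ^ (u ^ j)) D).mp hζj).left
            ((v : ZMod D) ^ x * (v : ZMod D) ^ x') := by
      refine Finset.sum_congr rfl fun x _ => Finset.sum_congr rfl fun x' _ => ?_
      have h1 : (v : ZMod D) ^ x * (v : ZMod D) ^ x' = ((v ^ (x + x') : ℕ) : ZMod D) := by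
        push_cast
        rw [pow_add]
      rw [h1, AddChar.zmodChar_apply', ← pow_mul, hv, ← pow_mul, ← pow_add]
    rw [heq]
    exact hA
  · intro j
    rw [norm_pow]
    have h1 : ‖ζ‖ = 1 := hζ.norm'_eq_one hD0
    rw [h1, one_pow]

/-- **Korobov's theorem**, uniform in the base `u`: for primitive `D`-th roots of unity `ζ` with
`D ∣ R ^ y` (and `D ∤ R ^ (y - 1)`), the sum of `ζ ^ (u ^ j)` over `j < M` is `o (M)` as soon as
`y ≤ (log₂ M) ^ (13 / 10)` and `y` is large. -/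
theorem korobov_root (R d0 C0 : ℕ) (hR : 2 ≤ R) (ε : ℝ) (hε : 0 < ε) :
    ∃ y0 M0 : ℕ, ∀ M, M0 ≤ M → ∀ y, y0 ≤ y → y ^ 10 ≤ (Nat.log 2 M) ^ 13 →
      ∀ u : ℕ, R ∣ u ^ d0 - 1 → (2 ∣ R → 4 ∣ u ^ d0 - 1) →
      (∀ l : ℕ, l.Prime → l ∣ R → ¬ l ^ C0 ∣ u ^ d0 - 1) →
      ∀ D : ℕ, D ∣ R ^ y → ¬ D ∣ R ^ (y - 1) → ∀ ζ : ℂ, IsPrimitiveRoot ζ D →
        ‖∑ j ∈ range M, ζ ^ (u ^ j)‖ ≤ ε * M := by
  obtain ⟨e, he⟩ := exists_pow_lt_of_lt_one (show (0 : ℝ) < ε / 2 by positivity)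
    (show (1 / 2 : ℝ) < 1 by norm_num)
  set rho := R with hrho
  set c := 528 * rho ^ 2 with hc
  set gam := 3 * c with hgam
  set C1 := 8 * gam + 16 + 176 * c + 16 * c ^ 2 * e + C0 with hC1
  obtain ⟨y0, m0, hpar⟩ := choose_params rho C1 (by omega) (by omega)
  obtain ⟨N, hN⟩ := exists_nat_ge (256 * (d0 : ℝ) ^ 2 / ε ^ 2)
  refine ⟨y0, 2 ^ m0 + N, fun M hM y hy hyM u hu hu4 hC0 D hDR hDR' ζ hζ => ?_⟩
  have hM0 : M ≠ 0 := by
    have : 0 < 2 ^ m0 := by positivity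
    omega
  have hlog : m0 ≤ Nat.log 2 M := Nat.le_log_of_pow_le (by norm_num) ((Nat.le_add_right _ _).trans hM)
  obtain ⟨t, n, lam, hlam, hn, hnl, hyt, hty, htm, hC1t⟩ := hpar (Nat.log 2 M) y hlog hy hyM
  have htM : 2 ^ (6 * rho * t) ≤ M :=
    (Nat.pow_le_pow_right (by norm_num) htm).trans (Nat.pow_log_le_self 2 hM0)
  obtain ⟨Y, hY, hsum⟩ := korobov_core R d0 C0 rho c gam e t n lam y u D M hR (by omega)
    Nat.lt_two_pow_self.le Nat.lt_two_pow_self.le Nat.lt_two_pow_self.le hlam hn hnl hyt hty htM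
    hC1t hu hu4 hC0 hDR hDR' ζ hζ
  refine hsum.trans ?_
  have hMr : (0 : ℝ) < M := by exact_mod_cast Nat.pos_of_ne_zero hM0
  have h1 : (M : ℝ) * (1 / 2) ^ e ≤ ε / 2 * M := by
    rw [mul_comm]
    exact mul_le_mul_of_nonneg_right he.le hMr.le
  have h2 : 4 * (d0 : ℝ) * Y ≤ ε / 2 * M := by
    have hYr : (Y : ℝ) ^ 2 ≤ 4 * M := by exact_mod_cast hY
    have hNM : (N : ℝ) ≤ M := by
      have : N ≤ M := (Nat.le_add_left _ _).trans hM
      exact_mod_cast this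
    have h3 : 256 * (d0 : ℝ) ^ 2 ≤ M * ε ^ 2 := by
      have := hN.trans hNM
      rwa [div_le_iff₀ (by positivity)] at this
    have h4 : (4 * (d0 : ℝ) * Y) ^ 2 ≤ (ε / 2 * M) ^ 2 := by
      calc (4 * (d0 : ℝ) * Y) ^ 2 = 16 * (d0 : ℝ) ^ 2 * (Y : ℝ) ^ 2 := by ring
        _ ≤ 16 * (d0 : ℝ) ^ 2 * (4 * M) := mul_le_mul_of_nonneg_left hYr (by positivity)
        _ = 256 * (d0 : ℝ) ^ 2 * (M / 4) := by ring
        _ ≤ M * ε ^ 2 * (M / 4) := mul_le_mul_of_nonneg_right h3 (by positivity)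
        _ = (ε / 2 * M) ^ 2 := by ring
    exact le_of_sq_le_sq h4 (by positivity)
  linarith

/-- The character of the circle attached to a torsion point is a primitive root of unity. -/
theorem toCircle_primitive (ξ : UnitAddCircle) :
    IsPrimitiveRoot ((AddCircle.toCircle ξ : Circle) : ℂ) (addOrderOf ξ) := by
  have hinj : ∀ k : ℕ, ((AddCircle.toCircle ξ : Circle) : ℂ) ^ k = 1 ↔ k • ξ = 0 := by
    intro k
    rw [← Circle.coe_pow, ← AddCircle.toCircle_nsmul, ← Circle.coe_one, Circle.coe_inj,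
      ← AddCircle.toCircle_zero, (AddCircle.injective_toCircle one_ne_zero).eq_iff]
  constructor
  · rw [hinj]; exact addOrderOf_nsmul_eq_zero ξ
  · intro k hk
    rw [hinj] at hk
    exact addOrderOf_dvd_iff_nsmul_eq_zero.2 hk

/-- The torsion order of `ξ` is not lowered much by a fixed multiplication. -/
theorem exists_level (R : ℕ) (hR : 2 ≤ R) (h : ℤ) (hh : h ≠ 0) (b : ℕ) (hb : h.natAbs < 2 ^ b)
    (y : ℕ) (ξ : UnitAddCircle) (h1 : R ^ y • ξ = 0) (h2 : R ^ (y - 1) • ξ ≠ 0) :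
    ∃ y', y' ≤ y ∧ y ≤ y' + b ∧ R ^ y' • (h • ξ) = 0 ∧
      (1 ≤ y' → R ^ (y' - 1) • (h • ξ) ≠ 0) := by
  classical
  have hex : ∃ z, R ^ z • (h • ξ) = 0 := ⟨y, by rw [smul_comm, h1, smul_zero]⟩
  refine ⟨Nat.find hex, Nat.find_le (by rw [smul_comm, h1, smul_zero]), ?_, Nat.find_spec hex, ?_⟩
  · set z := Nat.find hex with hz
    by_contra hcon
    push Not at hcon
    have hspec : R ^ z • (h • ξ) = 0 := Nat.find_spec hex
    have hR0 : R ≠ 0 := by omega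
    have hy1 : 1 ≤ y := by omega
    have habs : (R ^ z * h.natAbs) • ξ = 0 := by
      have e1 : R ^ z • ((h.natAbs : ℤ) • ξ) = 0 := by
        rcases Int.natAbs_eq h with e | e
        · rw [← e]; exact hspec
        · rw [e, neg_smul, smul_neg, neg_eq_zero] at hspec
          exact hspec
      rw [natCast_zsmul, ← mul_nsmul', ] at e1
      exact e1
    have hD1 : addOrderOf ξ ∣ R ^ z * h.natAbs := addOrderOf_dvd_of_nsmul_eq_zero habs
    have hD2 : ¬ addOrderOf ξ ∣ R ^ (y - 1) := fun hd =>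
      h2 (addOrderOf_dvd_iff_nsmul_eq_zero.1 hd)
    have hna : h.natAbs ≠ 0 := Int.natAbs_ne_zero.2 hh
    have hDy : addOrderOf ξ ∣ R ^ y := addOrderOf_dvd_of_nsmul_eq_zero h1
    have hD0 : addOrderOf ξ ≠ 0 := fun h' =>
      pow_ne_zero y hR0 (Nat.eq_zero_of_zero_dvd (h' ▸ hDy))
    rw [← Nat.factorization_prime_le_iff_dvd hD0 (pow_ne_zero _ hR0)] at hD2
    push Not at hD2
    obtain ⟨l, hl, h3⟩ := hD2
    have h4 := (Nat.factorization_le_iff_dvd hD0 (mul_ne_zero (pow_ne_zero _ hR0) hna)).2 hD1 l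
    have h4' := (Nat.factorization_le_iff_dvd hD0 (pow_ne_zero _ hR0)).2 hDy l
    rw [Nat.factorization_mul (pow_ne_zero _ hR0) hna] at h4
    rw [Nat.factorization_pow] at h3 h4 h4'
    simp only [Finsupp.coe_add, Pi.add_apply, Finsupp.coe_smul, Pi.smul_apply, smul_eq_mul]
      at h3 h4 h4'
    have h5 : 1 ≤ R.factorization l := by
      by_contra h
      have h6 : R.factorization l = 0 := by omega
      rw [h6] at h3 h4'
      omega
    have h6 : b ≤ h.natAbs.factorization l := by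
      have e1 : (y - 1) * R.factorization l = z * R.factorization l + (y - 1 - z) * R.factorization l := by
        rw [← add_mul]; congr 1; omega
      have e2 : (y - 1 - z) * 1 ≤ (y - 1 - z) * R.factorization l := Nat.mul_le_mul_left _ h5
      omega
    have h7 : 2 ^ b ≤ h.natAbs := by
      calc 2 ^ b ≤ l ^ b := Nat.pow_le_pow_left hl.two_le _
        _ ≤ l ^ h.natAbs.factorization l := Nat.pow_le_pow_right hl.pos h6
        _ ≤ h.natAbs := Nat.le_of_dvd (Nat.pos_of_ne_zero hna) (Nat.ordProj_dvd _ l)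
    omega
  · intro hz hcon
    have := Nat.find_min' hex hcon
    omega

/-- **Korobov's theorem on the circle**, uniform in the base `u` and in the torsion point. -/
theorem korobov (R d0 C0 : ℕ) (hR : 2 ≤ R) (h : ℤ) (hh : h ≠ 0) (ε : ℝ) (hε : 0 < ε) :
    ∃ y0 M0 : ℕ, ∀ M, M0 ≤ M → ∀ y, y0 ≤ y → y ^ 10 ≤ (Nat.log 2 M) ^ 13 →
      ∀ u : ℕ, R ∣ u ^ d0 - 1 → (2 ∣ R → 4 ∣ u ^ d0 - 1) →
      (∀ l : ℕ, l.Prime → l ∣ R → ¬ l ^ C0 ∣ u ^ d0 - 1) →
      ∀ ξ : UnitAddCircle, R ^ y • ξ = 0 → R ^ (y - 1) • ξ ≠ 0 →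
        ‖∑ j ∈ range M, fourier h (u ^ j • ξ)‖ ≤ ε * M := by
  obtain ⟨y0, M0, hK⟩ := korobov_root R d0 C0 hR ε hε
  refine ⟨y0 + 1 + h.natAbs, M0, fun M hM y hy hyM u hu hu4 hC0 ξ h1 h2 => ?_⟩
  obtain ⟨y', hy'1, hy'2, h3, h4⟩ := exists_level R hR h hh h.natAbs Nat.lt_two_pow_self y ξ h1 h2
  have h5 := hK M hM y' (by omega) ((Nat.pow_le_pow_left hy'1 10).trans hyM) u hu hu4 hC0
    (addOrderOf (h • ξ)) (addOrderOf_dvd_of_nsmul_eq_zero h3)
    (fun hd => h4 (by omega) (addOrderOf_dvd_iff_nsmul_eq_zero.1 hd))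
    _ (toCircle_primitive (h • ξ))
  refine le_trans (le_of_eq ?_) h5
  congr 1
  refine Finset.sum_congr rfl fun j _ => ?_
  rw [fourier_apply, smul_comm, AddCircle.toCircle_nsmul, Circle.coe_pow]

/-- The case of a fixed base `q` coprime to `p`. -/
theorem korobov_pq (p q : ℕ) (hp : 2 ≤ p) (hq : 2 ≤ q) (hpq : Nat.Coprime p q) (h : ℤ)
    (hh : h ≠ 0) (ε : ℝ) (hε : 0 < ε) :
    ∃ y0 M0 : ℕ, ∀ M, M0 ≤ M → ∀ y, y0 ≤ y → y ^ 10 ≤ (Nat.log 2 M) ^ 13 →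
      ∀ ξ : UnitAddCircle, p ^ y • ξ = 0 → p ^ (y - 1) • ξ ≠ 0 →
        ‖∑ j ∈ range M, fourier h (q ^ j • ξ)‖ ≤ ε * M := by
  set d0 := 2 * Nat.totient p with hd0
  obtain ⟨y0, M0, hK⟩ := korobov p d0 (q ^ d0) hp h hh ε hε
  refine ⟨y0, M0, fun M hM y hy hyM ξ h1 h2 => hK M hM y hy hyM q ?_ ?_ ?_ ξ h1 h2⟩
  · have h3 : q ^ Nat.totient p ≡ 1 [MOD p] := Nat.ModEq.pow_totient hpq.symm
    have h4 : q ^ d0 ≡ 1 [MOD p] := by
      have := h3.pow 2
      rwa [one_pow, ← pow_mul, mul_comm] at this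
    exact (Nat.modEq_iff_dvd' (Nat.one_le_pow _ _ (by omega))).1 h4.symm
  · intro h2p
    have hqodd : ¬ 2 ∣ q := by
      intro h2q
      have := Nat.dvd_gcd h2p h2q
      rw [hpq] at this
      omega
    have hodd : Odd (q ^ Nat.totient p) := by
      apply Odd.pow
      rw [← Nat.not_even_iff_odd, even_iff_two_dvd]
      exact hqodd
    obtain ⟨k, hk⟩ := hodd
    have : q ^ d0 = 4 * (k * k + k) + 1 := by
      rw [hd0, mul_comm, pow_mul, hk]; ring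
    rw [this]
    simp
  · intro l hl _ hdvd
    have h3 : 1 < q ^ d0 := by
      apply Nat.one_lt_pow _ (by omega)
      have : 0 < Nat.totient p := Nat.totient_pos.2 (by omega)
      omega
    have h4 := Nat.le_of_dvd (by omega) hdvd
    have h5 : q ^ d0 < l ^ (q ^ d0) := Nat.lt_pow_self hl.one_lt
    omega

end Pool.Agent.H.MP_96e181_an.helper85
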