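import Mathlib
import Pool.Agent.H.MP_96e181_an.gen.Defs2
import Pool.Agent.H.MP_96e181_an.helper85.Korobov

set_option autoImplicit false

/-!
# The Korobov bound in the form used by the ergodic argument
-/

namespace Pool.Agent.H.MP_96e181_an.helper85

open Finset

theorem korobovBound : Gen.KorobovBound := by
  intro R d₀ C₀ hR hd₀ ε hε
  obtain ⟨y0, M0, hK⟩ := korobov R d₀ C₀ hR 1 one_ne_zero ε hε
  refine ⟨y0, M0, fun M y u hM hy hyM hu hC ξ h1 h2 => ?_⟩
  have hupos : 1 ≤ u ^ d₀ := by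
    by_contra hcon
    have h0 : u ^ d₀ = 0 := by omega
    rw [h0] at hu
    have h3 : (4 * R) ∣ 1 := (Nat.modEq_zero_iff_dvd.1 hu.symm)
    have h4 := Nat.le_of_dvd one_pos h3
    omega
  have hdvd : 4 * R ∣ u ^ d₀ - 1 := (Nat.modEq_iff_dvd' hupos).1 hu.symm
  refine hK M hM y hy hyM u ((Dvd.intro_left 4 rfl).trans hdvd)
    (fun _ => (Dvd.intro R rfl).trans hdvd) ?_ ξ h1 h2
  intro l hl hlR hd
  apply hC l hl hlR
  have h3 := Int.natCast_dvd_natCast.2 hd
  rw [Nat.cast_sub hupos] at h3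
  push_cast at h3 ⊢
  exact h3

end Pool.Agent.H.MP_96e181_an.helper85
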